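import Mathlib
import Pool.Agent.H87Star.Final

set_option autoImplicit false

/-! Star bodies with affinely equivalent sections: definitions. -/

namespace Pool.Agent.SB

open MeasureTheory Set
open scoped ENNReal

/-- Euclidean space. -/
abbrev E (n : ℕ) := EuclideanSpace ℝ (Fin n)

/-- Linear isometric embedding. -/
def Iso {k n : ℕ} (F : E k →L[ℝ] E n) : Prop := ∀ v, ‖F v‖ = ‖v‖

/-- The map `v ↦ v - 2 ⟪u, v⟫ u` (for a unit vector `u`: the reflection in `u^⊥`). -/
noncomputable def refl {k : ℕ} (u : E k) : E k →L[ℝ] E k :=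
  ContinuousLinearMap.id ℝ (E k) - (2 : ℝ) • (innerSL ℝ u).smulRight u

theorem refl_apply {k : ℕ} (u v : E k) : refl u v = v - (2 * inner ℝ u v) • u := by
  simp [refl, mul_smul]

/-- Normalised volume on a set. -/
noncomputable def nv {k : ℕ} (A : Set (E k)) : Measure (E k) := (volume A)⁻¹ • volume.restrict A

/-- Centroid. -/
noncomputable def cen {k : ℕ} (A : Set (E k)) : E k := ∫ x, x ∂(nv A)

/-- Multilinear forms. -/
abbrev CM (k m : ℕ) := ContinuousMultilinearMap ℝ (fun _ : Fin m => E k) ℝ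

instance finCM (k m : ℕ) : FiniteDimensional ℝ (CM k m) :=
  FiniteDimensional.of_injective
    (ContinuousMultilinearMap.toMultilinearMapLinear :
      CM k m →ₗ[ℝ] MultilinearMap ℝ (fun _ : Fin m => E k) ℝ)
    ContinuousMultilinearMap.toMultilinearMap_injective

/-- The tensor power `(w₁, …, w_m) ↦ ∏ ⟪y, wᵢ⟫`. -/
noncomputable def tens {k : ℕ} (m : ℕ) (y : E k) : CM k m :=
  (ContinuousMultilinearMap.mkPiAlgebra ℝ (Fin m) ℝ).compContinuousLinearMap
    (fun _ => innerSL ℝ y)

theorem tens_apply {k : ℕ} (m : ℕ) (y : E k) (w : Fin m → E k) :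
    tens m y w = ∏ i, inner ℝ y (w i) := by
  simp [tens]

/-- The `m`-th central moment tensor of a set. -/
noncomputable def mom {k : ℕ} (m : ℕ) (A : Set (E k)) : CM k m :=
  ∫ x, tens m (x - cen A) ∂(nv A)

/-- The body with gauge `h`. -/
def body {k : ℕ} (h : E k → ℝ) : Set (E k) := {x | h x ≤ 1}

/-- The section of `{f ≤ 1}` in the frame `F`. -/
def sec {k n : ℕ} (f : E n → ℝ) (F : E k →L[ℝ] E n) : Set (E k) := {v | f (F v) ≤ 1}

/-- Pairs of multilinear forms. -/
abbrev TT (k m : ℕ) := CM k 2 × CM k m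

/-- The right action of linear maps on pairs of forms: `(T, T') ↦ (T ∘ P, T' ∘ P)`. -/
noncomputable def act {k : ℕ} (m : ℕ) (P : E k →L[ℝ] E k) : TT k m →L[ℝ] TT k m :=
  (ContinuousMultilinearMap.compContinuousLinearMapL (fun _ : Fin 2 => P)).prodMap
    (ContinuousMultilinearMap.compContinuousLinearMapL (fun _ : Fin m => P))

theorem act_apply {k : ℕ} (m : ℕ) (P : E k →L[ℝ] E k) (T : TT k m) :
    act m P T = (T.1.compContinuousLinearMap (fun _ => P),
      T.2.compContinuousLinearMap (fun _ => P)) := rfl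

/-- The pair of moment tensors of the section in the frame `F`. -/
noncomputable def QQ {k n : ℕ} (m : ℕ) (f : E n → ℝ) (F : E k →L[ℝ] E n) : TT k m :=
  (mom 2 (sec f F), mom m (sec f F))

end Pool.Agent.SB
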