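import Mathlib
import Pool.Agent.SB.Defs

set_option autoImplicit false

open MeasureTheory Set Metric
open scoped ENNReal Pointwise
open Pool.Agent.H87Star (IsGauge)

namespace Pool.Agent.SB

theorem gauge_comp {k n : ℕ} {f : E n → ℝ} (hf : IsGauge f) {F : E k →L[ℝ] E n} (hF : Iso F) :
    IsGauge (fun v => f (F v)) where
  cont := hf.cont.comp F.continuous
  hom := by
    intro t ht v
    rw [map_smul, hf.hom t ht]
  pos := by
    intro v hv
    refine hf.pos _ ?_
    rw [← norm_ne_zero_iff, hF]
    exact norm_ne_zero_iff.2 hv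

theorem isClosed_body {k : ℕ} {h : E k → ℝ} (hh : IsGauge h) : IsClosed (body h) :=
  isClosed_le hh.cont continuous_const

theorem isCompact_body {k : ℕ} {h : E k → ℝ} (hh : IsGauge h) : IsCompact (body h) := by
  obtain ⟨c, C, hc, -, hb⟩ := hh.bounds
  refine (isCompact_closedBall (0 : E k) (1 / c)).of_isClosed_subset (isClosed_body hh) ?_
  intro v hv
  rw [mem_closedBall_zero_iff, le_div_iff₀ hc]
  have h1 : h v ≤ 1 := hv
  linarith [(hb v).1, mul_comm c ‖v‖]

theorem volume_body_pos {k : ℕ} {h : E k → ℝ} (hh : IsGauge h) : 0 < volume (body h) := by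
  have h1 : IsOpen {x | h x < 1} := isOpen_lt hh.cont continuous_const
  have h2 : ({x | h x < 1} : Set (E k)).Nonempty := ⟨0, by
    show h 0 < 1
    rw [hh.zero]; exact zero_lt_one⟩
  refine lt_of_lt_of_le (h1.measure_pos volume h2) (measure_mono ?_)
  intro x hx
  exact (show h x < 1 from hx).le

theorem volume_body_lt_top {k : ℕ} {h : E k → ℝ} (hh : IsGauge h) : volume (body h) < ⊤ :=
  (isCompact_body hh).measure_lt_top

/-- The boundary of a star body is a null set. -/
theorem volume_level {k : ℕ} (_hk : 1 ≤ k) {h : E k → ℝ} (hh : IsGauge h) :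
    volume {x | h x = 1} = 0 := by
  have hVt := volume_body_lt_top hh
  -- scaling
  have hsc : ∀ t : ℝ, 0 < t → t • {x | h x = 1} = {x | h x = t} := by
    intro t ht
    ext x
    rw [mem_smul_set_iff_inv_smul_mem₀ ht.ne']
    show h (t⁻¹ • x) = 1 ↔ h x = t
    rw [hh.hom _ (inv_nonneg.2 ht.le), inv_mul_eq_one₀ ht.ne']
    exact eq_comm
  have hvol : ∀ t : ℝ, 0 < t → volume {x | h x = t} =
      ENNReal.ofReal (t ^ k) * volume {x | h x = 1} := by
    intro t ht
    rw [← hsc t ht, Measure.addHaar_smul, finrank_euclideanSpace_fin, abs_of_pos (by positivity)]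
  by_contra hne
  -- infinitely many disjoint levels of volume bounded below
  set a : ℕ → ℝ := fun j => 1 - 1 / (j + 2) with ha
  have ha1 : ∀ j, 1 / 2 ≤ a j := by
    intro j
    have h1 : (1 : ℝ) / (j + 2) ≤ 1 / 2 := by
      apply one_div_le_one_div_of_le two_pos
      have := Nat.cast_nonneg (α := ℝ) j
      linarith
    simp only [ha]; linarith
  have ha2 : ∀ j, a j ≤ 1 := by
    intro j
    have h1 : (0 : ℝ) ≤ 1 / (j + 2) := by positivity
    simp only [ha]; linarith
  have hainj : Function.Injective a := by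
    intro i j hij
    simp only [ha] at hij
    have h1 : (1 : ℝ) / (i + 2) = 1 / (j + 2) := by linarith
    rw [one_div, one_div, inv_inj] at h1
    exact_mod_cast (by linarith : (i : ℝ) = j)
  have hdisj : Pairwise (Function.onFun Disjoint fun j : ℕ => {x : E k | h x = a j}) := by
    intro i j hij
    rw [Function.onFun, Set.disjoint_left]
    intro x hx hx'
    exact hij (hainj (hx.symm.trans hx'))
  have hmeas : ∀ j : ℕ, MeasurableSet {x : E k | h x = a j} := fun j =>
    (isClosed_eq hh.cont continuous_const).measurableSet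
  have hsum : ∑' j : ℕ, volume {x : E k | h x = a j} ≤ volume (body h) := by
    rw [← measure_iUnion hdisj hmeas]
    refine measure_mono ?_
    intro x hx
    obtain ⟨j, hj⟩ := mem_iUnion.1 hx
    show h x ≤ 1
    rw [show h x = a j from hj]
    exact ha2 j
  have hlow : ∀ j : ℕ, ENNReal.ofReal ((1 / 2) ^ k) * volume {x : E k | h x = 1} ≤
      volume {x : E k | h x = a j} := by
    intro j
    rw [hvol (a j) (by linarith [ha1 j])]
    gcongr
    exact ha1 j
  have hconst : ∑' _ : ℕ, ENNReal.ofReal ((1 / 2) ^ k) * volume {x : E k | h x = 1} = ⊤ := by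
    refine ENNReal.tsum_const_eq_top_of_ne_zero ?_
    refine mul_ne_zero ?_ hne
    rw [Ne, ENNReal.ofReal_eq_zero, not_le]
    positivity
  have h1 := (ENNReal.tsum_le_tsum hlow).trans hsum
  rw [hconst] at h1
  exact absurd hVt (not_lt.2 h1)

theorem isProbabilityMeasure_nv {k : ℕ} {h : E k → ℝ} (hh : IsGauge h) :
    IsProbabilityMeasure (nv (body h)) := by
  refine ⟨?_⟩
  rw [nv, Measure.smul_apply, Measure.restrict_apply_univ, smul_eq_mul]
  exact ENNReal.inv_mul_cancel (volume_body_pos hh).ne' (volume_body_lt_top hh).ne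

end Pool.Agent.SB
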