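import Mathlib
import Pool.Agent.SB.Defs
import Pool.Agent.SB.Vol

set_option autoImplicit false

open MeasureTheory Set Metric
open scoped ENNReal
open Pool.Agent.H87Star (IsGauge)

namespace Pool.Agent.SB

/-- two vectors of the same norm are exchanged by an isometry -/
private theorem ballSet_exists_isometry {k : ℕ} {x y : E k} (h : ‖x‖ = ‖y‖) :
    ∃ R : E k ≃ₗᵢ[ℝ] E k, R x = y :=
  ⟨(ℝ ∙ (x - y))ᗮ.reflection, Submodule.reflection_sub h⟩

private theorem ballSet_invariant {k : ℕ} {h : E k → ℝ} (hh : IsGauge h) (z : E k)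
    (hinv : ∀ R : E k ≃ₗᵢ[ℝ] E k,
      (nv {x | h (x - z) ≤ 1}).map R = nv {x | h (x - z) ≤ 1})
    (R : E k ≃ₗᵢ[ℝ] E k) {x : E k} (hx : h (x - z) ≤ 1) : h (R x - z) ≤ 1 := by
  by_contra hRx
  push Not at hRx
  set A : Set (E k) := {x | h (x - z) ≤ 1} with hA
  have hcont : Continuous fun y : E k => h (y - z) := hh.cont.comp (continuous_id.sub continuous_const)
  have hAclosed : IsClosed A := isClosed_le hcont continuous_const
  have hAcomp : IsCompact A := by
    have h1 : A = (fun y => y + z) '' body h := by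
      ext y
      constructor
      · intro hy
        exact ⟨y - z, hy, sub_add_cancel y z⟩
      · rintro ⟨w, hw, rfl⟩
        show h (w + z - z) ≤ 1
        rw [add_sub_cancel_right]
        exact hw
    rw [h1]
    exact (isCompact_body hh).image (continuous_id.add continuous_const)
  have hAfin : volume A < ⊤ := hAcomp.measure_lt_top
  -- the complement of `A`
  have hV : IsOpen Aᶜ := hAclosed.isOpen_compl
  have hRV : IsOpen (R ⁻¹' Aᶜ) := hV.preimage R.continuous
  -- the open set of interior points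
  have hU : IsOpen {y : E k | h (y - z) < 1} := isOpen_lt hcont continuous_const
  have hne : (R ⁻¹' Aᶜ ∩ {y : E k | h (y - z) < 1}).Nonempty := by
    -- points `z + t (x - z)` with `t < 1` close to `1`
    have hlim : Filter.Tendsto (fun t : ℝ => z + t • (x - z)) (nhdsWithin 1 (Iio 1)) (nhds x) := by
      have h1 : Filter.Tendsto (fun t : ℝ => z + t • (x - z)) (nhds 1)
          (nhds (z + (1 : ℝ) • (x - z))) := by
        apply Continuous.tendsto
        fun_prop
      rw [one_smul, add_sub_cancel] at h1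
      exact h1.mono_left nhdsWithin_le_nhds
    have hmem : R ⁻¹' Aᶜ ∈ nhds x := hRV.mem_nhds (by
      show ¬ (h (R x - z) ≤ 1)
      exact not_le.2 hRx)
    have h2 : ∀ᶠ t : ℝ in nhdsWithin 1 (Iio 1), z + t • (x - z) ∈ R ⁻¹' Aᶜ := hlim hmem
    have h3 : ∀ᶠ t : ℝ in nhdsWithin 1 (Iio 1), t ∈ Ioo (0 : ℝ) 1 := by
      exact Ioo_mem_nhdsLT (by norm_num)
    obtain ⟨t, ht1, ht2⟩ := (h2.and h3).exists
    refine ⟨z + t • (x - z), ht1, ?_⟩
    show h (z + t • (x - z) - z) < 1
    rw [add_sub_cancel_left, hh.hom t ht2.1.le]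
    have h4 := hh.nonneg (x - z)
    have h5 : h (x - z) ≤ 1 := hx
    nlinarith [ht2.1, ht2.2]
  have hpos : 0 < volume (R ⁻¹' Aᶜ ∩ {y : E k | h (y - z) < 1}) :=
    (hRV.inter hU).measure_pos volume hne
  have e1 : nv A (R ⁻¹' Aᶜ) = 0 := by
    have h1 : (nv A).map R Aᶜ = nv A (R ⁻¹' Aᶜ) :=
      Measure.map_apply R.continuous.measurable hV.measurableSet
    rw [← h1, hinv R]
    unfold nv
    rw [Measure.smul_apply, Measure.restrict_apply hV.measurableSet, compl_inter_self,
      measure_empty, smul_zero]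
  have e2 : nv A (R ⁻¹' Aᶜ) = (volume A)⁻¹ * volume (R ⁻¹' Aᶜ ∩ A) := by
    unfold nv
    rw [Measure.smul_apply, Measure.restrict_apply hRV.measurableSet, smul_eq_mul]
  rw [e2, mul_eq_zero] at e1
  rcases e1 with e1 | e1
  · rw [ENNReal.inv_eq_zero] at e1
    exact hAfin.ne e1
  · have h0 : {y : E k | h (y - z) < 1} ⊆ A := by
      intro y hy
      exact (le_of_lt hy : h (y - z) ≤ 1)
    have h1 : volume (R ⁻¹' Aᶜ ∩ {y : E k | h (y - z) < 1}) ≤ volume (R ⁻¹' Aᶜ ∩ A) :=
      measure_mono (inter_subset_inter_right _ h0)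
    rw [e1] at h1
    exact absurd hpos (not_lt.2 h1)

/-- A translate of a star body whose volume is invariant under all linear isometries is a ball
centred at the origin. -/
theorem ball_of_invariant {k : ℕ} (hk : 1 ≤ k) {h : E k → ℝ} (hh : IsGauge h) (z : E k)
    (hinv : ∀ R : E k ≃ₗᵢ[ℝ] E k,
      (nv {x | h (x - z) ≤ 1}).map R = nv {x | h (x - z) ≤ 1}) :
    ∃ r > 0, ∀ x, h (x - z) ≤ 1 ↔ ‖x‖ ≤ r := by
  have hcont : Continuous fun y : E k => h (y - z) := hh.cont.comp (continuous_id.sub continuous_const)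
  have hsph : ∀ x y : E k, ‖x‖ = ‖y‖ → h (x - z) ≤ 1 → h (y - z) ≤ 1 := by
    intro x y hxy hx
    obtain ⟨R, hR⟩ := ballSet_exists_isometry hxy
    have := ballSet_invariant hh z hinv R hx
    rwa [hR] at this
  -- the set is compact and contains `z`
  have hz : h (z - z) ≤ 1 := by
    rw [sub_self, hh.zero]
    exact zero_le_one
  have hAcomp : IsCompact {x : E k | h (x - z) ≤ 1} := by
    have h1 : {x : E k | h (x - z) ≤ 1} = (fun y => y + z) '' body h := by
      ext y
      constructor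
      · intro hy
        exact ⟨y - z, hy, sub_add_cancel y z⟩
      · rintro ⟨w, hw, rfl⟩
        show h (w + z - z) ≤ 1
        rw [add_sub_cancel_right]
        exact hw
    rw [h1]
    exact (isCompact_body hh).image (continuous_id.add continuous_const)
  obtain ⟨a, ha, hmax⟩ := hAcomp.exists_isMaxOn ⟨z, hz⟩ continuous_norm.continuousOn
  have hmax' : ∀ x, h (x - z) ≤ 1 → ‖x‖ ≤ ‖a‖ := fun x hx => hmax hx
  -- a unit vector `e` with `z = -‖z‖ e`
  have : Nonempty (Fin k) := ⟨⟨0, hk⟩⟩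
  obtain ⟨e, he, hze⟩ : ∃ e : E k, ‖e‖ = 1 ∧ z = (-‖z‖) • e := by
    by_cases hz0 : z = 0
    · obtain ⟨e, he⟩ := exists_norm_eq (E k) (zero_le_one' ℝ)
      exact ⟨e, he, by rw [hz0]; simp⟩
    · have hn : ‖z‖ ≠ 0 := norm_ne_zero_iff.2 hz0
      refine ⟨(-‖z‖⁻¹) • z, ?_, ?_⟩
      · rw [norm_smul, norm_neg, norm_inv, norm_norm, inv_mul_cancel₀ hn]
      · rw [smul_smul, neg_mul_neg, mul_inv_cancel₀ hn, one_smul]
  -- positivity of the radius
  have hr : 0 < ‖a‖ := by
    have he0 : e ≠ 0 := by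
      rintro rfl
      simp at he
    have hhe := hh.pos e he0
    have h1 : h (z + (h e)⁻¹ • e - z) ≤ 1 := by
      rw [add_sub_cancel_left, hh.hom _ (inv_nonneg.2 hhe.le), inv_mul_cancel₀ hhe.ne']
    have h2 := hmax' _ h1
    have h3 := hmax' z hz
    by_contra h4
    have h5 : ‖a‖ = 0 := le_antisymm (not_lt.1 h4) (norm_nonneg _)
    rw [h5] at h2 h3
    have h6 : z = 0 := norm_le_zero_iff.1 h3
    have h7 : z + (h e)⁻¹ • e = 0 := norm_le_zero_iff.1 h2
    rw [h6, zero_add, smul_eq_zero] at h7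
    rcases h7 with h7 | h7
    · exact hhe.ne' (inv_eq_zero.1 h7)
    · exact he0 h7
  refine ⟨‖a‖, hr, fun x => ⟨hmax' x, fun hx => ?_⟩⟩
  -- the far end of the segment
  have hb : h (‖a‖ • e - z) ≤ 1 := hsph a _ (by rw [norm_smul, norm_norm, he, mul_one]) ha
  -- the point of norm `‖x‖` on the segment
  have hs : h (‖x‖ • e - z) ≤ 1 := by
    have hpos : 0 < ‖a‖ + ‖z‖ := by positivity
    have h1 : ‖x‖ • e - z = ((‖x‖ + ‖z‖) / (‖a‖ + ‖z‖)) • (‖a‖ • e - z) := by
      have h2 : ∀ c : ℝ, c • e - z = (c + ‖z‖) • e := by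
        intro c
        have h3 : c • e - z = c • e - (-‖z‖) • e := by rw [← hze]
        rw [h3, ← sub_smul, sub_neg_eq_add]
      rw [h2, h2, smul_smul, div_mul_cancel₀ _ hpos.ne']
    have h4 : 0 ≤ (‖x‖ + ‖z‖) / (‖a‖ + ‖z‖) := by positivity
    have h5 : (‖x‖ + ‖z‖) / (‖a‖ + ‖z‖) ≤ 1 := (div_le_one hpos).2 (by linarith)
    rw [h1, hh.hom _ h4]
    have h6 := hh.nonneg (‖a‖ • e - z)
    nlinarith
  exact hsph _ x (by rw [norm_smul, norm_norm, he, mul_one]) hs

end Pool.Agent.SB
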