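import Mathlib
import Pool.Agent.SB.Defs
import Pool.Agent.SB.Vol

set_option autoImplicit false

open MeasureTheory Set Metric
open scoped ENNReal
open Pool.Agent.H87Star (IsGauge)

namespace Pool.Agent.SB

theorem integrable_nv {k : ℕ} {G : Type*} [NormedAddCommGroup G] {h : E k → ℝ} (hh : IsGauge h)
    {F : E k → G} (hF : Continuous F) : Integrable F (nv (body h)) := by
  unfold nv
  refine Integrable.smul_measure ?_ ?_
  · exact hF.continuousOn.integrableOn_compact (isCompact_body hh)
  · exact ENNReal.inv_ne_top.2 (volume_body_pos hh).ne'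

theorem continuous_tens {k : ℕ} (m : ℕ) : Continuous (fun y : E k => tens m y) := by
  have h1 : Continuous (fun y : E k => (fun _ : Fin m => (innerSL ℝ y : E k →L[ℝ] ℝ))) :=
    continuous_pi fun _ => (innerSL ℝ).continuous
  have h2 := (ContinuousMultilinearMap.compContinuousLinearMapContinuousMultilinear ℝ
    (fun _ : Fin m => E k) (fun _ : Fin m => ℝ) ℝ).cont.comp h1
  have h3 := h2.clm_apply (continuous_const (y := ContinuousMultilinearMap.mkPiAlgebra ℝ (Fin m) ℝ))
  exact h3

/-- Evaluation of the moment tensor. -/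
theorem mom_apply {k : ℕ} (m : ℕ) {h : E k → ℝ} (hh : IsGauge h) (w : Fin m → E k) :
    mom m (body h) w = ∫ x, ∏ i, inner ℝ (x - cen (body h)) (w i) ∂(nv (body h)) := by
  unfold mom
  have h1 : Integrable (fun x => tens m (x - cen (body h))) (nv (body h)) :=
    integrable_nv hh ((continuous_tens m).comp (continuous_id.sub continuous_const))
  have h2 := (ContinuousMultilinearMap.apply ℝ (fun _ : Fin m => E k) ℝ w).integral_comp_comm h1
  change ContinuousMultilinearMap.apply ℝ (fun _ : Fin m => E k) ℝ w _ = _
  rw [← h2]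
  refine integral_congr_ae (Filter.Eventually.of_forall fun x => ?_)
  change tens m (x - cen (body h)) w = _
  rw [tens_apply]

/-- The normalised volume of an affine image. -/
theorem map_nv {k : ℕ} {h h' : E k → ℝ} (hh : IsGauge h) (hh' : IsGauge h')
    (g : E k ≃L[ℝ] E k) (c : E k) (hg : ∀ v, h' (g v + c) ≤ 1 ↔ h v ≤ 1) :
    nv (body h') = (nv (body h)).map (fun v => g v + c) := by
  have hT : Measurable (fun v => g v + c) := (g.continuous.add continuous_const).measurable
  have hpre : (fun v => g v + c) ⁻¹' (body h') = body h := by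
    ext v
    exact hg v
  have hdet : LinearMap.det (g : E k →ₗ[ℝ] E k) ≠ 0 := by
    have := LinearEquiv.isUnit_det' g.toLinearEquiv
    exact this.ne_zero
  set κ : ℝ≥0∞ := ENNReal.ofReal |(LinearMap.det (g : E k →ₗ[ℝ] E k))⁻¹| with hκ
  have hκ0 : κ ≠ 0 := by
    rw [hκ, Ne, ENNReal.ofReal_eq_zero, not_le]
    exact abs_pos.2 (inv_ne_zero hdet)
  have hκt : κ ≠ ⊤ := ENNReal.ofReal_ne_top
  have hmap : (volume : Measure (E k)).map (fun v => g v + c) = κ • volume := by
    have h1 : (volume : Measure (E k)).map (fun v => g v) = κ • volume :=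
      Measure.map_linearMap_addHaar_eq_smul_addHaar volume hdet
    have h2 : (fun v => g v + c) = (fun x : E k => x + c) ∘ (fun v => g v) := rfl
    rw [h2, ← Measure.map_map (measurable_add_const c) g.continuous.measurable, h1,
      Measure.map_smul, map_add_right_eq_self]
  have hmb : MeasurableSet (body h') := (isCompact_body hh').isClosed.measurableSet
  have hvol : volume (body h) = κ * volume (body h') := by
    have := congrArg (fun μ : Measure (E k) => μ (body h')) hmap
    simp only [Measure.smul_apply, smul_eq_mul] at this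
    rw [Measure.map_apply hT hmb, hpre] at this
    exact this
  unfold nv
  rw [Measure.map_smul, ← hpre, ← Measure.restrict_map hT hmb, hpre, hmap, hvol,
    Measure.restrict_smul, smul_smul, ENNReal.mul_inv (Or.inl hκ0) (Or.inl hκt)]
  congr 1
  rw [mul_assoc, mul_comm (volume (body h'))⁻¹ κ, ← mul_assoc, ENNReal.inv_mul_cancel hκ0 hκt,
    one_mul]

theorem cen_affine {k : ℕ} {h h' : E k → ℝ} (hh : IsGauge h) (hh' : IsGauge h')
    (g : E k ≃L[ℝ] E k) (c : E k) (hg : ∀ v, h' (g v + c) ≤ 1 ↔ h v ≤ 1) :
    cen (body h') = g (cen (body h)) + c := by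
  have hT : Continuous (fun v => g v + c) := g.continuous.add continuous_const
  have hprob := isProbabilityMeasure_nv hh
  unfold cen
  rw [map_nv hh hh' g c hg, integral_map (f := fun x : E k => x) hT.measurable.aemeasurable
    continuous_id.aestronglyMeasurable]
  rw [integral_add (integrable_nv hh g.continuous) (integrable_nv hh continuous_const),
    integral_const]
  have h1 := (g : E k →L[ℝ] E k).integral_comp_comm (integrable_nv hh (continuous_id (X := E k)))
  simp only [id, ContinuousLinearEquiv.coe_coe] at h1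
  rw [h1]
  simp

/-- Affine equivariance of the moment tensors. -/
theorem mom_affine {k : ℕ} (m : ℕ) {h h' : E k → ℝ} (hh : IsGauge h) (hh' : IsGauge h')
    (g : E k ≃L[ℝ] E k) (c : E k) (hg : ∀ v, h' (g v + c) ≤ 1 ↔ h v ≤ 1) :
    mom m (body h') = (mom m (body h)).compContinuousLinearMap
      (fun _ => ContinuousLinearMap.adjoint (g : E k →L[ℝ] E k)) := by
  ext w
  have hT : Continuous (fun v => g v + c) := g.continuous.add continuous_const
  rw [ContinuousMultilinearMap.compContinuousLinearMap_apply, mom_apply m hh', mom_apply m hh,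
    cen_affine hh hh' g c hg, map_nv hh hh' g c hg, integral_map hT.measurable.aemeasurable]
  · refine integral_congr_ae (Filter.Eventually.of_forall fun x => ?_)
    refine Finset.prod_congr rfl fun i _ => ?_
    rw [ContinuousLinearMap.adjoint_inner_right]
    congr 1
    rw [map_sub]
    simp
  · refine Continuous.aestronglyMeasurable ?_
    refine continuous_finsetProd _ fun i _ => ?_
    exact (continuous_id.sub continuous_const).inner continuous_const

/-- The second moment is positive definite. -/
theorem mom_two_pos {k : ℕ} {h : E k → ℝ} (hh : IsGauge h) (v : E k) (hv : v ≠ 0) :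
    0 < mom 2 (body h) (fun _ => v) := by
  rw [mom_apply 2 hh]
  set c := cen (body h) with hc
  have hF : Continuous (fun x : E k => ∏ _i : Fin 2, inner ℝ (x - c) v) := by
    refine continuous_finsetProd _ fun i _ => ?_
    exact (continuous_id.sub continuous_const).inner continuous_const
  have hnn : 0 ≤ (fun x : E k => ∏ _i : Fin 2, inner ℝ (x - c) v) := by
    intro x
    simp only [Fin.prod_univ_two, Pi.zero_apply]
    exact mul_self_nonneg _
  rw [integral_pos_iff_support_of_nonneg hnn (integrable_nv hh hF)]
  have hhv : 0 < h v := hh.pos v hv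
  -- a point of the interior off the hyperplane
  have hex : ∃ t : ℝ, h (t • v) < 1 ∧ inner ℝ (t • v - c) v ≠ 0 := by
    by_contra hcon
    push Not at hcon
    have h1 : ∀ s : ℝ, 0 < s → s < 1 → h ((s / (h v + 1)) • v) < 1 := by
      intro s hs hs1
      rw [hh.hom _ (by positivity), div_mul_eq_mul_div, div_lt_one (by positivity)]
      nlinarith
    have h2 := hcon _ (h1 (1/2) (by norm_num) (by norm_num))
    have h3 := hcon _ (h1 (1/3) (by norm_num) (by norm_num))
    rw [inner_sub_left, inner_smul_left] at h2 h3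
    simp only [conj_trivial] at h2 h3
    have h4 : (0:ℝ) < inner ℝ v v := real_inner_self_pos.2 hv
    have h5 : (1/2 / (h v + 1) : ℝ) * inner ℝ v v = 1/3 / (h v + 1) * inner ℝ v v := by linarith
    have h6 := mul_right_cancel₀ h4.ne' h5
    have h7 : (0:ℝ) < h v + 1 := by positivity
    rw [div_left_inj' h7.ne'] at h6
    norm_num at h6
  obtain ⟨t, ht1, ht2⟩ := hex
  set U : Set (E k) := {x | h x < 1} ∩ {x | inner ℝ (x - c) v ≠ 0} with hU
  have hUo : IsOpen U := by
    refine IsOpen.inter (isOpen_lt hh.cont continuous_const) ?_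
    exact isOpen_ne_fun ((continuous_id.sub continuous_const).inner continuous_const)
      continuous_const
  have hUn : U.Nonempty := ⟨t • v, ht1, ht2⟩
  have hpos : 0 < volume U := hUo.measure_pos volume hUn
  have hsub : U ⊆ Function.support (fun x : E k => ∏ _i : Fin 2, inner ℝ (x - c) v) := by
    rintro x ⟨-, hx⟩
    simp only [Function.mem_support, Fin.prod_univ_two]
    exact mul_ne_zero hx hx
  refine lt_of_lt_of_le ?_ (measure_mono hsub)
  unfold nv
  rw [Measure.smul_apply, Measure.restrict_apply hUo.measurableSet, smul_eq_mul]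
  have hUb : U ∩ body h = U := by
    refine inter_eq_left.2 ?_
    rintro x ⟨hx, -⟩
    exact le_of_lt (show h x < 1 from hx)
  rw [hUb]
  exact ENNReal.mul_pos (ENNReal.inv_ne_zero.2 (volume_body_lt_top hh).ne) hpos.ne'

/-- A uniform lower bound for one body. -/
theorem mom_two_lower {k : ℕ} {h : E k → ℝ} (hh : IsGauge h) :
    ∃ c > 0, ∀ v, c * ‖v‖ ^ 2 ≤ mom 2 (body h) (fun _ => v) := by
  have hcont : Continuous (fun v : E k => mom 2 (body h) (fun _ => v)) :=
    (mom 2 (body h)).cont.comp (continuous_pi fun _ => continuous_id)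
  by_cases hne : (sphere (0 : E k) 1).Nonempty
  · obtain ⟨u, hu, hmin⟩ := (isCompact_sphere (0 : E k) 1).exists_isMinOn hne hcont.continuousOn
    have hu1 : ‖u‖ = 1 := by simpa using hu
    have hu0 : u ≠ 0 := by
      rintro rfl
      simp at hu1
    refine ⟨mom 2 (body h) (fun _ => u), mom_two_pos hh u hu0, fun v => ?_⟩
    by_cases hv : v = 0
    · subst hv
      have h0 : mom 2 (body h) (fun _ => (0 : E k)) = 0 :=
        (mom 2 (body h)).map_coord_zero (0 : Fin 2) rfl
      rw [h0]
      simp
    · have hn : 0 < ‖v‖ := norm_pos_iff.2 hv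
      have h1 : (‖v‖⁻¹ • v) ∈ sphere (0 : E k) 1 := by
        rw [mem_sphere_zero_iff_norm, norm_smul, norm_inv, norm_norm, inv_mul_cancel₀ hn.ne']
      have h2 := hmin h1
      simp only [Set.mem_ofPred_eq] at h2
      have h3 : mom 2 (body h) (fun _ => v)
          = ‖v‖ ^ 2 * mom 2 (body h) (fun _ => ‖v‖⁻¹ • v) := by
        have h4 := (mom 2 (body h)).map_smul_univ (fun _ => ‖v‖) (fun _ => ‖v‖⁻¹ • v)
        simp only [smul_smul, mul_inv_cancel₀ hn.ne', one_smul, Finset.prod_const,
          Finset.card_univ, Fintype.card_fin, smul_eq_mul] at h4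
        exact h4
      rw [h3, mul_comm]
      exact mul_le_mul_of_nonneg_left h2 (by positivity)
  · refine ⟨1, one_pos, fun v => ?_⟩
    have hv : v = 0 := by
      by_contra hv
      refine hne ⟨‖v‖⁻¹ • v, ?_⟩
      have hn : 0 < ‖v‖ := norm_pos_iff.2 hv
      rw [mem_sphere_zero_iff_norm, norm_smul, norm_inv, norm_norm, inv_mul_cancel₀ hn.ne']
    subst hv
    have h0 : mom 2 (body h) (fun _ => (0 : E k)) = 0 :=
      (mom 2 (body h)).map_coord_zero (0 : Fin 2) rfl
    rw [h0]
    simp

end Pool.Agent.SB
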