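import Mathlib
import Pool.Agent.SB.Defs

set_option autoImplicit false

open MeasureTheory Set Metric
open scoped ENNReal

namespace Pool.Agent.SB

/-- The characteristic function as a sum of moments. -/
theorem charFun_hasSum {k : ℕ} (μ : Measure (E k)) [IsProbabilityMeasure μ] (C : ℝ)
    (hC : ∀ᵐ x ∂μ, ‖x‖ ≤ C) (v : E k) :
    HasSum (fun m : ℕ => (Complex.I ^ m / (m.factorial : ℂ)) *
      ((∫ x, inner ℝ x v ^ m ∂μ : ℝ) : ℂ)) (charFun μ v) := by
  rw [charFun_apply]
  set F : ℕ → E k → ℂ := fun m x => (((inner ℝ x v : ℝ) : ℂ) * Complex.I) ^ m / (m.factorial : ℂ)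
    with hF
  have hbd : ∀ m : ℕ, ∀ᵐ x ∂μ, ‖F m x‖ ≤ (|C| * ‖v‖) ^ m / m.factorial := by
    intro m
    filter_upwards [hC] with x hx
    rw [hF]
    simp only [norm_div, norm_pow, norm_mul, Complex.norm_real, Complex.norm_I, mul_one,
      RCLike.norm_natCast]
    gcongr
    calc ‖(inner ℝ x v : ℝ)‖ ≤ ‖x‖ * ‖v‖ := norm_inner_le_norm x v
      _ ≤ |C| * ‖v‖ := by
        gcongr
        exact hx.trans (le_abs_self C)
  have hmeas : ∀ m : ℕ, AEStronglyMeasurable (F m) μ := by
    intro m
    rw [hF]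
    apply Continuous.aestronglyMeasurable
    fun_prop
  have hint : ∀ m : ℕ, Integrable (F m) μ := fun m =>
    Integrable.of_bound (hmeas m) _ (hbd m)
  have hsum : Summable fun m : ℕ => ∫ x, ‖F m x‖ ∂μ := by
    refine Summable.of_nonneg_of_le (fun m => integral_nonneg fun x => norm_nonneg _)
      (fun m => ?_) (Real.summable_pow_div_factorial (|C| * ‖v‖))
    calc ∫ x, ‖F m x‖ ∂μ ≤ ∫ x, (|C| * ‖v‖) ^ m / (m.factorial : ℝ) ∂μ :=
          integral_mono_ae (hint m).norm (integrable_const _) (hbd m)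
      _ = (|C| * ‖v‖) ^ m / m.factorial := by simp
  have h1 := hasSum_integral_of_summable_integral_norm hint hsum
  have h2 : (fun x : E k => ∑' m, F m x) =
      fun x => Complex.exp (((inner ℝ x v : ℝ) : ℂ) * Complex.I) := by
    funext x
    rw [Complex.exp_eq_exp_ℂ, NormedSpace.exp_eq_tsum_div]
  rw [h2] at h1
  have h4 : ∀ m : ℕ, (Complex.I ^ m / (m.factorial : ℂ)) *
      ((∫ x, inner ℝ x v ^ m ∂μ : ℝ) : ℂ) = ∫ x, F m x ∂μ := by
    intro m
    have h3 : ∀ x : E k, F m x =
        (Complex.I ^ m / (m.factorial : ℂ)) * (((inner ℝ x v ^ m : ℝ)) : ℂ) := by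
      intro x
      rw [hF]
      push_cast
      ring
    simp only [h3]
    rw [integral_const_mul]
    congr 1
    exact (integral_ofReal (𝕜 := ℂ)).symm
  simp only [h4]
  exact h1

/-- A compactly supported probability measure whose one-dimensional moments depend only on the norm
of the direction is invariant under all linear isometries. -/
theorem map_eq_of_moments {k : ℕ} (μ : Measure (E k)) [IsProbabilityMeasure μ] (C : ℝ)
    (hC : ∀ᵐ x ∂μ, ‖x‖ ≤ C)
    (h : ∀ (m : ℕ) (v w : E k), ‖v‖ = ‖w‖ → ∫ x, inner ℝ x v ^ m ∂μ = ∫ x, inner ℝ x w ^ m ∂μ)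
    (R : E k ≃ₗᵢ[ℝ] E k) : μ.map R = μ := by
  have hRm : Measurable (R : E k → E k) := R.continuous.measurable
  have : IsProbabilityMeasure (μ.map R) := Measure.isProbabilityMeasure_map hRm.aemeasurable
  apply Measure.ext_of_charFun
  funext v
  have h1 : charFun (μ.map R) v = charFun μ (R.symm v) := by
    rw [charFun_apply, charFun_apply, integral_map hRm.aemeasurable]
    · congr 1
      funext x
      have : inner ℝ (R x) v = inner ℝ x (R.symm v) := by
        rw [← R.inner_map_map x (R.symm v), R.apply_symm_apply]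
      rw [this]
    · apply Continuous.aestronglyMeasurable
      fun_prop
  rw [h1]
  have h2 := charFun_hasSum μ C hC (R.symm v)
  have h3 := charFun_hasSum μ C hC v
  have h4 : ∀ m : ℕ, ∫ x, inner ℝ x (R.symm v) ^ m ∂μ = ∫ x, inner ℝ x v ^ m ∂μ :=
    fun m => h m _ _ (R.symm.norm_map v)
  simp only [h4] at h2
  exact h2.unique h3

end Pool.Agent.SB
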