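import Mathlib
import Pool.Agent.SB.Defs
import Pool.Agent.SB.Vol
import Pool.Agent.SB.Mom
import Pool.Agent.SB.Radial
import Pool.Agent.SB.BallSet

set_option autoImplicit false

open MeasureTheory Set Metric
open scoped ENNReal
open Pool.Agent.H87Star (IsGauge)

namespace Pool.Agent.SB

/-- A positive definite symmetric form is the square of the norm after a linear change. -/
theorem exists_sqrt {k : ℕ} (Q : CM k 2) (hs : ∀ v w : E k, Q ![v, w] = Q ![w, v])
    (hp : ∀ v : E k, v ≠ 0 → 0 < Q (fun _ => v)) :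
    ∃ S : E k ≃ₗ[ℝ] E k, ∀ v, Q (fun _ => v) = ‖S v‖ ^ 2 := by
  have hdiag : ∀ v : E k, Q (fun _ => v) = Q ![v, v] := by
    intro v
    congr 1
    funext i
    fin_cases i <;> rfl
  have hadd : ∀ v v' w : E k, Q ![v + v', w] = Q ![v, w] + Q ![v', w] := by
    intro v v' w
    exact Q.cons_add ![w] v v'
  have hsmul : ∀ (c : ℝ) (v w : E k), Q ![c • v, w] = c * Q ![v, w] := by
    intro c v w
    exact Q.cons_smul ![w] c v
  let B : E k →ₗ[ℝ] E k →ₗ[ℝ] ℝ := LinearMap.mk₂ ℝ (fun v w => Q ![v, w]) hadd
    (fun c v w => hsmul c v w)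
    (fun v w w' => by rw [hs v, hadd, hs w, hs w'])
    (fun c v w => by rw [hs v, hsmul, hs w]; rfl)
  have hB : ∀ v w, B v w = Q ![v, w] := fun v w => rfl
  let e : Fin k → E k := fun i => EuclideanSpace.single i 1
  have he : ∀ w : E k, ∑ i, w i • e i = w := by
    intro w
    ext j
    simp [e, Pi.single_apply]
  let T : E k →ₗ[ℝ] E k :=
    { toFun := fun v => WithLp.toLp 2 (fun i => B v (e i))
      map_add' := by
        intro v w
        ext i
        simp
      map_smul' := by
        intro c v
        ext i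
        simp }
  have hT : ∀ v w, inner ℝ (T v) w = B v w := by
    intro v w
    rw [PiLp.inner_apply]
    conv_rhs => rw [← he w]
    rw [map_sum]
    refine Finset.sum_congr rfl fun i _ => ?_
    rw [map_smul, smul_eq_mul]
    show inner ℝ (B v (e i)) (w i) = _
    simp [mul_comm]
  have hsym : T.IsSymmetric := by
    intro v w
    rw [hT, real_inner_comm, hT, hB, hB, hs]
  have hn : Module.finrank ℝ (E k) = k := finrank_euclideanSpace_fin
  let b := hsym.eigenvectorBasis hn
  let lam := hsym.eigenvalues hn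
  have hquad : ∀ v, Q (fun _ => v) = ∑ i, lam i * (b.repr v i) ^ 2 := by
    intro v
    rw [hdiag, ← hB, ← hT, ← b.repr.inner_map_map, PiLp.inner_apply]
    refine Finset.sum_congr rfl fun i _ => ?_
    have h1 : b.repr (T v) i = lam i * b.repr v i := hsym.eigenvectorBasis_apply_self_apply hn v i
    rw [h1]
    simp
    ring
  have hlam : ∀ i, 0 < lam i := by
    intro i
    have h1 := hp (b i) (by
      intro h0
      have := b.orthonormal.1 i
      rw [h0] at this
      simp at this)
    rw [hquad] at h1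
    have h2 : ∑ j, lam j * (b.repr (b i) j) ^ 2 = lam i := by
      rw [Finset.sum_eq_single i]
      · simp
      · intro j _ hj
        simp [hj]
      · simp
    rwa [h2] at h1
  let S0 : E k →ₗ[ℝ] E k :=
    { toFun := fun v => WithLp.toLp 2 (fun i => Real.sqrt (lam i) * b.repr v i)
      map_add' := by
        intro v w
        ext i
        simp [mul_add]
      map_smul' := by
        intro c v
        ext i
        simp
        ring }
  have hS0 : ∀ v, Q (fun _ => v) = ‖S0 v‖ ^ 2 := by
    intro v
    rw [hquad, EuclideanSpace.norm_sq_eq]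
    refine Finset.sum_congr rfl fun i _ => ?_
    show _ = ‖Real.sqrt (lam i) * b.repr v i‖ ^ 2
    rw [Real.norm_eq_abs, sq_abs, mul_pow, Real.sq_sqrt (hlam i).le]
  have hinj : Function.Injective S0 := by
    rw [injective_iff_map_eq_zero]
    intro v hv
    by_contra h0
    have h1 := hp v h0
    rw [hS0, hv] at h1
    simp at h1
  exact ⟨LinearEquiv.ofInjectiveEndo S0 hinj, fun v => hS0 v⟩

theorem nv_shift {k : ℕ} {A : Set (E k)} (hA : MeasurableSet A) (c : E k) :
    (nv A).map (fun x => x - c) = nv {x | x + c ∈ A} := by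
  have hm : Measurable fun x : E k => x - c := measurable_id.sub_const c
  have hA' : MeasurableSet {x | x + c ∈ A} := (measurable_id.add_const c) hA
  have hpre : (fun x : E k => x - c) ⁻¹' {x | x + c ∈ A} = A := by
    ext x
    simp
  have hmp : (volume : Measure (E k)).map (fun x => x - c) = volume :=
    (measurePreserving_sub_right volume c).map_eq
  have hvol : volume {x | x + c ∈ A} = volume A := by
    conv_lhs => rw [← hmp]
    rw [Measure.map_apply hm hA', hpre]
  unfold nv
  rw [Measure.map_smul, hvol]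
  congr 1
  conv_rhs => rw [← hmp]
  rw [Measure.restrict_map hm hA', hpre]

theorem ae_nv {k : ℕ} {A : Set (E k)} (hA : MeasurableSet A) : ∀ᵐ x ∂(nv A), x ∈ A :=
  Measure.ae_smul_measure (ae_restrict_mem hA) _

/-- If all central moments `p_m(v)` depend only on `p_2(v)` then the body is an affine ball. -/
theorem affine_ball {k : ℕ} (hk : 1 ≤ k) {h : E k → ℝ} (hh : IsGauge h)
    (hm : ∀ (m : ℕ) (v w : E k), mom 2 (body h) (fun _ => v) = mom 2 (body h) (fun _ => w) →
      mom m (body h) (fun _ => v) = mom m (body h) (fun _ => w)) :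
    ∃ (g : E k ≃ₗ[ℝ] E k) (z : E k), ∀ x, h x ≤ 1 ↔ ‖g x - z‖ ≤ 1 := by
  obtain ⟨S, hS⟩ := exists_sqrt (mom 2 (body h)) (by
    intro v w
    rw [mom_apply 2 hh, mom_apply 2 hh]
    congr 1
    funext x
    simp [Fin.prod_univ_two, mul_comm]) (mom_two_pos hh)
  let S' : E k →L[ℝ] E k := LinearMap.toContinuousLinearMap (S.symm : E k →ₗ[ℝ] E k)
  have hS' : ∀ v, S' v = S.symm v := fun v => rfl
  have hinj : Function.Injective (ContinuousLinearMap.adjoint S') := by
    rw [injective_iff_map_eq_zero]
    intro v hv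
    have h1 : inner ℝ v (S' (S v)) = 0 := by
      rw [← ContinuousLinearMap.adjoint_inner_left, hv, inner_zero_left]
    rw [hS', S.symm_apply_apply] at h1
    exact inner_self_eq_zero.1 h1
  let g : E k ≃L[ℝ] E k := (LinearEquiv.ofInjectiveEndo
    (ContinuousLinearMap.adjoint S' : E k →ₗ[ℝ] E k) hinj).toContinuousLinearEquiv
  have hg : (g : E k →L[ℝ] E k) = ContinuousLinearMap.adjoint S' := by
    ext v
    rfl
  have hgadj : ContinuousLinearMap.adjoint (g : E k →L[ℝ] E k) = S' := by
    rw [hg, ContinuousLinearMap.adjoint_adjoint]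
  let h' : E k → ℝ := fun x => h (g.symm x)
  have hh' : IsGauge h' :=
    { cont := hh.cont.comp g.symm.continuous
      hom := by
        intro t ht v
        show h (g.symm (t • v)) = t * h (g.symm v)
        rw [map_smul, hh.hom t ht]
      pos := by
        intro v hv
        exact hh.pos _ (by simpa using hv) }
  have hmom : ∀ (m : ℕ) (v : E k), mom m (body h') (fun _ => v) =
      mom m (body h) (fun _ => S' v) := by
    intro m v
    rw [mom_affine m hh hh' g 0 (by intro v; simp [h']), hgadj]
    rfl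
  set c := cen (body h') with hc
  have hbm : MeasurableSet (body h') := (isCompact_body hh').measurableSet
  have hprob := isProbabilityMeasure_nv hh'
  have hshift := nv_shift hbm c
  have hset : {x | x + c ∈ body h'} = {x | h' (x - (-c)) ≤ 1} := by
    ext x
    simp [body]
  have hfm : Measurable fun x : E k => x - c := measurable_id.sub_const c
  have hprob2 : IsProbabilityMeasure (nv {x | x + c ∈ body h'}) := by
    rw [← hshift]
    exact Measure.isProbabilityMeasure_map hfm.aemeasurable
  obtain ⟨C, hC⟩ := (isCompact_body hh').isBounded.exists_norm_le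
  have hbd : ∀ᵐ x ∂(nv {x | x + c ∈ body h'}), ‖x‖ ≤ C + ‖c‖ := by
    filter_upwards [ae_nv ((measurable_id.add_const c) hbm)] with x hx
    have h1 := hC _ hx
    calc ‖x‖ = ‖(x + c) - c‖ := by rw [add_sub_cancel_right]
      _ ≤ ‖x + c‖ + ‖c‖ := norm_sub_le _ _
      _ ≤ C + ‖c‖ := by
        have : ‖x + c‖ ≤ C := h1
        linarith
  have hmo : ∀ (m : ℕ) (v : E k), ∫ x, inner ℝ x v ^ m ∂(nv {x | x + c ∈ body h'}) =
      mom m (body h') (fun _ => v) := by
    intro m v
    rw [← hshift, integral_map hfm.aemeasurable, mom_apply m hh']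
    · simp [hc]
    · apply Continuous.aestronglyMeasurable
      fun_prop
  have hinv := map_eq_of_moments (nv {x | x + c ∈ body h'}) _ hbd (by
    intro m v w hvw
    rw [hmo, hmo, hmom, hmom]
    apply hm
    rw [hS, hS, hS', hS', S.apply_symm_apply, S.apply_symm_apply, hvw])
  rw [hset] at hinv
  obtain ⟨r, hr, hball⟩ := ball_of_invariant hk hh' (-c) hinv
  refine ⟨g.toLinearEquiv.trans (LinearEquiv.smulOfNeZero ℝ (E k) r⁻¹ (inv_ne_zero hr.ne')),
    r⁻¹ • c, fun x => ?_⟩
  have h1 : h x = h' (g x - c - (-c)) := by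
    simp [h']
  rw [h1, hball]
  show ‖g x - c‖ ≤ r ↔ ‖r⁻¹ • g x - r⁻¹ • c‖ ≤ 1
  rw [← smul_sub, norm_smul, norm_inv, Real.norm_of_nonneg hr.le, inv_mul_le_iff₀ hr, mul_one]

end Pool.Agent.SB
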