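import Mathlib
import Pool.Agent.SB.Defs

set_option autoImplicit false

open Set Metric
open scoped ContDiff

namespace Pool.Agent.SB

theorem act_one {k : ℕ} (m : ℕ) : act (k := k) m 1 = ContinuousLinearMap.id ℝ (TT k m) := by
  refine ContinuousLinearMap.ext fun T => ?_
  rw [act_apply]
  rfl

theorem act_mul {k : ℕ} (m : ℕ) (P P' : E k →L[ℝ] E k) :
    act m (P * P') = (act m P').comp (act m P) := by
  refine ContinuousLinearMap.ext fun T => ?_
  rw [act_apply]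
  rfl

theorem act_contDiff {k : ℕ} (m : ℕ) : ContDiff ℝ 1 (act (k := k) m) := by
  have h : ∀ j : ℕ, ContDiff ℝ 1 (fun P : E k →L[ℝ] E k =>
      (ContinuousMultilinearMap.compContinuousLinearMapL (fun _ : Fin j => P) :
        CM k j →L[ℝ] CM k j)) := by
    intro j
    have h1 : ContDiff ℝ 1 (fun f : Fin j → (E k →L[ℝ] E k) =>
        (ContinuousMultilinearMap.compContinuousLinearMapL f : CM k j →L[ℝ] CM k j)) :=
      ContinuousMultilinearMap.contDiff (𝕜 := ℝ) (E := fun _ : Fin j => E k →L[ℝ] E k)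
        (F := CM k j →L[ℝ] CM k j)
        (ContinuousMultilinearMap.compContinuousLinearMapContinuousMultilinear ℝ
          (fun _ : Fin j => E k) (fun _ : Fin j => E k) ℝ)
    have h2 : ContDiff ℝ 1 (fun P : E k →L[ℝ] E k => (fun _ : Fin j => P)) :=
      contDiff_pi.2 fun _ => contDiff_id
    exact h1.comp h2
  have h3 : ContDiff ℝ 1 (fun p : (CM k 2 →L[ℝ] CM k 2) × (CM k m →L[ℝ] CM k m) =>
      p.1.prodMap p.2) :=
    ContinuousLinearMap.contDiff (𝕜 := ℝ) (E := (CM k 2 →L[ℝ] CM k 2) × (CM k m →L[ℝ] CM k m))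
      (F := TT k m →L[ℝ] TT k m)
      (ContinuousLinearMap.prodMapL ℝ (CM k 2) (CM k 2) (CM k m) (CM k m))
  exact h3.comp ((h 2).prodMk (h m))

theorem cm_two_bound {k : ℕ} (T : CM k 2) (v : E k) : |T (fun _ => v)| ≤ ‖T‖ * ‖v‖ ^ 2 := by
  have h := T.le_opNorm (fun _ => v)
  simpa using h

/-- If `q ∘ a = x` and `q` is positive definite then `a` is bounded. -/
theorem act_bound {k : ℕ} (m : ℕ) {c : ℝ} (hc : 0 < c) (x q : TT k m)
    (hq : ∀ v, c * ‖v‖ ^ 2 ≤ q.1 (fun _ => v)) (a : E k →L[ℝ] E k) (ha : act m a q = x) :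
    ‖a‖ ≤ Real.sqrt (‖x.1‖ / c) := by
  refine ContinuousLinearMap.opNorm_le_bound _ (Real.sqrt_nonneg _) (fun v => ?_)
  have h1 : x.1 (fun _ => v) = q.1 (fun _ => a v) := by
    rw [← ha, act_apply]
    rfl
  have h2 := hq (a v)
  rw [← h1] at h2
  have h3 := (le_abs_self _).trans (cm_two_bound x.1 v)
  have h4 : ‖a v‖ ^ 2 ≤ (‖x.1‖ / c) * ‖v‖ ^ 2 := by
    rw [div_mul_eq_mul_div, le_div_iff₀ hc]
    linarith [mul_comm c (‖a v‖ ^ 2)]
  have h5 : ‖a v‖ ≤ Real.sqrt ((‖x.1‖ / c) * ‖v‖ ^ 2) := Real.le_sqrt_of_sq_le h4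
  rwa [Real.sqrt_mul' _ (sq_nonneg _), Real.sqrt_sq (norm_nonneg _)] at h5

/-- The orbit map is proper at a positive definite form. -/
theorem act_proper {k : ℕ} (m : ℕ) {c : ℝ} (hc : 0 < c) (x : TT k m)
    (hx : ∀ v, c * ‖v‖ ^ 2 ≤ x.1 (fun _ => v)) :
    ∃ r > 0, ∃ M : ℝ, ∀ a : (E k →L[ℝ] E k)ˣ, ‖act m (a : E k →L[ℝ] E k) x - x‖ ≤ r →
      ‖(a : E k →L[ℝ] E k)‖ ≤ M ∧ ‖((a⁻¹ : (E k →L[ℝ] E k)ˣ) : E k →L[ℝ] E k)‖ ≤ M := by
  refine ⟨c / 2, by positivity, max (Real.sqrt ((‖x.1‖ + c / 2) / c))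
    (Real.sqrt (‖x.1‖ / (c / 2))), fun a ha => ?_⟩
  set q : TT k m := act m (a : E k →L[ℝ] E k) x with hq
  have h1 : ‖q.1 - x.1‖ ≤ c / 2 := (norm_fst_le (q - x)).trans ha
  have h2 : ∀ v, |q.1 (fun _ => v) - x.1 (fun _ => v)| ≤ c / 2 * ‖v‖ ^ 2 := by
    intro v
    have := cm_two_bound (q.1 - x.1) v
    rw [sub_apply] at this
    exact this.trans (mul_le_mul_of_nonneg_right h1 (sq_nonneg _))
  constructor
  · refine le_trans ?_ (le_max_left _ _)
    refine (act_bound m hc q x hx _ rfl).trans ?_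
    refine Real.sqrt_le_sqrt ?_
    refine div_le_div_of_nonneg_right ?_ hc.le
    have h3 : q.1 = x.1 + (q.1 - x.1) := by abel
    rw [h3]
    exact (norm_add_le _ _).trans (by linarith)
  · refine le_trans ?_ (le_max_right _ _)
    refine act_bound m (by positivity) x q (fun v => ?_) _ ?_
    · have h3 := abs_le.1 (h2 v)
      have h4 := hx v
      linarith [h3.1]
    · rw [hq]
      have h := act_mul m (a : E k →L[ℝ] E k) ((a⁻¹ : (E k →L[ℝ] E k)ˣ) : E k →L[ℝ] E k)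
      rw [Units.mul_inv, act_one] at h
      exact (DFunLike.congr_fun h x).symm

end Pool.Agent.SB
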