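import Mathlib
import Pool.Agent.SB.Defs
import Pool.Agent.SB.Vol
import Pool.Agent.SB.Mom

set_option autoImplicit false

open MeasureTheory Set Metric Filter Topology
open scoped ENNReal
open Pool.Agent.H87Star (IsGauge)

namespace Pool.Agent.SB

/-- Sequential continuity of integrals over the sections. -/
theorem integral_sec_tendsto {k n : ℕ} (hk : 1 ≤ k) {f : E n → ℝ} (hf : IsGauge f)
    {G : Type*} [NormedAddCommGroup G] [NormedSpace ℝ G] [CompleteSpace G]
    (F : ℕ → E k →L[ℝ] E n) (F₀ : E k →L[ℝ] E n) (hF : ∀ j, Iso (F j)) (hF₀ : Iso F₀)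
    (hlim : Tendsto F atTop (𝓝 F₀)) (ψ : ℕ → E k → G) (ψ₀ : E k → G)
    (hψ : ∀ j, Continuous (ψ j)) (hψ₀ : Continuous ψ₀)
    (hb : ∀ C : ℝ, ∃ B : ℝ, ∀ j x, ‖x‖ ≤ C → ‖ψ j x‖ ≤ B)
    (hψlim : ∀ x, Tendsto (fun j => ψ j x) atTop (𝓝 (ψ₀ x))) :
    Tendsto (fun j => ∫ x in sec f (F j), ψ j x) atTop (𝓝 (∫ x in sec f F₀, ψ₀ x)) := by
  obtain ⟨c, C, hc, hC, hcC⟩ := hf.bounds
  obtain ⟨B, hB⟩ := hb (1 / c)
  have hms : ∀ P : E k →L[ℝ] E n, MeasurableSet (sec f P) := fun P =>
    (isClosed_le (hf.cont.comp P.continuous) continuous_const).measurableSet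
  have hsub : ∀ j x, x ∈ sec f (F j) → ‖x‖ ≤ 1 / c := by
    intro j x hx
    have h1 : f (F j x) ≤ 1 := hx
    have h2 := (hcC (F j x)).1
    rw [hF j x] at h2
    rw [le_div_iff₀ hc]
    linarith
  simp_rw [← integral_indicator (hms _)]
  refine tendsto_integral_of_dominated_convergence
    ((closedBall (0 : E k) (1 / c)).indicator fun _ => B) ?_ ?_ ?_ ?_
  · intro j
    exact (hψ j).aestronglyMeasurable.indicator (hms _)
  · rw [integrable_indicator_iff measurableSet_closedBall]
    exact integrableOn_const (measure_closedBall_lt_top).ne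
  · intro j
    refine Eventually.of_forall fun x => ?_
    by_cases hx : x ∈ sec f (F j)
    · have h1 := hsub j x hx
      rw [indicator_of_mem hx, indicator_of_mem (by simpa using h1)]
      exact hB j x h1
    · rw [indicator_of_notMem hx, norm_zero]
      refine indicator_nonneg ?_ x
      intro y hy
      exact (norm_nonneg _).trans (hB 0 y (by simpa using hy))
  · have hnull := volume_level hk (gauge_comp hf hF₀)
    rw [← compl_mem_ae_iff] at hnull
    filter_upwards [hnull] with x hx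
    have hx' : f (F₀ x) ≠ 1 := hx
    have h1 : Tendsto (fun j => f (F j x)) atTop (𝓝 (f (F₀ x))) :=
      (hf.cont.tendsto _).comp
        (((ContinuousLinearMap.apply ℝ (E n) x).continuous.tendsto F₀).comp hlim)
    rcases lt_or_gt_of_ne hx' with h | h
    · have h2 : ∀ᶠ j in atTop, f (F j x) < 1 := h1.eventually_lt_const h
      rw [indicator_of_mem (show x ∈ sec f F₀ from h.le)]
      refine (hψlim x).congr' ?_
      filter_upwards [h2] with j hj
      rw [indicator_of_mem (show x ∈ sec f (F j) from hj.le)]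
    · have h2 : ∀ᶠ j in atTop, 1 < f (F j x) := h1.eventually_const_lt h
      rw [indicator_of_notMem (show x ∉ sec f F₀ from not_le.2 h)]
      refine tendsto_const_nhds.congr' ?_
      filter_upwards [h2] with j hj
      rw [indicator_of_notMem (show x ∉ sec f (F j) from not_le.2 hj)]

theorem integral_nv {k : ℕ} {G : Type*} [NormedAddCommGroup G] [NormedSpace ℝ G]
    (A : Set (E k)) (F : E k → G) :
    ∫ x, F x ∂(nv A) = (volume A).toReal⁻¹ • ∫ x in A, F x := by
  unfold nv
  rw [integral_smul_measure, ENNReal.toReal_inv]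

/-- sequential continuity of the moment tensors -/
theorem mom_tendsto {k n : ℕ} (hk : 1 ≤ k) (m : ℕ) {f : E n → ℝ} (hf : IsGauge f)
    (F : ℕ → E k →L[ℝ] E n) (F₀ : E k →L[ℝ] E n) (hF : ∀ j, Iso (F j)) (hF₀ : Iso F₀)
    (hlim : Tendsto F atTop (𝓝 F₀)) :
    Tendsto (fun j => mom m (sec f (F j))) atTop (𝓝 (mom m (sec f F₀))) := by
  have hV : Tendsto (fun j => (volume (sec f (F j))).toReal) atTop
      (𝓝 (volume (sec f F₀)).toReal) := by
    have h1 := integral_sec_tendsto hk hf F F₀ hF hF₀ hlim (fun _ _ => (1 : ℝ)) (fun _ => (1 : ℝ))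
      (fun _ => continuous_const) continuous_const (fun _ => ⟨1, fun j x _ => by simp⟩)
      (fun _ => tendsto_const_nhds)
    simpa [Measure.real] using h1
  have hVpos : (volume (sec f F₀)).toReal ≠ 0 := by
    have h1 := volume_body_pos (gauge_comp hf hF₀)
    have h2 := volume_body_lt_top (gauge_comp hf hF₀)
    exact (ENNReal.toReal_pos h1.ne' h2.ne).ne'
  have hVi := hV.inv₀ hVpos
  have hcen : Tendsto (fun j => cen (sec f (F j))) atTop (𝓝 (cen (sec f F₀))) := by
    unfold cen
    simp_rw [integral_nv]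
    refine hVi.smul ?_
    exact integral_sec_tendsto hk hf F F₀ hF hF₀ hlim (fun _ x => x) (fun x => x)
      (fun _ => continuous_id) continuous_id (fun C => ⟨C, fun j x hx => hx⟩)
      (fun _ => tendsto_const_nhds)
  unfold mom
  simp_rw [integral_nv]
  refine hVi.smul ?_
  refine integral_sec_tendsto hk hf F F₀ hF hF₀ hlim (fun j x => tens m (x - cen (sec f (F j))))
    (fun x => tens m (x - cen (sec f F₀)))
    (fun j => (continuous_tens m).comp (continuous_id.sub continuous_const))
    ((continuous_tens m).comp (continuous_id.sub continuous_const)) ?_ ?_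
  · intro C
    obtain ⟨R, hR⟩ := (isBounded_range_of_tendsto _ hcen).exists_norm_le
    obtain ⟨B, hB⟩ := (isCompact_closedBall (0 : E k) (C + R)).exists_bound_of_continuousOn
      (continuous_tens (k := k) m).continuousOn
    refine ⟨B, fun j x hx => hB _ ?_⟩
    rw [mem_closedBall_zero_iff]
    refine (norm_sub_le _ _).trans (add_le_add hx (hR _ ⟨j, rfl⟩))
  · intro x
    exact ((continuous_tens m).tendsto _).comp (tendsto_const_nhds.sub hcen)

/-- The moment tensors depend continuously on the frame. -/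
theorem mom_continuousOn {k n : ℕ} (hk : 1 ≤ k) (m : ℕ) {f : E n → ℝ} (hf : IsGauge f) :
    ContinuousOn (fun F : E k →L[ℝ] E n => mom m (sec f F)) {F | Iso F} := by
  classical
  intro F₀ hF₀
  have hF₀' : Iso F₀ := hF₀
  refine tendsto_of_seq_tendsto fun u hu => ?_
  have h1 : ∀ᶠ j in atTop, Iso (u j) := by
    have := hu.eventually (self_mem_nhdsWithin)
    exact this
  have h2 : Tendsto u atTop (𝓝 F₀) := tendsto_nhds_of_tendsto_nhdsWithin hu
  set v : ℕ → E k →L[ℝ] E n := fun j => if Iso (u j) then u j else F₀ with hv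
  have hvI : ∀ j, Iso (v j) := by
    intro j
    simp only [hv]
    split_ifs with h
    · exact h
    · exact hF₀'
  have huv : u =ᶠ[atTop] v := by
    filter_upwards [h1] with j hj
    simp only [hv, if_pos hj]
  have h3 := mom_tendsto hk m hf v F₀ hvI hF₀' (h2.congr' huv)
  refine h3.congr' ?_
  filter_upwards [huv] with j hj
  simp only [Function.comp_apply, hj]

theorem isCompact_iso {k n : ℕ} : IsCompact {F : E k →L[ℝ] E n | Iso F} := by
  refine Metric.isCompact_of_isClosed_isBounded ?_ ?_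
  · have : {F : E k →L[ℝ] E n | Iso F} = ⋂ v : E k, {F | ‖F v‖ = ‖v‖} := by
      ext F; simp [Iso]
    rw [this]
    refine isClosed_iInter fun v => isClosed_eq ?_ continuous_const
    exact (ContinuousLinearMap.apply ℝ (E n) v).continuous.norm
  · refine (isBounded_iff_forall_norm_le).2 ⟨1, fun F hF => ?_⟩
    refine ContinuousLinearMap.opNorm_le_bound _ zero_le_one fun v => ?_
    rw [one_mul]
    exact (show Iso F from hF) v |>.le

/-- The second moment is uniformly positive definite over all isometric frames. -/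
theorem mom_two_lower_unif {k n : ℕ} (hk : 1 ≤ k) {f : E n → ℝ} (hf : IsGauge f) :
    ∃ c > 0, ∀ F : E k →L[ℝ] E n, Iso F → ∀ v, c * ‖v‖ ^ 2 ≤ mom 2 (sec f F) (fun _ => v) := by
  by_cases hne : {F : E k →L[ℝ] E n | Iso F}.Nonempty
  swap
  · exact ⟨1, one_pos, fun F hF => absurd ⟨F, hF⟩ hne⟩
  have : Nonempty (Fin k) := ⟨⟨0, hk⟩⟩
  have : Nontrivial (E k) := by
    infer_instance
  have hsp : (sphere (0 : E k) 1).Nonempty := (NormedSpace.sphere_nonempty).2 zero_le_one
  have hK : IsCompact ({F : E k →L[ℝ] E n | Iso F} ×ˢ sphere (0 : E k) 1) :=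
    isCompact_iso.prod (isCompact_sphere _ _)
  have hcont : ContinuousOn (fun q : (E k →L[ℝ] E n) × E k => mom 2 (sec f q.1) (fun _ => q.2))
      ({F : E k →L[ℝ] E n | Iso F} ×ˢ sphere (0 : E k) 1) := by
    have h1 : ContinuousOn (fun q : (E k →L[ℝ] E n) × E k => mom 2 (sec f q.1))
        ({F : E k →L[ℝ] E n | Iso F} ×ˢ sphere (0 : E k) 1) :=
      (mom_continuousOn hk 2 hf).comp continuousOn_fst (fun q hq => hq.1)
    have h2 : Continuous (fun q : (CM k 2) × E k => q.1 (fun _ => q.2)) := by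
      exact continuous_fst.eval (continuous_pi fun _ => continuous_snd)
    exact h2.comp_continuousOn (h1.prodMk continuousOn_snd)
  obtain ⟨q, hq, hmin⟩ := hK.exists_isMinOn (hne.prod hsp) hcont
  have hu1 : ‖q.2‖ = 1 := by simpa using hq.2
  have hu0 : q.2 ≠ 0 := by
    intro h
    rw [h] at hu1
    simp at hu1
  refine ⟨mom 2 (sec f q.1) (fun _ => q.2), mom_two_pos (gauge_comp hf hq.1) q.2 hu0, ?_⟩
  intro F hF v
  by_cases hv : v = 0
  · subst hv
    have h0 : mom 2 (sec f F) (fun _ => (0 : E k)) = 0 :=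
      (mom 2 (sec f F)).map_coord_zero (0 : Fin 2) rfl
    rw [h0]
    simp
  · have hn : 0 < ‖v‖ := norm_pos_iff.2 hv
    have h1 : (‖v‖⁻¹ • v) ∈ sphere (0 : E k) 1 := by
      rw [mem_sphere_zero_iff_norm, norm_smul, norm_inv, norm_norm, inv_mul_cancel₀ hn.ne']
    have h2 := hmin (show (F, ‖v‖⁻¹ • v) ∈ {F : E k →L[ℝ] E n | Iso F} ×ˢ sphere (0 : E k) 1 from
      ⟨hF, h1⟩)
    simp only [Set.mem_ofPred_eq] at h2
    have h3 : mom 2 (sec f F) (fun _ => v)
        = ‖v‖ ^ 2 * mom 2 (sec f F) (fun _ => ‖v‖⁻¹ • v) := by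
      have h4 := (mom 2 (sec f F)).map_smul_univ (fun _ => ‖v‖) (fun _ => ‖v‖⁻¹ • v)
      simp only [smul_smul, mul_inv_cancel₀ hn.ne', one_smul, Finset.prod_const,
        Finset.card_univ, Fintype.card_fin, smul_eq_mul] at h4
      exact h4
    rw [h3, mul_comm]
    exact mul_le_mul_of_nonneg_left h2 (by positivity)

end Pool.Agent.SB
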