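import Mathlib

set_option autoImplicit false

open Set Metric

namespace Pool.Agent.SB

/-- Uniform continuity in the first variable. -/
theorem lift_unif {V Θ : Type*} [NormedAddCommGroup V] [TopologicalSpace Θ] [CompactSpace Θ]
    (q : ℝ → Θ → V) (hq : ContinuousOn (fun z : ℝ × Θ => q z.1 z.2) (Icc (0 : ℝ) 1 ×ˢ univ))
    {η : ℝ} (hη : 0 < η) :
    ∃ δ > 0, ∀ t ∈ Icc (0 : ℝ) 1, ∀ t' ∈ Icc (0 : ℝ) 1, |t - t'| < δ → ∀ θ,
      ‖q t θ - q t' θ‖ < η := by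
  have hc : Continuous (fun z : Icc (0 : ℝ) 1 × Θ => q z.1 z.2) := by
    have h1 : Continuous (fun z : Icc (0 : ℝ) 1 × Θ => ((z.1 : ℝ), z.2)) :=
      (continuous_subtype_val.comp continuous_fst).prodMk continuous_snd
    exact hq.comp_continuous h1 (fun z => ⟨z.1.2, mem_univ _⟩)
  let qm : C(Icc (0 : ℝ) 1 × Θ, V) := ⟨fun z => q z.1 z.2, hc⟩
  have hu : UniformContinuous qm.curry :=
    CompactSpace.uniformContinuous_of_continuous qm.curry.continuous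
  obtain ⟨δ, hδ, h⟩ := Metric.uniformContinuous_iff.1 hu η hη
  refine ⟨δ, hδ, fun t ht t' ht' htt θ => ?_⟩
  have h1 := @h ⟨t, ht⟩ ⟨t', ht'⟩ (by rw [Subtype.dist_eq, Real.dist_eq]; exact htt)
  have h2 := ContinuousMap.dist_apply_le_dist (f := qm.curry ⟨t, ht⟩) (g := qm.curry ⟨t', ht'⟩) θ
  have h3 := h2.trans_lt h1
  rw [dist_eq_norm] at h3
  exact h3

/-- Lifting a homotopy in an orbit to the group. -/
theorem lift {𝔸 V Θ : Type*} [NormedRing 𝔸] [NormedAlgebra ℝ 𝔸] [FiniteDimensional ℝ 𝔸]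
    [NormedAddCommGroup V] [NormedSpace ℝ V] [TopologicalSpace Θ] [CompactSpace Θ]
    (R : 𝔸 → V →L[ℝ] V) (hR : Continuous R) (h1 : R 1 = ContinuousLinearMap.id ℝ V)
    (hmul : ∀ a b, R (a * b) = (R b).comp (R a)) (x : V) {ε : ℝ} (hε : 0 < ε) (S : V → 𝔸)
    (hS : ContinuousOn S (ball x ε)) (hSx : S x = 1)
    (hSR : ∀ a : 𝔸ˣ, R (a : 𝔸) x ∈ ball x ε →
        IsUnit (S (R (a : 𝔸) x)) ∧ R (S (R (a : 𝔸) x)) (R (a : 𝔸) x) = x)
    (q : ℝ → Θ → V) (hq : ContinuousOn (fun z : ℝ × Θ => q z.1 z.2) (Icc (0 : ℝ) 1 ×ˢ univ))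
    {M : ℝ} (horb : ∀ t ∈ Icc (0 : ℝ) 1, ∀ θ, ∃ a : 𝔸ˣ, R (a : 𝔸) (q t θ) = x)
    (hM : ∀ t ∈ Icc (0 : ℝ) 1, ∀ θ, ∀ a : 𝔸ˣ, R (a : 𝔸) (q t θ) = x → ‖(a : 𝔸)‖ ≤ M)
    (P₀ : 𝔸ˣ) (hP₀ : ∀ θ, R (P₀ : 𝔸) (q 0 θ) = x) :
    ∃ P : ℝ → Θ → 𝔸, ContinuousOn (fun z : ℝ × Θ => P z.1 z.2) (Icc (0 : ℝ) 1 ×ˢ univ) ∧
      (∀ θ, P 0 θ = P₀) ∧
      (∀ t ∈ Icc (0 : ℝ) 1, ∀ θ, IsUnit (P t θ) ∧ R (P t θ) (q t θ) = x) ∧
      (∀ θ θ', (∀ t ∈ Icc (0 : ℝ) 1, q t θ = q t θ') → ∀ t ∈ Icc (0 : ℝ) 1, P t θ = P t θ') := by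
  -- bound for the operators
  have : ProperSpace 𝔸 := FiniteDimensional.proper ℝ 𝔸
  obtain ⟨C, hC⟩ := (isCompact_closedBall (0 : 𝔸) M).exists_bound_of_continuousOn
    (f := R) hR.continuousOn
  set C' : ℝ := max C 0 with hC'
  have hC'0 : 0 ≤ C' := le_max_right _ _
  have hRb : ∀ a : 𝔸, ‖a‖ ≤ M → ‖R a‖ ≤ C' := fun a ha =>
    (hC a (by simpa using ha)).trans (le_max_left _ _)
  set η : ℝ := ε / (C' + 1) with hη
  have hη0 : 0 < η := by positivity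
  obtain ⟨δ, hδ, hun⟩ := lift_unif q hq hη0
  obtain ⟨N, hN⟩ := exists_nat_gt (1 / δ)
  have hN0 : (0 : ℝ) < N := lt_trans (by positivity) hN
  have hNδ : 1 / (N : ℝ) < δ := by
    rw [div_lt_iff₀ hN0]
    rw [div_lt_iff₀ hδ] at hN
    linarith
  -- inverse elements
  have hRinv : ∀ (a : 𝔸ˣ) (v : V), R ((a⁻¹ : 𝔸ˣ) : 𝔸) (R (a : 𝔸) v) = v := by
    intro a v
    have h := hmul (a : 𝔸) ((a⁻¹ : 𝔸ˣ) : 𝔸)
    rw [Units.mul_inv, h1] at h
    exact (DFunLike.congr_fun h v).symm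
  have key : ∀ j : ℕ, ∃ P : ℝ → Θ → 𝔸,
      ContinuousOn (fun z : ℝ × Θ => P z.1 z.2) (Icc (0 : ℝ) 1 ×ˢ univ) ∧
      (∀ θ, P 0 θ = P₀) ∧
      (∀ t ∈ Icc (0 : ℝ) 1, ∀ θ, IsUnit (P t θ) ∧ R (P t θ) (q (min t (j / N)) θ) = x) ∧
      (∀ θ θ', (∀ t ∈ Icc (0 : ℝ) 1, q t θ = q t θ') → ∀ t ∈ Icc (0 : ℝ) 1, P t θ = P t θ') := by
    intro j
    induction j with
    | zero =>
      refine ⟨fun _ _ => P₀, continuousOn_const, fun _ => rfl, fun t ht θ => ⟨P₀.isUnit, ?_⟩,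
        fun _ _ _ _ _ => rfl⟩
      have : min t (((0 : ℕ) : ℝ) / N) = 0 := by
        rw [Nat.cast_zero, zero_div]
        exact min_eq_right ht.1
      rw [this]
      exact hP₀ θ
    | succ j ih =>
      obtain ⟨P, hPc, hP0, hPq, hPs⟩ := ih
      have hmin : ∀ (i : ℕ), ∀ t ∈ Icc (0 : ℝ) 1, min t ((i : ℝ) / N) ∈ Icc (0 : ℝ) 1 := by
        intro i t ht
        exact ⟨le_min ht.1 (by positivity), (min_le_left _ _).trans ht.2⟩
      set y : ℝ → Θ → V := fun t θ => R (P t θ) (q (min t (((j + 1 : ℕ) : ℝ) / N)) θ) with hy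
      have hyball : ∀ t ∈ Icc (0 : ℝ) 1, ∀ θ, y t θ ∈ ball x ε := by
        intro t ht θ
        obtain ⟨⟨p, hp⟩, hPq'⟩ := hPq t ht θ
        have hPM : ‖P t θ‖ ≤ M := by
          rw [← hp]
          refine hM _ (hmin j t ht) θ p ?_
          rw [hp]
          exact hPq'
        rw [mem_ball, dist_eq_norm]
        have e1 : y t θ - x = R (P t θ) (q (min t (((j + 1 : ℕ) : ℝ) / N)) θ -
            q (min t ((j : ℝ) / N)) θ) := by
          rw [map_sub, hPq']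
        rw [e1]
        have h3 : |min t (((j + 1 : ℕ) : ℝ) / N) - min t ((j : ℝ) / N)| < δ := by
          refine lt_of_le_of_lt ?_ hNδ
          have h4 := abs_min_sub_min_le_max t (((j + 1 : ℕ) : ℝ) / N) t ((j : ℝ) / N)
          refine h4.trans ?_
          rw [sub_self, abs_zero]
          refine max_le (by positivity) ?_
          rw [← sub_div]
          push_cast
          rw [add_sub_cancel_left, abs_of_pos (by positivity)]
        have h4 := hun _ (hmin (j + 1) t ht) _ (hmin j t ht) h3 θ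
        calc ‖R (P t θ) (q (min t (((j + 1 : ℕ) : ℝ) / N)) θ - q (min t ((j : ℝ) / N)) θ)‖
            ≤ ‖R (P t θ)‖ * ‖q (min t (((j + 1 : ℕ) : ℝ) / N)) θ - q (min t ((j : ℝ) / N)) θ‖ :=
              ContinuousLinearMap.le_opNorm _ _
          _ ≤ C' * η := mul_le_mul (hRb _ hPM) h4.le (norm_nonneg _) hC'0
          _ < ε := by
              rw [hη]
              rw [← mul_div_assoc, div_lt_iff₀ (by positivity)]
              nlinarith
      have hyorb : ∀ t ∈ Icc (0 : ℝ) 1, ∀ θ, ∃ a : 𝔸ˣ, R (a : 𝔸) x = y t θ := by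
        intro t ht θ
        obtain ⟨⟨p, hp⟩, -⟩ := hPq t ht θ
        obtain ⟨b, hb⟩ := horb _ (hmin (j + 1) t ht) θ
        refine ⟨b⁻¹ * p, ?_⟩
        rw [Units.val_mul, hmul]
        show R (p : 𝔸) (R ((b⁻¹ : 𝔸ˣ) : 𝔸) x) = y t θ
        have h5 : R ((b⁻¹ : 𝔸ˣ) : 𝔸) x = q (min t (((j + 1 : ℕ) : ℝ) / N)) θ := by
          rw [← hb]
          exact hRinv b _
        rw [h5, hp]
      have hySy : ∀ t ∈ Icc (0 : ℝ) 1, ∀ θ, IsUnit (S (y t θ)) ∧ R (S (y t θ)) (y t θ) = x := by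
        intro t ht θ
        obtain ⟨a, ha⟩ := hyorb t ht θ
        have := hSR a (by rw [ha]; exact hyball t ht θ)
        rwa [ha] at this
      have hyc : ContinuousOn (fun z : ℝ × Θ => y z.1 z.2) (Icc (0 : ℝ) 1 ×ˢ univ) := by
        have h5 : ContinuousOn (fun z : ℝ × Θ => R (P z.1 z.2)) (Icc (0 : ℝ) 1 ×ˢ univ) :=
          hR.comp_continuousOn hPc
        have h6 : ContinuousOn (fun z : ℝ × Θ => q (min z.1 (((j + 1 : ℕ) : ℝ) / N)) z.2)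
            (Icc (0 : ℝ) 1 ×ˢ univ) := by
          have h7 : Continuous (fun z : ℝ × Θ =>
              ((min z.1 (((j + 1 : ℕ) : ℝ) / N), z.2) : ℝ × Θ)) := by fun_prop
          exact hq.comp h7.continuousOn (fun z hz => ⟨hmin (j + 1) _ hz.1, mem_univ _⟩)
        exact h5.clm_apply h6
      refine ⟨fun t θ => P t θ * S (y t θ), ?_, ?_, ?_, ?_⟩
      · exact hPc.mul (hS.comp hyc (fun z hz => hyball _ hz.1 _))
      · intro θ
        have h5 : y 0 θ = x := by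
          have h6 : min (0 : ℝ) (((j + 1 : ℕ) : ℝ) / N) = 0 := min_eq_left (by positivity)
          simp only [hy, h6, hP0]
          exact hP₀ θ
        simp only
        rw [h5, hSx, mul_one, hP0]
      · intro t ht θ
        obtain ⟨hu, -⟩ := hPq t ht θ
        obtain ⟨hSu, hSy⟩ := hySy t ht θ
        refine ⟨hu.mul hSu, ?_⟩
        rw [hmul]
        exact hSy
      · intro θ θ' hθ t ht
        have h5 := hPs θ θ' hθ t ht
        have h6 : y t θ = y t θ' := by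
          simp only [hy]
          rw [h5, hθ _ (hmin (j + 1) t ht)]
        simp only
        rw [h5, h6]
  obtain ⟨P, hPc, hP0, hPq, hPs⟩ := key N
  refine ⟨P, hPc, hP0, fun t ht θ => ?_, hPs⟩
  have := hPq t ht θ
  rwa [div_self hN0.ne', min_eq_left ht.2] at this

end Pool.Agent.SB
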