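import Mathlib

set_option autoImplicit false

open Set Metric

namespace Pool.Agent.SB

section LocSec

open Filter Topology

variable {𝔸 V : Type*} [NormedRing 𝔸] [NormedAlgebra ℝ 𝔸] [FiniteDimensional ℝ 𝔸]
    [CompleteSpace 𝔸] [NormedAddCommGroup V] [NormedSpace ℝ V] [FiniteDimensional ℝ V]

omit [FiniteDimensional ℝ 𝔸] [FiniteDimensional ℝ V] in
/-- The exponentials of the isotropy algebra fix the point. -/
theorem ls_fix (R : 𝔸 → V →L[ℝ] V) (hR : ContDiff ℝ 1 R) (h1 : R 1 = ContinuousLinearMap.id ℝ V)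
    (hmul : ∀ a b, R (a * b) = (R b).comp (R a)) (x : V) (Z : 𝔸)
    (hZ : fderiv ℝ R 1 Z x = 0) : R (NormedSpace.exp Z) x = x := by
  have h0 : HasDerivAt (fun s : ℝ => R (NormedSpace.exp (s • Z)) x) 0 0 := by
    have e1 : HasDerivAt (fun s : ℝ => NormedSpace.exp (s • Z)) Z 0 := by
      simpa using hasDerivAt_exp_smul_const (𝕂 := ℝ) Z (0 : ℝ)
    have e2 : HasFDerivAt R (fderiv ℝ R 1) (NormedSpace.exp ((0 : ℝ) • Z)) := by
      have : NormedSpace.exp ((0 : ℝ) • Z) = 1 := by simp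
      rw [this]
      exact ((hR.differentiable (by simp)) 1).hasFDerivAt
    have e3 : HasDerivAt (fun s : ℝ => R (NormedSpace.exp (s • Z))) (fderiv ℝ R 1 Z) 0 :=
      e2.comp_hasDerivAt 0 e1
    have e4 := e3.clm_apply (hasDerivAt_const 0 x)
    simpa [hZ] using e4
  have hd : ∀ t : ℝ, HasDerivAt (fun t : ℝ => R (NormedSpace.exp (t • Z)) x) 0 t := by
    intro t
    have h2 : HasDerivAt (fun s : ℝ => R (NormedSpace.exp (t • Z))
        (R (NormedSpace.exp ((s - t) • Z)) x)) 0 t := by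
      have a1 : HasDerivAt (fun s : ℝ => R (NormedSpace.exp ((s - t) • Z)) x) 0 t := by
        have h0' : HasDerivAt (fun s : ℝ => R (NormedSpace.exp (s • Z)) x) 0 (t - t) := by
          simpa using h0
        exact h0'.comp_sub_const t t
      have a2 := (R (NormedSpace.exp (t • Z))).hasFDerivAt.comp_hasDerivAt t a1
      rw [map_zero] at a2
      exact a2
    have h3 : (fun s : ℝ => R (NormedSpace.exp (s • Z)) x) = fun s : ℝ =>
        R (NormedSpace.exp (t • Z)) (R (NormedSpace.exp ((s - t) • Z)) x) := by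
      funext s
      have : NormedSpace.exp (s • Z) =
          NormedSpace.exp ((s - t) • Z) * NormedSpace.exp (t • Z) := by
        rw [← NormedSpace.exp_add_of_commute_of_mem_ball (𝕂 := ℝ)]
        · rw [← add_smul]; congr 2; ring
        · exact ((Commute.refl Z).smul_left _).smul_right _
        · exact (NormedSpace.expSeries_radius_eq_top ℝ 𝔸).symm ▸ edist_lt_top _ _
        · exact (NormedSpace.expSeries_radius_eq_top ℝ 𝔸).symm ▸ edist_lt_top _ _
      rw [this, hmul]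
      rfl
    rw [h3]; exact h2
  have := is_const_of_deriv_eq_zero (fun t => (hd t).differentiableAt)
    (fun t => (hd t).deriv) 1 0
  simpa [h1] using this

omit [FiniteDimensional ℝ V] in
/-- Elements near 1 are products `exp Z * exp Y`. -/
theorem ls_prod (p q : Submodule ℝ 𝔸) (hpq : IsCompl p q) (U : Set q) (hU : U ∈ 𝓝 (0 : q)) :
    ∀ᶠ a in 𝓝 (1 : 𝔸), ∃ Z ∈ p, ∃ Y ∈ U, a = NormedSpace.exp Z * NormedSpace.exp (Y : 𝔸) := by
  have : ProperSpace 𝔸 := FiniteDimensional.proper ℝ 𝔸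
  let f : p × q → 𝔸 := fun w => NormedSpace.exp (w.1 : 𝔸) * NormedSpace.exp (w.2 : 𝔸)
  let f' : p × q →L[ℝ] 𝔸 := p.subtypeL.comp (ContinuousLinearMap.fst ℝ p q) +
    q.subtypeL.comp (ContinuousLinearMap.snd ℝ p q)
  have e1 : HasStrictFDerivAt (fun w : p × q => NormedSpace.exp (w.1 : 𝔸))
      (p.subtypeL.comp (ContinuousLinearMap.fst ℝ p q)) 0 := by
    have a : HasStrictFDerivAt (NormedSpace.exp : 𝔸 → 𝔸) (1 : 𝔸 →L[ℝ] 𝔸)
        ((p.subtypeL.comp (ContinuousLinearMap.fst ℝ p q)) 0) := by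
      rw [map_zero]; exact hasStrictFDerivAt_exp_zero
    exact a.comp (0 : p × q)
      (p.subtypeL.comp (ContinuousLinearMap.fst ℝ p q)).hasStrictFDerivAt
  have e2 : HasStrictFDerivAt (fun w : p × q => NormedSpace.exp (w.2 : 𝔸))
      (q.subtypeL.comp (ContinuousLinearMap.snd ℝ p q)) 0 := by
    have a : HasStrictFDerivAt (NormedSpace.exp : 𝔸 → 𝔸) (1 : 𝔸 →L[ℝ] 𝔸)
        ((q.subtypeL.comp (ContinuousLinearMap.snd ℝ p q)) 0) := by
      rw [map_zero]; exact hasStrictFDerivAt_exp_zero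
    exact a.comp (0 : p × q)
      (q.subtypeL.comp (ContinuousLinearMap.snd ℝ p q)).hasStrictFDerivAt
  have e3 : HasStrictFDerivAt f f' 0 := by
    have := e1.mul' e2
    refine this.congr_fderiv ?_
    ext w
    · simp [f']
    · simp [f']
  have hsurj : f'.range = ⊤ := by
    rw [eq_top_iff]
    intro a _
    have : a ∈ p ⊔ q := by rw [hpq.sup_eq_top]; trivial
    obtain ⟨y, hy, z, hz, rfl⟩ := Submodule.mem_sup.1 this
    exact ⟨(⟨y, hy⟩, ⟨z, hz⟩), by simp [f']⟩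
  have hmap := e3.map_nhds_eq_of_surj hsurj
  have hf0 : f 0 = 1 := by simp [f]
  rw [hf0] at hmap
  have hU' : (univ ×ˢ U : Set (p × q)) ∈ 𝓝 (0 : p × q) := by
    rw [← Prod.mk_zero_zero]
    exact prod_mem_nhds univ_mem hU
  have : f '' (univ ×ˢ U) ∈ 𝓝 (1 : 𝔸) := by
    rw [← hmap]; exact image_mem_map hU'
  filter_upwards [this] with a ha
  obtain ⟨w, hw, rfl⟩ := ha
  exact ⟨w.1, w.1.2, w.2, hw.2, rfl⟩

omit [CompleteSpace 𝔸] [FiniteDimensional ℝ V] in
/-- Units moving `x` little are near the stabiliser. -/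
theorem ls_near (R : 𝔸 → V →L[ℝ] V) (hR : Continuous R)
    (x : V) {r M : ℝ} (hr : 0 < r)
    (hprop : ∀ a : 𝔸ˣ, ‖R (a : 𝔸) x - x‖ ≤ r → ‖(a : 𝔸)‖ ≤ M ∧ ‖((a⁻¹ : 𝔸ˣ) : 𝔸)‖ ≤ M)
    (W : Set 𝔸) (hW : W ∈ 𝓝 (1 : 𝔸)) :
    ∃ δ > 0, ∀ a : 𝔸ˣ, ‖R (a : 𝔸) x - x‖ < δ → ∃ g : 𝔸ˣ, R (g : 𝔸) x = x ∧
      ((g⁻¹ : 𝔸ˣ) : 𝔸) * a ∈ W := by
  have : ProperSpace 𝔸 := FiniteDimensional.proper ℝ 𝔸
  by_contra hcon
  push Not at hcon
  have hch : ∀ n : ℕ, ∃ a : 𝔸ˣ, ‖R (a : 𝔸) x - x‖ < min r (1 / ((n : ℝ) + 1)) ∧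
      ∀ g : 𝔸ˣ, R (g : 𝔸) x = x → ((g⁻¹ : 𝔸ˣ) : 𝔸) * a ∉ W := by
    intro n
    exact hcon _ (lt_min hr (by positivity))
  choose a ha ha' using hch
  have hK : IsCompact ((closedBall (0 : 𝔸) M) ×ˢ (closedBall (0 : 𝔸) M)) :=
    (isCompact_closedBall 0 M).prod (isCompact_closedBall 0 M)
  have hmem : ∀ n, ((a n : 𝔸), (((a n)⁻¹ : 𝔸ˣ) : 𝔸)) ∈
      ((closedBall (0 : 𝔸) M) ×ˢ (closedBall (0 : 𝔸) M)) := by
    intro n
    have := hprop (a n) ((ha n).le.trans (min_le_left _ _))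
    exact ⟨by simpa using this.1, by simpa using this.2⟩
  obtain ⟨⟨g, g'⟩, -, φ, hφ, hlim⟩ := hK.tendsto_subseq hmem
  have l1 : Tendsto (fun n => (a (φ n) : 𝔸)) atTop (𝓝 g) :=
    (continuous_fst.tendsto _).comp hlim
  have l2 : Tendsto (fun n => (((a (φ n))⁻¹ : 𝔸ˣ) : 𝔸)) atTop (𝓝 g') :=
    (continuous_snd.tendsto _).comp hlim
  have m1 : g * g' = 1 := by
    have := l1.mul l2
    refine tendsto_nhds_unique this ?_
    simp
  have m2 : g' * g = 1 := by
    have := l2.mul l1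
    refine tendsto_nhds_unique this ?_
    simp
  let u : 𝔸ˣ := ⟨g, g', m1, m2⟩
  have hfix : R (u : 𝔸) x = x := by
    have c : Continuous fun b : 𝔸 => R b x := hR.clm_apply continuous_const
    have t1 : Tendsto (fun n => R (a (φ n) : 𝔸) x) atTop (𝓝 (R g x)) :=
      (c.tendsto g).comp l1
    have t2 : Tendsto (fun n => R (a (φ n) : 𝔸) x) atTop (𝓝 x) := by
      rw [tendsto_iff_norm_sub_tendsto_zero]
      have t3 : Tendsto (fun n : ℕ => (1 : ℝ) / ((n : ℝ) + 1)) atTop (𝓝 0) :=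
        tendsto_one_div_add_atTop_nhds_zero_nat
      have t4 := t3.comp hφ.tendsto_atTop
      refine squeeze_zero (fun _ => norm_nonneg _) (fun n => ?_) t4
      exact (ha (φ n)).le.trans (min_le_right _ _)
    exact tendsto_nhds_unique t1 t2
  have hlim2 : Tendsto (fun n => ((u⁻¹ : 𝔸ˣ) : 𝔸) * (a (φ n) : 𝔸)) atTop (𝓝 1) := by
    have := l1.const_mul g'
    rw [m2] at this
    exact this
  obtain ⟨n, hn⟩ := (hlim2.eventually hW).exists
  exact ha' (φ n) u hfix hn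

end LocSec

/-- Local sections of finite-dimensional group orbits with compact stabilisers. -/
theorem local_section {𝔸 V : Type*} [NormedRing 𝔸] [NormedAlgebra ℝ 𝔸] [FiniteDimensional ℝ 𝔸]
    [CompleteSpace 𝔸] [NormedAddCommGroup V] [NormedSpace ℝ V] [FiniteDimensional ℝ V]
    (R : 𝔸 → V →L[ℝ] V) (hR : ContDiff ℝ 1 R) (h1 : R 1 = ContinuousLinearMap.id ℝ V)
    (hmul : ∀ a b, R (a * b) = (R b).comp (R a)) (x : V) {r M : ℝ} (hr : 0 < r)
    (hprop : ∀ a : 𝔸ˣ, ‖R (a : 𝔸) x - x‖ ≤ r → ‖(a : 𝔸)‖ ≤ M ∧ ‖((a⁻¹ : 𝔸ˣ) : 𝔸)‖ ≤ M) :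
    ∃ ε > 0, ∃ S : V → 𝔸, ContinuousOn S (ball x ε) ∧ S x = 1 ∧
      ∀ a : 𝔸ˣ, R (a : 𝔸) x ∈ ball x ε →
        IsUnit (S (R (a : 𝔸) x)) ∧ R (S (R (a : 𝔸) x)) (R (a : 𝔸) x) = x := by
  classical
  -- the derivative of the orbit map
  let D : 𝔸 →ₗ[ℝ] V := ((ContinuousLinearMap.apply ℝ V x).comp (fderiv ℝ R 1)).toLinearMap
  have hD : ∀ Z, D Z = fderiv ℝ R 1 Z x := fun Z => rfl
  obtain ⟨q, hq⟩ := Submodule.exists_isCompl (LinearMap.ker D)
  have hinj : Function.Injective (D.domRestrict q) := by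
    rw [← LinearMap.ker_eq_bot, LinearMap.ker_eq_bot']
    intro y hy
    have h2 : (y : 𝔸) ∈ LinearMap.ker D := by
      rw [LinearMap.mem_ker]; exact hy
    have h3 : (y : 𝔸) ∈ LinearMap.ker D ⊓ q := ⟨h2, y.2⟩
    rw [hq.inf_eq_bot, Submodule.mem_bot] at h3
    exact Subtype.ext h3
  obtain ⟨π₀, hπ₀⟩ := (D.domRestrict q).exists_leftInverse_of_injective
    (LinearMap.ker_eq_bot.2 hinj)
  let π : V →L[ℝ] q := LinearMap.toContinuousLinearMap π₀
  have hπ : ∀ y : q, π (D y) = y := fun y => LinearMap.congr_fun hπ₀ y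
  -- the map G : 𝔪 → 𝔪
  let G : q → q := fun y => π (R (NormedSpace.exp (y : 𝔸)) x - x)
  have hG : HasStrictFDerivAt G ((ContinuousLinearEquiv.refl ℝ q : q ≃L[ℝ] q) : q →L[ℝ] q) 0 := by
    have a1 : HasStrictFDerivAt (fun y : q => NormedSpace.exp (y : 𝔸)) q.subtypeL 0 := by
      have a : HasStrictFDerivAt (NormedSpace.exp : 𝔸 → 𝔸) (1 : 𝔸 →L[ℝ] 𝔸)
          (q.subtypeL 0) := by
        rw [map_zero]; exact hasStrictFDerivAt_exp_zero
      exact a.comp (0 : q) q.subtypeL.hasStrictFDerivAt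
    have a2 : HasStrictFDerivAt R (fderiv ℝ R 1) (NormedSpace.exp ((0 : q) : 𝔸)) := by
      have : NormedSpace.exp ((0 : q) : 𝔸) = 1 := by simp
      rw [this]
      exact (hR.contDiffAt.hasStrictFDerivAt (by simp))
    have a3 := a2.comp (0 : q) a1
    have a4 := ((ContinuousLinearMap.apply ℝ V x).hasStrictFDerivAt
      (x := R (NormedSpace.exp ((0 : q) : 𝔸)))).comp (0 : q) a3
    have a5 := a4.sub_const x
    have a6 := (π.hasStrictFDerivAt
      (x := (ContinuousLinearMap.apply ℝ V x) (R (NormedSpace.exp ((0 : q) : 𝔸))) - x)).comp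
      (0 : q) a5
    refine a6.congr_fderiv ?_
    ext y
    have := hπ y
    simp only [ContinuousLinearMap.comp_apply, ContinuousLinearEquiv.coe_refl,
      ContinuousLinearMap.coe_id', id_eq]
    exact congrArg Subtype.val this
  let e := hG.toOpenPartialHomeomorph G
  have he : ∀ y, e y = G y := fun y => by
    simp [e, HasStrictFDerivAt.toOpenPartialHomeomorph_coe]
  have hsrc : (0 : q) ∈ e.source := hG.mem_toOpenPartialHomeomorph_source
  have hG0 : G 0 = 0 := by simp [G, h1]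
  have htgt : (0 : q) ∈ e.target := by
    have := e.map_source hsrc
    rwa [he, hG0] at this
  have hsymm0 : e.symm 0 = 0 := by
    have := e.left_inv hsrc
    rwa [he, hG0] at this
  -- choose ε
  have hev := ls_prod (LinearMap.ker D) q hq e.source (e.open_source.mem_nhds hsrc)
  obtain ⟨δ₂, hδ₂, hnear⟩ := ls_near R hR.continuous x hr hprop _ hev
  have hcont : Continuous fun p : V => π (p - x) := by fun_prop
  have hpre : (fun p : V => π (p - x)) ⁻¹' e.target ∈ nhds x := by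
    apply hcont.continuousAt.preimage_mem_nhds
    apply e.open_target.mem_nhds
    simpa using htgt
  obtain ⟨δ₁, hδ₁, hball⟩ := Metric.mem_nhds_iff.1 hpre
  refine ⟨min δ₁ δ₂, lt_min hδ₁ hδ₂,
    fun p => NormedSpace.exp (-((e.symm (π (p - x)) : q) : 𝔸)), ?_, ?_, ?_⟩
  · have c1 : ContinuousOn (fun p : V => e.symm (π (p - x))) (ball x (min δ₁ δ₂)) := by
      apply e.continuousOn_symm.comp hcont.continuousOn
      intro p hp
      exact hball (ball_subset_ball (min_le_left _ _) hp)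
    have c2 : Continuous fun y : q => NormedSpace.exp (-(y : 𝔸)) := by
      have : Continuous (NormedSpace.exp : 𝔸 → 𝔸) := by
        let _ : NormedAlgebra ℚ 𝔸 := NormedAlgebra.restrictScalars ℚ ℝ 𝔸
        exact NormedSpace.exp_continuous
      exact this.comp (continuous_subtype_val.neg)
    exact c2.comp_continuousOn c1
  · simp [hsymm0]
  · intro a ha
    constructor
    · letI : NormedAlgebra ℚ 𝔸 := NormedAlgebra.restrictScalars ℚ ℝ 𝔸
      exact NormedSpace.isUnit_exp _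
    · have ha2 : ‖R (a : 𝔸) x - x‖ < δ₂ := by
        rw [← dist_eq_norm]
        exact (mem_ball.1 ha).trans_le (min_le_right _ _)
      obtain ⟨g, hg, Z, hZ, Y, hY, hprod⟩ := hnear a ha2
      have hinvg : R ((g⁻¹ : 𝔸ˣ) : 𝔸) x = x := by
        have := hmul (g : 𝔸) ((g⁻¹ : 𝔸ˣ) : 𝔸)
        rw [Units.mul_inv, h1] at this
        have h3 := DFunLike.congr_fun this x
        simp only [ContinuousLinearMap.comp_apply, hg] at h3
        exact h3.symm
      have hRa : R (a : 𝔸) x = R (NormedSpace.exp (Y : 𝔸)) x := by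
        have s1 : R (((g⁻¹ : 𝔸ˣ) : 𝔸) * a) x = R (a : 𝔸) x := by
          rw [hmul, ContinuousLinearMap.comp_apply, hinvg]
        rw [← s1, hprod, hmul, ContinuousLinearMap.comp_apply,
          ls_fix R hR h1 hmul x Z (by rw [← hD]; exact hZ)]
      have hsym : e.symm (π (R (a : 𝔸) x - x)) = Y := by
        rw [hRa]
        have : π (R (NormedSpace.exp (Y : 𝔸)) x - x) = e Y := (he Y).symm
        rw [this]
        exact e.left_inv hY
      show R (NormedSpace.exp (-((e.symm (π (R (a : 𝔸) x - x)) : q) : 𝔸))) (R (a : 𝔸) x) = x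
      rw [hsym, hRa, ← ContinuousLinearMap.comp_apply, ← hmul]
      have : NormedSpace.exp (Y : 𝔸) * NormedSpace.exp (-(Y : 𝔸)) = 1 := by
        rw [← NormedSpace.exp_add_of_commute_of_mem_ball (𝕂 := ℝ)]
        · simp
        · exact (Commute.refl _).neg_right
        · exact (NormedSpace.expSeries_radius_eq_top ℝ 𝔸).symm ▸ edist_lt_top _ _
        · exact (NormedSpace.expSeries_radius_eq_top ℝ 𝔸).symm ▸ edist_lt_top _ _
      rw [this, h1]
      rfl

end Pool.Agent.SB
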