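import Mathlib
import Pool.Agent.SB.Defs

set_option autoImplicit false

open Set Metric
open Pool.Agent.H87Star (IsGauge)

namespace Pool.Agent.SB

theorem Frames_inj {n k : ℕ} (F : E k →L[ℝ] E n) (hF : Iso F) : Function.Injective F := by
  rw [injective_iff_map_eq_zero]
  intro a ha
  have := hF a
  rw [ha, norm_zero] at this
  exact norm_eq_zero.1 this.symm

/-- From sections by subspaces to isometric frames. -/
theorem frames_of_sections {n k : ℕ} {f : E n → ℝ}
    (hsec : ∀ S T : Submodule ℝ (E n), Module.finrank ℝ S = k → Module.finrank ℝ T = k →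
      ∃ φ : S ≃ᵃ[ℝ] T, φ '' {x : S | f (x : E n) ≤ 1} = {y : T | f (y : E n) ≤ 1})
    (F F' : E k →L[ℝ] E n) (hF : Iso F) (hF' : Iso F') :
    ∃ (g : E k ≃L[ℝ] E k) (c : E k), ∀ v, f (F' (g v + c)) ≤ 1 ↔ f (F v) ≤ 1 := by
  have hinj := Frames_inj F hF
  have hinj' := Frames_inj F' hF'
  let e : E k ≃ₗ[ℝ] LinearMap.range (F : E k →ₗ[ℝ] E n) :=
    LinearEquiv.ofInjective (F : E k →ₗ[ℝ] E n) hinj
  let e' : E k ≃ₗ[ℝ] LinearMap.range (F' : E k →ₗ[ℝ] E n) :=
    LinearEquiv.ofInjective (F' : E k →ₗ[ℝ] E n) hinj'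
  have hS : Module.finrank ℝ (LinearMap.range (F : E k →ₗ[ℝ] E n)) = k := by
    rw [← e.finrank_eq]
    simp
  have hT : Module.finrank ℝ (LinearMap.range (F' : E k →ₗ[ℝ] E n)) = k := by
    rw [← e'.finrank_eq]
    simp
  obtain ⟨φ, hφ⟩ := hsec _ _ hS hT
  refine ⟨((e.trans φ.linear).trans e'.symm).toContinuousLinearEquiv, e'.symm (φ 0), ?_⟩
  intro v
  have h1 : F' (((e.trans φ.linear).trans e'.symm).toContinuousLinearEquiv v + e'.symm (φ 0)) =
      ((φ (e v) : LinearMap.range (F' : E k →ₗ[ℝ] E n)) : E n) := by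
    have h2 : ((e.trans φ.linear).trans e'.symm).toContinuousLinearEquiv v + e'.symm (φ 0) =
        e'.symm (φ (e v)) := by
      have h3 : φ (e v) = φ.linear (e v) + φ 0 := by
        have := φ.map_vadd 0 (e v)
        simpa using this
      rw [h3, map_add]
      rfl
    rw [h2]
    have h4 : ∀ y, F' (e'.symm y) = (y : E n) := by
      intro y
      have := congrArg Subtype.val (e'.apply_symm_apply y)
      exact this
    exact h4 _
  rw [h1]
  have h5 : (e v : E n) = F v := rfl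
  rw [← h5]
  constructor
  · intro h
    have h6 : φ (e v) ∈ φ '' {x | f (x : E n) ≤ 1} := by
      rw [hφ]
      exact h
    obtain ⟨x, hx, hx'⟩ := h6
    rwa [φ.injective hx'] at hx
  · intro h
    have h6 : φ (e v) ∈ φ '' {x | f (x : E n) ≤ 1} := ⟨e v, h, rfl⟩
    rw [hφ] at h6
    exact h6

end Pool.Agent.SB
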