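import Mathlib
import Pool.Agent.SB.Defs

set_option autoImplicit false

open Set Metric

namespace Pool.Agent.SB

/-- The embedding given by an injection of the index sets. -/
noncomputable def emb {k n : ℕ} (σ : Fin k → Fin n) : E k →L[ℝ] E n :=
  ∑ i, (EuclideanSpace.proj i : E k →L[ℝ] ℝ).smulRight (EuclideanSpace.single (σ i) (1 : ℝ))

theorem emb_apply {k n : ℕ} (σ : Fin k → Fin n) (v : E k) :
    emb σ v = ∑ i, v i • (EuclideanSpace.single (σ i) (1 : ℝ) : E n) := by
  simp [emb]

theorem inner_single_single {n : ℕ} (i j : Fin n) :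
    inner ℝ (EuclideanSpace.single i (1 : ℝ) : E n) (EuclideanSpace.single j (1 : ℝ)) =
      if i = j then (1 : ℝ) else 0 := by
  rw [EuclideanSpace.inner_single_left]
  simp

theorem inner_emb {k k' n : ℕ} (σ : Fin k → Fin n) (τ : Fin k' → Fin n) (v : E k) (w : E k') :
    inner ℝ (emb σ v) (emb τ w) = ∑ i, ∑ j, if σ i = τ j then v i * w j else 0 := by
  rw [emb_apply, emb_apply, sum_inner]
  refine Finset.sum_congr rfl fun i _ => ?_
  rw [inner_sum]
  refine Finset.sum_congr rfl fun j _ => ?_
  rw [inner_smul_left, inner_smul_right, inner_single_single]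
  simp only [conj_trivial, mul_ite, mul_one, mul_zero]

theorem inner_emb_self {k n : ℕ} {σ : Fin k → Fin n} (hσ : Function.Injective σ) (v w : E k) :
    inner ℝ (emb σ v) (emb σ w) = inner ℝ v w := by
  rw [inner_emb]
  have h1 : ∀ i : Fin k, (∑ j, if σ i = σ j then v i * w j else 0) = v i * w i := by
    intro i
    rw [Finset.sum_eq_single i]
    · simp
    · intro j _ hj
      rw [if_neg]
      exact fun h => hj (hσ h).symm
    · simp
  rw [Finset.sum_congr rfl fun i _ => h1 i, PiLp.inner_apply]
  refine Finset.sum_congr rfl fun i _ => ?_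
  simp [mul_comm]

theorem norm_emb {k n : ℕ} {σ : Fin k → Fin n} (hσ : Function.Injective σ) (v : E k) :
    ‖emb σ v‖ = ‖v‖ := by
  have h := inner_emb_self hσ v v
  rw [real_inner_self_eq_norm_sq, real_inner_self_eq_norm_sq] at h
  exact (pow_left_inj₀ (norm_nonneg _) (norm_nonneg _) two_ne_zero).1 h

theorem norm_refl {k : ℕ} {u : E k} (hu : ‖u‖ = 1) (v : E k) : ‖refl u v‖ = ‖v‖ := by
  have h : ‖refl u v‖ ^ 2 = ‖v‖ ^ 2 := by
    rw [refl_apply, ← real_inner_self_eq_norm_sq, ← real_inner_self_eq_norm_sq]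
    simp only [inner_sub_left, inner_sub_right, inner_smul_left, inner_smul_right, conj_trivial,
      real_inner_self_eq_norm_sq, hu, real_inner_comm u v]
    ring
  exact (pow_left_inj₀ (norm_nonneg _) (norm_nonneg _) two_ne_zero).1 h

theorem continuous_refl {k : ℕ} : Continuous (fun u : E k => refl u) := by
  unfold refl
  have h : Continuous (fun u : E k => (innerSL ℝ u).smulRight u) := by
    have h1 : Continuous (fun u : E k =>
        ContinuousLinearMap.smulRightL ℝ (E k) (E k) (innerSL ℝ u) u) := by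
      have h2 : Continuous (fun u : E k =>
          ContinuousLinearMap.smulRightL ℝ (E k) (E k) (innerSL ℝ u)) :=
        (ContinuousLinearMap.continuous _).comp (innerSL ℝ).continuous
      exact h2.clm_apply continuous_id
    exact h1
  exact continuous_const.sub (Continuous.smul (continuous_const (y := (2 : ℝ))) h)

/-- `n ≥ k + 1`: the frames `F₁ ∘ refl u` are null-homotopic. -/
theorem homot_hyper {n k : ℕ} (hn : k + 1 ≤ n) :
    ∃ (F : ℝ → E k → E k →L[ℝ] E n) (F₁ : E k →L[ℝ] E n), Iso F₁ ∧
      Continuous (fun z : ℝ × E k => F z.1 z.2) ∧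
      (∀ t, ∀ u ∈ sphere (0 : E k) 1, Iso (F t u)) ∧ (∀ u u', F 0 u = F 0 u') ∧
      ∀ u ∈ sphere (0 : E k) 1, F 1 u = F₁.comp (refl u) := by
  set σ : Fin k → Fin n := fun i => ⟨i, by omega⟩ with hσ
  have hσi : Function.Injective σ := by
    intro i j h
    simp only [hσ, Fin.mk.injEq] at h
    exact Fin.ext h
  set τ : Fin 1 → Fin n := fun _ => ⟨k, by omega⟩ with hτ
  have hστ : ∀ i j, σ i ≠ τ j := by
    intro i j h
    simp only [hσ, hτ, Fin.mk.injEq] at h
    omega
  set ι : E k →L[ℝ] E n := emb σ with hι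
  set ν : E n := emb τ (EuclideanSpace.single 0 (1 : ℝ)) with hν
  have hνn : ‖ν‖ = 1 := by
    rw [hν, norm_emb (fun i j _ => Subsingleton.elim i j)]
    simp
  have hνι : ∀ v, inner ℝ (ι v) ν = 0 := by
    intro v
    rw [hι, hν, inner_emb]
    refine Finset.sum_eq_zero fun i _ => Finset.sum_eq_zero fun j _ => ?_
    rw [if_neg (hστ i j)]
  set s : ℝ → ℝ := fun t => Real.sin (Real.pi * t / 2) with hs
  set c : ℝ → ℝ := fun t => Real.cos (Real.pi * t / 2) with hc
  have hsc : ∀ t, s t ^ 2 + c t ^ 2 = 1 := fun t => Real.sin_sq_add_cos_sq _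
  have hs0 : s 0 = 0 := by simp [hs]
  have hs1 : s 1 = 1 := by simp [hs]
  have hc1 : c 1 = 0 := by simp [hc]
  refine ⟨fun t u => ι - (2 * s t) • (innerSL ℝ u).smulRight (s t • ι u + c t • ν), ι,
    fun v => norm_emb hσi v, ?_, ?_, ?_, ?_⟩
  · have hsm : Continuous s := by fun_prop
    have hcm : Continuous c := by fun_prop
    have h1 : Continuous (fun z : ℝ × E k =>
        ContinuousLinearMap.smulRightL ℝ (E k) (E n) (innerSL ℝ z.2)
          (s z.1 • ι z.2 + c z.1 • ν)) := by
      have h2 : Continuous (fun z : ℝ × E k =>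
          ContinuousLinearMap.smulRightL ℝ (E k) (E n) (innerSL ℝ z.2)) :=
        (ContinuousLinearMap.continuous _).comp ((innerSL ℝ).continuous.comp continuous_snd)
      refine h2.clm_apply ?_
      fun_prop
    exact continuous_const.sub ((by fun_prop : Continuous fun z : ℝ × E k => 2 * s z.1).smul h1)
  · intro t u hu v
    have hu1 : ‖u‖ = 1 := by simpa using hu
    have h : ‖(ι - (2 * s t) • (innerSL ℝ u).smulRight (s t • ι u + c t • ν)) v‖ ^ 2 =
        ‖v‖ ^ 2 := by
      have e1 : (ι - (2 * s t) • (innerSL ℝ u).smulRight (s t • ι u + c t • ν)) v =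
          ι v - (2 * s t * inner ℝ u v) • (s t • ι u + c t • ν) := by
        simp [mul_smul]
      rw [e1, ← real_inner_self_eq_norm_sq, ← real_inner_self_eq_norm_sq]
      have h2 := hνι v
      have h3 := hνι u
      have h4 : inner ℝ ν (ι v) = 0 := by rw [real_inner_comm]; exact h2
      have h5 : inner ℝ ν (ι u) = 0 := by rw [real_inner_comm]; exact h3
      have h6 : inner ℝ (ι v) (ι u) = inner ℝ u v := by
        rw [inner_emb_self hσi, real_inner_comm]
      have h7 : inner ℝ (ι u) (ι v) = inner ℝ u v := inner_emb_self hσi u v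
      have h8 : inner ℝ (ι u) (ι u) = (1 : ℝ) := by
        rw [inner_emb_self hσi, real_inner_self_eq_norm_sq, hu1]; norm_num
      have h9 : inner ℝ (ι v) (ι v) = inner ℝ v v := inner_emb_self hσi v v
      have h10 : inner ℝ ν ν = (1 : ℝ) := by
        rw [real_inner_self_eq_norm_sq, hνn]; norm_num
      simp only [inner_sub_left, inner_sub_right, inner_add_left, inner_add_right,
        inner_smul_left, inner_smul_right, conj_trivial, h2, h3, h4, h5, h6, h7, h8, h9, h10]
      have h11 := hsc t
      linear_combination (4 * s t ^ 2 * inner ℝ u v ^ 2) * h11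
    exact (pow_left_inj₀ (norm_nonneg _) (norm_nonneg _) two_ne_zero).1 h
  · intro u u'
    ext1 v
    show ι v - ((2 * s 0) • (innerSL ℝ u).smulRight (s 0 • ι u + c 0 • ν)) v =
      ι v - ((2 * s 0) • (innerSL ℝ u').smulRight (s 0 • ι u' + c 0 • ν)) v
    rw [hs0, mul_zero]
    simp
  · intro u hu
    ext1 v
    simp only [hs1, hc1, mul_one, one_smul, zero_smul, add_zero, ContinuousLinearMap.comp_apply,
      refl_apply, map_sub, map_smul]
    simp [mul_smul]

/-- `n ≥ 2 k`: the frames `F₁ ∘ refl u` are null-homotopic through even maps. -/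
theorem homot_double {n k : ℕ} (hn : 2 * k ≤ n) :
    ∃ (F : ℝ → E k → E k →L[ℝ] E n) (F₁ : E k →L[ℝ] E n), Iso F₁ ∧
      Continuous (fun z : ℝ × E k => F z.1 z.2) ∧
      (∀ t, ∀ u ∈ sphere (0 : E k) 1, Iso (F t u)) ∧ (∀ u u', F 0 u = F 0 u') ∧
      (∀ u ∈ sphere (0 : E k) 1, F 1 u = F₁.comp (refl u)) ∧ ∀ t u, F t (-u) = F t u := by
  set σ : Fin k → Fin n := fun i => ⟨i, by omega⟩ with hσ
  have hσi : Function.Injective σ := by
    intro i j h
    simp only [hσ, Fin.mk.injEq] at h
    exact Fin.ext h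
  set τ : Fin k → Fin n := fun i => ⟨k + i, by omega⟩ with hτ
  have hτi : Function.Injective τ := by
    intro i j h
    simp only [hτ, Fin.mk.injEq] at h
    exact Fin.ext (by omega)
  have hτσ : ∀ i j, τ i ≠ σ j := by
    intro i j h
    simp only [hσ, hτ, Fin.mk.injEq] at h
    omega
  have horth : ∀ v w, inner ℝ (emb τ v) (emb σ w) = (0 : ℝ) := by
    intro v w
    rw [inner_emb]
    refine Finset.sum_eq_zero fun i _ => Finset.sum_eq_zero fun j _ => ?_
    rw [if_neg (hτσ i j)]
  set s : ℝ → ℝ := fun t => Real.sin (Real.pi * t / 2) with hs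
  set c : ℝ → ℝ := fun t => Real.cos (Real.pi * t / 2) with hc
  have hsc : ∀ t, s t ^ 2 + c t ^ 2 = 1 := fun t => Real.sin_sq_add_cos_sq _
  have hs0 : s 0 = 0 := by simp [hs]
  have hs1 : s 1 = 1 := by simp [hs]
  have hc1 : c 1 = 0 := by simp [hc]
  refine ⟨fun t u => c t • emb τ + s t • (emb σ).comp (refl u), emb σ,
    fun v => norm_emb hσi v, ?_, ?_, ?_, ?_, ?_⟩
  · have hsm : Continuous s := by fun_prop
    have hcm : Continuous c := by fun_prop
    have h1 : Continuous (fun z : ℝ × E k => (emb σ : E k →L[ℝ] E n).comp (refl z.2)) :=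
      continuous_const.clm_comp (continuous_refl.comp continuous_snd)
    exact ((hcm.comp continuous_fst).smul continuous_const).add
      ((hsm.comp continuous_fst).smul h1)
  · intro t u hu v
    have hu1 : ‖u‖ = 1 := by simpa using hu
    have h : ‖(c t • emb τ + s t • (emb σ).comp (refl u)) v‖ ^ 2 = ‖v‖ ^ 2 := by
      have e1 : (c t • (emb τ : E k →L[ℝ] E n) + s t • (emb σ).comp (refl u)) v =
          c t • emb τ v + s t • emb σ (refl u v) := rfl
      rw [e1, ← real_inner_self_eq_norm_sq]
      have h2 := horth v (refl u v)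
      have h3 : inner ℝ (emb σ (refl u v)) (emb τ v) = (0 : ℝ) := by rw [real_inner_comm]; exact h2
      simp only [inner_add_left, inner_add_right, inner_smul_left, inner_smul_right, conj_trivial,
        h2, h3, inner_emb_self hσi, inner_emb_self hτi, real_inner_self_eq_norm_sq,
        norm_refl hu1]
      have h11 := hsc t
      linear_combination (‖v‖ ^ 2) * h11
    exact (pow_left_inj₀ (norm_nonneg _) (norm_nonneg _) two_ne_zero).1 h
  · intro u u'
    ext1 v
    show c 0 • emb τ v + s 0 • emb σ (refl u v) = c 0 • emb τ v + s 0 • emb σ (refl u' v)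
    rw [hs0, zero_smul, zero_smul]
  · intro u hu
    ext1 v
    show c 1 • emb τ v + s 1 • emb σ (refl u v) = emb σ (refl u v)
    rw [hs1, hc1, zero_smul, one_smul, zero_add]
  · intro t u
    have h2 : refl (-u) = refl u := by
      ext1 v
      rw [refl_apply, refl_apply, inner_neg_left]
      module
    simp only [h2]

end Pool.Agent.SB
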