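import Mathlib
import Pool.Agent.NE.EvB

set_option autoImplicit false

open MeasureTheory Set
open scoped ENNReal ContDiff

namespace Pool.Agent.SB

/-- The linear homotopy from `Q₀` to `Q₁`. -/
noncomputable def evH2 {N : ℕ} (Q₀ Q₁ : (Fin N → ℝ) → (Fin N → ℝ)) (u : Fin (N + 1) → ℝ) :
    Fin N → ℝ :=
  (1 - u 0) • Q₀ (fun k : Fin N => u k.succ) + u 0 • Q₁ (fun k : Fin N => u k.succ)

theorem evH2_eq {N : ℕ} (Q₀ Q₁ : (Fin N → ℝ) → (Fin N → ℝ)) :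
    evH2 Q₀ Q₁ = fun u => (1 - u 0) • Q₀ (NE.evT N u) + u 0 • Q₁ (NE.evT N u) := by
  funext u
  rw [NE.evT_apply]
  rfl

theorem evH2_contDiff {N : ℕ} {Q₀ Q₁ : (Fin N → ℝ) → (Fin N → ℝ)} (h0 : ContDiff ℝ ∞ Q₀)
    (h1 : ContDiff ℝ ∞ Q₁) : ContDiff ℝ ∞ (evH2 Q₀ Q₁) := by
  rw [evH2_eq]
  have hu : ContDiff ℝ ∞ fun u : Fin (N + 1) → ℝ => u 0 := contDiff_apply ℝ ℝ 0
  exact ((contDiff_const.sub hu).smul (h0.comp (NE.evT N).contDiff)).add
    (hu.smul (h1.comp (NE.evT N).contDiff))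

theorem evH2_fderiv {N : ℕ} {Q₀ Q₁ : (Fin N → ℝ) → (Fin N → ℝ)} (h0 : ContDiff ℝ ∞ Q₀)
    (h1 : ContDiff ℝ ∞ Q₁) (u : Fin (N + 1) → ℝ) (k : Fin N) :
    fderiv ℝ (evH2 Q₀ Q₁) u (Pi.single k.succ 1) =
      (1 - u 0) • fderiv ℝ Q₀ (fun j => u j.succ) (Pi.single k 1) +
      u 0 • fderiv ℝ Q₁ (fun j => u j.succ) (Pi.single k 1) := by
  have hu : HasFDerivAt (fun u : Fin (N + 1) → ℝ => u 0)
      (ContinuousLinearMap.proj 0 : (Fin (N + 1) → ℝ) →L[ℝ] ℝ) u :=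
    (ContinuousLinearMap.proj 0 : (Fin (N + 1) → ℝ) →L[ℝ] ℝ).hasFDerivAt
  have hT : HasFDerivAt (fun u => NE.evT N u) (NE.evT N) u := (NE.evT N).hasFDerivAt
  have hQ0 : HasFDerivAt (fun u => Q₀ (NE.evT N u))
      ((fderiv ℝ Q₀ (NE.evT N u)).comp (NE.evT N)) u :=
    ((h0.differentiable (by simp)) (NE.evT N u)).hasFDerivAt.comp u hT
  have hQ1 : HasFDerivAt (fun u => Q₁ (NE.evT N u))
      ((fderiv ℝ Q₁ (NE.evT N u)).comp (NE.evT N)) u :=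
    ((h1.differentiable (by simp)) (NE.evT N u)).hasFDerivAt.comp u hT
  have h2 := ((hu.const_sub 1).fun_smul hQ0).fun_add (hu.fun_smul hQ1)
  rw [evH2_eq, h2.fderiv]
  have hTs : NE.evT N (Pi.single k.succ 1) = Pi.single k 1 := by
    rw [NE.evT_apply]
    ext j
    by_cases hj : j = k
    · subst hj
      simp
    · simp [hj]
  have hp : (ContinuousLinearMap.proj 0 : (Fin (N + 1) → ℝ) →L[ℝ] ℝ) (Pi.single k.succ 1) = 0 := by
    simp
  simp only [_root_.add_apply, _root_.smul_apply, ContinuousLinearMap.smulRight_apply,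
    _root_.neg_apply, hp, neg_zero, zero_smul, add_zero, ContinuousLinearMap.comp_apply, hTs,
    NE.evT_apply]

/-- The degree integral is invariant under the linear homotopy between two smooth maps that does
not vanish on the boundary of the cube. -/
theorem deg_integral2 {N : ℕ} (hN : 1 ≤ N) (Q₀ Q₁ : (Fin N → ℝ) → (Fin N → ℝ))
    (h0 : ContDiff ℝ ∞ Q₀) (h1 : ContDiff ℝ ∞ Q₁) {ε : ℝ} (hε : 0 < ε)
    (hh : ∀ x : Fin N → ℝ, (∀ i, |x i| ≤ 1) → (∃ i, |x i| = 1) → ∀ t ∈ Icc (0 : ℝ) 1,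
      ε ≤ ‖(1 - t) • Q₀ x + t • Q₁ x‖)
    (φ : (Fin N → ℝ) → ℝ) (hφ : ContDiff ℝ 1 φ) (hs : ∀ y, ε ≤ ‖y‖ → φ y = 0) :
    ∫ x in Icc (-1 : Fin N → ℝ) 1, φ (Q₁ x) * (fderiv ℝ Q₁ x).det =
      ∫ x in Icc (-1 : Fin N → ℝ) 1, φ (Q₀ x) * (fderiv ℝ Q₀ x).det := by
  set a : Fin (N + 1) → ℝ := Fin.cons 0 (fun _ => -1) with ha
  set b : Fin (N + 1) → ℝ := Fin.cons 1 (fun _ => 1) with hb
  have hab : a ≤ b := by
    intro i
    refine Fin.cases ?_ (fun k => ?_) i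
    · simp [ha, hb]
    · simp [ha, hb]
  have key := Pool.Agent.H42.Deg.hom_inv (evH2 Q₀ Q₁) φ a b hab
    (fun x _ => ((evH2_contDiff h0 h1).of_le (by norm_cast)).contDiffAt) hφ (by
      intro x hx i hi h
      obtain ⟨k, rfl⟩ := Fin.exists_succ_eq.mpr hi
      refine hs _ (hh _ (fun j => ?_) ⟨k, ?_⟩ (x 0) ?_)
      · have h1 := hx.1 j.succ
        have h2 := hx.2 j.succ
        simp only [ha, hb, Fin.cons_succ] at h1 h2
        exact abs_le.2 ⟨h1, h2⟩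
      · rcases h with h | h
        · rw [h]
          simp [ha]
        · rw [h]
          simp [hb]
      · have h1 := hx.1 0
        have h2 := hx.2 0
        simp only [ha, hb, Fin.cons_zero] at h1 h2
        exact ⟨h1, h2⟩)
  have ea : a ∘ Fin.succ = (-1 : Fin N → ℝ) := by
    funext k
    simp [ha]
  have eb : b ∘ Fin.succ = (1 : Fin N → ℝ) := by
    funext k
    simp [hb]
  have ea0 : a 0 = 0 := by simp [ha]
  have eb0 : b 0 = 1 := by simp [hb]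
  rw [ea, eb, ea0, eb0] at key
  have eta_app : ∀ (u : Fin (N + 1) → ℝ),
      Pool.Agent.H42.Deg.eta (evH2 Q₀ Q₁) φ u (fun k => Pi.single k.succ 1) =
        φ (evH2 Q₀ Q₁ u) *
          Matrix.det (fun k : Fin N => fderiv ℝ (evH2 Q₀ Q₁) u (Pi.single k.succ 1)) := by
    intro u
    rfl
  have e1 : ∀ y : Fin N → ℝ,
      Pool.Agent.H42.Deg.eta (evH2 Q₀ Q₁) φ (Fin.cons 1 y) (fun k => Pi.single k.succ 1) =
        φ (Q₁ y) * (fderiv ℝ Q₁ y).det := by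
    intro y
    rw [eta_app, ← NE.evdet]
    have e1 : evH2 Q₀ Q₁ (Fin.cons 1 y) = Q₁ y := by
      simp [evH2]
    rw [e1]
    congr 2
    funext k
    rw [evH2_fderiv h0 h1]
    simp
  have e0 : ∀ y : Fin N → ℝ,
      Pool.Agent.H42.Deg.eta (evH2 Q₀ Q₁) φ (Fin.cons 0 y) (fun k => Pi.single k.succ 1) =
        φ (Q₀ y) * (fderiv ℝ Q₀ y).det := by
    intro y
    rw [eta_app, ← NE.evdet]
    have e1 : evH2 Q₀ Q₁ (Fin.cons 0 y) = Q₀ y := by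
      simp [evH2]
    rw [e1]
    congr 2
    funext k
    rw [evH2_fderiv h0 h1]
    simp
  simp_rw [e1, e0] at key
  exact key

end Pool.Agent.SB
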