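import Mathlib
import Pool.Agent.SB.Defs

set_option autoImplicit false

open Set Metric
open Pool.Agent.H87Star (IsGauge)

namespace Pool.Agent.SB

/-- Any two vectors lie in the range of an isometric frame. -/
theorem exists_frame {n k : ℕ} (hk : 2 ≤ k) (hn : k ≤ n) (v w : E n) :
    ∃ F : E k →L[ℝ] E n, Iso F ∧ (∃ a, F a = v) ∧ ∃ c, F c = w := by
  classical
  have h1 : Module.finrank ℝ (Submodule.span ℝ ({v, w} : Set (E n))) ≤ k := by
    have h2 := finrank_span_finset_le_card (R := ℝ) ({v, w} : Finset (E n))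
    have h3 : ((({v, w} : Finset (E n)) : Set (E n))) = {v, w} := by simp
    rw [h3] at h2
    exact h2.trans ((Finset.card_le_two).trans hk)
  have h4 : k ≤ Module.finrank ℝ (E n) := by rw [finrank_euclideanSpace_fin]; exact hn
  obtain ⟨S, hWS, hS⟩ := Pool.Agent.H87Star.exists_sub_ge _ k h1 h4
  let b := (stdOrthonormalBasis ℝ S).reindex (finCongr hS)
  refine ⟨(S.subtypeL).comp (b.repr.symm.toContinuousLinearEquiv : E k →L[ℝ] S), ?_, ?_, ?_⟩
  · intro u
    show ‖((b.repr.symm u : S) : E n)‖ = ‖u‖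
    rw [Submodule.norm_coe, LinearIsometryEquiv.norm_map]
  · refine ⟨b.repr ⟨v, hWS (Submodule.subset_span (by simp))⟩, ?_⟩
    show ((b.repr.symm (b.repr _) : S) : E n) = v
    rw [LinearIsometryEquiv.symm_apply_apply]
  · refine ⟨b.repr ⟨w, hWS (Submodule.subset_span (by simp))⟩, ?_⟩
    show ((b.repr.symm (b.repr _) : S) : E n) = w
    rw [LinearIsometryEquiv.symm_apply_apply]

/-- The ball of a positive definite form plus a linear form is an ellipsoid. -/
theorem ellipsoid_of_form {n : ℕ} (b : E n →ₗ[ℝ] E n →ₗ[ℝ] ℝ) (hs : ∀ v w, b v w = b w v)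
    (hp : ∀ v, v ≠ 0 → 0 < b v v) (l : E n →ₗ[ℝ] ℝ) :
    ∃ A : E n ≃ᵃ[ℝ] E n, {x | b x x + l x ≤ 1} = A '' Metric.closedBall 0 1 := by
  obtain ⟨A, hA⟩ := Pool.Agent.H87Star.exists_equiv_of_form b hs hp
  -- Riesz
  let L : E n →L[ℝ] ℝ := LinearMap.toContinuousLinearMap (l.comp A.toLinearMap)
  let y : E n := (InnerProductSpace.toDual ℝ (E n)).symm L
  have hy : ∀ x, l (A x) = inner ℝ y x := by
    intro x
    have h1 : inner ℝ y x = L x := InnerProductSpace.toDual_symm_apply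
    rw [h1]
    rfl
  let R : ℝ := Real.sqrt (1 + ‖y‖ ^ 2 / 4)
  have hR0 : 0 < R := Real.sqrt_pos.2 (by positivity)
  have hR2 : R ^ 2 = 1 + ‖y‖ ^ 2 / 4 := Real.sq_sqrt (by positivity)
  let T : E n ≃ᵃ[ℝ] E n := ((LinearEquiv.smulOfNeZero ℝ (E n) R hR0.ne').toAffineEquiv.trans
    (AffineEquiv.constVAdd ℝ (E n) (-((1 / 2 : ℝ) • y)))).trans A.toAffineEquiv
  have hT : ∀ u, T u = A (-((1 / 2 : ℝ) • y) + R • u) := fun u => rfl
  have key : ∀ u, b (T u) (T u) + l (T u) ≤ 1 ↔ ‖u‖ ≤ 1 := by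
    intro u
    rw [hT, hA, hy]
    have e1 : ‖-((1 / 2 : ℝ) • y) + R • u‖ ^ 2 + inner ℝ y (-((1 / 2 : ℝ) • y) + R • u)
        = R ^ 2 * ‖u‖ ^ 2 - ‖y‖ ^ 2 / 4 := by
      rw [norm_add_sq_real, inner_add_right, inner_neg_right, inner_neg_left, norm_neg,
        inner_smul_left, inner_smul_right, inner_smul_right,
        real_inner_self_eq_norm_sq, norm_smul, norm_smul]
      simp only [conj_trivial, Real.norm_eq_abs, mul_pow, sq_abs]
      ring
    rw [e1]
    constructor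
    · intro h
      have h2 : R ^ 2 * ‖u‖ ^ 2 ≤ R ^ 2 * 1 := by linarith
      have h3 : ‖u‖ ^ 2 ≤ 1 := le_of_mul_le_mul_left h2 (by positivity)
      exact (sq_le_one_iff₀ (norm_nonneg _)).1 h3
    · intro h
      have h3 : ‖u‖ ^ 2 ≤ 1 := (sq_le_one_iff₀ (norm_nonneg _)).2 h
      have h2 : R ^ 2 * ‖u‖ ^ 2 ≤ R ^ 2 * 1 := mul_le_mul_of_nonneg_left h3 (by positivity)
      linarith
  refine ⟨T, ?_⟩
  ext x
  simp only [Set.mem_ofPred_eq, mem_image, mem_closedBall_zero_iff]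
  constructor
  · intro hx
    refine ⟨T.symm x, ?_, T.apply_symm_apply x⟩
    rw [← key, T.apply_symm_apply]
    exact hx
  · rintro ⟨u, hu, rfl⟩
    exact (key u).2 hu

/-- A star body all of whose `k`-sections are affine balls is an ellipsoid. -/
theorem ellipsoid_of_sections {n k : ℕ} (hk : 2 ≤ k) (hn : k ≤ n) {f : E n → ℝ} (hf : IsGauge f)
    (hq : ∀ F : E k →L[ℝ] E n, Iso F →
      ∃ (b : E k →ₗ[ℝ] E k →ₗ[ℝ] ℝ) (l : E k →ₗ[ℝ] ℝ), (∀ v w, b v w = b w v) ∧
        (∀ v, f (F v) * f (F (-v)) = b v v) ∧ ∀ v, f (F v) - f (F (-v)) = l v) :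
    ∃ A : E n ≃ᵃ[ℝ] E n, {x | f x ≤ 1} = A '' Metric.closedBall 0 1 := by
  obtain ⟨q, hqdef⟩ : ∃ q : E n → ℝ, ∀ v, q v = f v * f (-v) := ⟨_, fun _ => rfl⟩
  obtain ⟨l, hldef⟩ : ∃ l : E n → ℝ, ∀ v, l v = f v - f (-v) := ⟨_, fun _ => rfl⟩
  -- the two-dimensional information
  have two : ∀ v w : E n, ∃ F : E k →L[ℝ] E n, (∃ a, F a = v) ∧ (∃ c, F c = w) ∧
      ∃ (b : E k →ₗ[ℝ] E k →ₗ[ℝ] ℝ) (m : E k →ₗ[ℝ] ℝ), (∀ v w, b v w = b w v) ∧
        (∀ a, q (F a) = b a a) ∧ ∀ a, l (F a) = m a := by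
    intro v w
    obtain ⟨F, hF, hv, hw⟩ := exists_frame hk hn v w
    obtain ⟨b, m, hb, hb2, hm⟩ := hq F hF
    refine ⟨F, hv, hw, b, m, hb, fun a => ?_, fun a => ?_⟩
    · rw [hqdef, ← hb2, map_neg]
    · rw [hldef, ← hm, map_neg]
  have ladd : ∀ v w, l (v + w) = l v + l w := by
    intro v w
    obtain ⟨F, ⟨a, rfl⟩, ⟨c, rfl⟩, b, m, -, -, hm⟩ := two v w
    rw [← map_add, hm, hm, hm, map_add]
  have lsmul : ∀ (t : ℝ) v, l (t • v) = t * l v := by
    intro t v
    obtain ⟨F, ⟨a, rfl⟩, -, b, m, -, -, hm⟩ := two v v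
    rw [← map_smul, hm, hm, map_smul, smul_eq_mul]
  have par : ∀ v w, q (v + w) + q (v - w) = 2 * q v + 2 * q w := by
    intro v w
    obtain ⟨F, ⟨a, rfl⟩, ⟨c, rfl⟩, b, m, hb, hb2, -⟩ := two v w
    rw [← map_add, ← map_sub, hb2, hb2, hb2, hb2]
    simp only [map_add, map_sub, LinearMap.add_apply, LinearMap.sub_apply]
    ring
  have qneg : ∀ v, q (-v) = q v := by
    intro v
    rw [hqdef, hqdef, neg_neg, mul_comm]
  have Bsmul : ∀ (t : ℝ) v w, q (t • v + w) - q (t • v) - q w = t * (q (v + w) - q v - q w) := by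
    intro t v w
    obtain ⟨F, ⟨a, rfl⟩, ⟨c, rfl⟩, b, m, hb, hb2, -⟩ := two v w
    rw [← map_smul, ← map_add, ← map_add, hb2, hb2, hb2, hb2, hb2]
    simp only [map_add, map_smul, LinearMap.add_apply, LinearMap.smul_apply, smul_eq_mul]
    rw [hb c a]
    ring
  have three : ∀ v u w, q (v + u + w) + q v + q u + q w = q (v + u) + q (v + w) + q (u + w) := by
    intro v u w
    have p1 := par (v + u) w
    have p2 := par (v + w) u
    have p3 := par (u + w) v
    have p4 := par v (u - w)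
    have p5 := par u (w - v)
    have p6 := par w (v - u)
    have p7 := par u w
    have p8 := par w v
    have p9 := par v u
    have e1 : v + w + u = v + u + w := by abel
    have e2 : u + w + v = v + u + w := by abel
    have e3 : v + (u - w) = v + u - w := by abel
    have e4 : v - (u - w) = v + w - u := by abel
    have e5 : u + (w - v) = u + w - v := by abel
    have e6 : u - (w - v) = v + u - w := by abel
    have e7 : w + (v - u) = v + w - u := by abel
    have e8 : w - (v - u) = u + w - v := by abel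
    have e9 : w + v = v + w := by abel
    rw [e1] at p2
    rw [e2] at p3
    rw [e3, e4] at p4
    rw [e5, e6] at p5
    rw [e7, e8] at p6
    rw [e9] at p8
    linarith
  obtain ⟨B, hB⟩ : ∃ B : E n → E n → ℝ, ∀ v w, B v w = (q (v + w) - q v - q w) / 2 :=
    ⟨_, fun _ _ => rfl⟩
  have Bcomm : ∀ v w, B v w = B w v := by
    intro v w
    rw [hB, hB, add_comm w v]
    ring
  have Badd : ∀ v u w, B (v + u) w = B v w + B u w := by
    intro v u w
    rw [hB, hB, hB]
    have := three v u w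
    linarith
  have Bsm : ∀ (t : ℝ) v w, B (t • v) w = t * B v w := by
    intro t v w
    rw [hB, hB, Bsmul]
    ring
  let b : E n →ₗ[ℝ] E n →ₗ[ℝ] ℝ := LinearMap.mk₂ ℝ B Badd
    (fun t v w => by rw [Bsm, smul_eq_mul])
    (fun v w z => by rw [Bcomm, Badd, Bcomm w v, Bcomm z v])
    (fun t v w => by rw [Bcomm, Bsm, Bcomm w v, smul_eq_mul])
  let m : E n →ₗ[ℝ] ℝ :=
    { toFun := l
      map_add' := ladd
      map_smul' := fun t v => by rw [lsmul]; rfl }
  have hbB : ∀ v w, b v w = B v w := fun v w => rfl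
  have hbq : ∀ v, b v v = q v := by
    intro v
    rw [hbB, hB]
    have h1 := par v v
    have h0 : q (v - v) = 0 := by
      rw [sub_self, hqdef]
      have := hf.hom 0 le_rfl 0
      rw [zero_smul, zero_mul] at this
      rw [this, zero_mul]
    rw [h0] at h1
    linarith
  have hf0 : f 0 = 0 := by
    have := hf.hom 0 le_rfl 0
    rwa [zero_smul, zero_mul] at this
  have hfn : ∀ v, 0 ≤ f v := by
    intro v
    by_cases hv : v = 0
    · rw [hv, hf0]
    · exact (hf.pos v hv).le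
  obtain ⟨A, hA⟩ := ellipsoid_of_form b (fun v w => by rw [hbB, hbB, Bcomm])
    (fun v hv => by
      rw [hbq, hqdef]
      exact mul_pos (hf.pos v hv) (hf.pos _ (neg_ne_zero.2 hv))) m
  refine ⟨A, ?_⟩
  rw [← hA]
  ext x
  simp only [Set.mem_ofPred_eq]
  have hm : m x = l x := rfl
  rw [hbq, hm, hqdef, hldef]
  have h1 := hfn (-x)
  constructor
  · intro h
    nlinarith
  · intro h
    by_contra hc
    push Not at hc
    nlinarith

end Pool.Agent.SB
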