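import Mathlib
import Pool.Agent.NE.EvB
import Pool.Agent.SB.Defs

set_option autoImplicit false

open MeasureTheory Set
open scoped ENNReal ContDiff

namespace Pool.Agent.SB

/-- In odd dimension there is no smooth map of the cube that is homotopic to the identity and to minus
the identity through maps without zeros on the boundary. -/
theorem no_hairy_smooth {N : ℕ} (hN : Odd N) (Q : (Fin N → ℝ) → (Fin N → ℝ))
    (hQ : ContDiff ℝ ∞ Q) {ε : ℝ} (hε : 0 < ε)
    (hh : ∀ x : Fin N → ℝ, (∀ i, |x i| ≤ 1) → (∃ i, |x i| = 1) → ∀ t ∈ Icc (0 : ℝ) 1,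
      ε ≤ ‖(1 - t) • x + t • Q x‖)
    (hh' : ∀ x : Fin N → ℝ, (∀ i, |x i| ≤ 1) → (∃ i, |x i| = 1) → ∀ t ∈ Icc (0 : ℝ) 1,
      ε ≤ ‖(1 - t) • x + t • (-Q x)‖) : False := by
  classical
  have hN1 : 1 ≤ N := hN.pos
  have i0 : Fin N := ⟨0, hN1⟩
  -- ε ≤ 1
  have hε1 : ε ≤ 1 := by
    have h1 := hh (fun _ => (1 : ℝ)) (fun i => by norm_num) ⟨i0, by norm_num⟩ 0
      ⟨le_rfl, zero_le_one⟩
    refine h1.trans ?_
    have h2 : ((1 : ℝ) - 0) • (fun _ : Fin N => (1 : ℝ)) + (0 : ℝ) • Q (fun _ => 1) =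
        fun _ => (1 : ℝ) := by
      ext i
      simp
    rw [h2]
    refine (pi_norm_le_iff_of_nonneg zero_le_one).2 fun i => by norm_num
  let g : ContDiffBump (0 : Fin N → ℝ) := ⟨ε / 2, ε, by positivity, by linarith⟩
  set φ := g.normed volume with hφ
  have hφ0 : ∀ z, ε ≤ ‖z‖ → φ z = 0 := by
    intro z hz
    have h1 : Function.support φ = Metric.ball 0 g.rOut := g.support_normed_eq
    have h2 : z ∉ Function.support φ := by
      rw [h1, Metric.mem_ball, dist_zero_right, not_lt]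
      exact hz
    exact Function.notMem_support.1 h2
  have hφc : ContDiff ℝ 1 φ := g.contDiff_normed
  have hφi : ∫ z, φ z = 1 := g.integral_normed
  have hφn : ∀ z, φ (-z) = φ z := fun z => g.normed_neg (μ := volume) z
  have hK1 : ∫ x in Icc (-1 : Fin N → ℝ) 1, φ x = 1 := by
    rw [setIntegral_eq_integral_of_forall_compl_eq_zero, hφi]
    intro z hz
    refine hφ0 z ?_
    by_contra h
    push Not at h
    refine hz ?_
    have h1 : ∀ i, |z i| ≤ 1 := fun i => by
      have := norm_le_pi_norm z i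
      rw [Real.norm_eq_abs] at this
      linarith
    exact ⟨fun i => (abs_le.1 (h1 i)).1, fun i => (abs_le.1 (h1 i)).2⟩
  have e1 := NE.deg_integral hN1 Q hQ hε hh φ hφc hφ0
  have e2 := NE.deg_integral hN1 (fun x => -Q x) hQ.neg hε hh' φ hφc hφ0
  rw [hK1] at e1 e2
  have e3 : ∀ x, φ (-Q x) * (fderiv ℝ (fun x => -Q x) x).det =
      -(φ (Q x) * (fderiv ℝ Q x).det) := by
    intro x
    have h1 : fderiv ℝ (fun x => -Q x) x = -fderiv ℝ Q x := by
      exact fderiv_fun_neg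
    have h2 : (-fderiv ℝ Q x).det = -(fderiv ℝ Q x).det := by
      have h3 : ((-fderiv ℝ Q x : (Fin N → ℝ) →L[ℝ] (Fin N → ℝ)) :
          (Fin N → ℝ) →ₗ[ℝ] (Fin N → ℝ)) =
          (-1 : ℝ) • ((fderiv ℝ Q x : (Fin N → ℝ) →L[ℝ] (Fin N → ℝ)) :
            (Fin N → ℝ) →ₗ[ℝ] (Fin N → ℝ)) := by
        ext v
        simp
      unfold ContinuousLinearMap.det
      rw [h3, LinearMap.det_smul, Module.finrank_fin_fun, hN.neg_one_pow]
      ring
    rw [hφn, h1, h2]
    ring
  simp_rw [e3] at e2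
  rw [integral_neg, e1] at e2
  norm_num at e2

/-- In odd dimension there is no continuous map on the boundary of the cube that is homotopic to the
identity and to minus the identity through maps without zeros. -/
theorem no_hairy {N : ℕ} (hN : Odd N) (f : (Fin N → ℝ) → (Fin N → ℝ))
    (hf : ContinuousOn f (NE.bdry N))
    (hh : ∀ x ∈ NE.bdry N, ∀ t ∈ Icc (0 : ℝ) 1, (1 - t) • x + t • f x ≠ 0)
    (hh' : ∀ x ∈ NE.bdry N, ∀ t ∈ Icc (0 : ℝ) 1, (1 - t) • x + t • (-f x) ≠ 0) : False := by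
  classical
  have hN1 : 1 ≤ N := hN.pos
  have i0 : Fin N := ⟨0, hN1⟩
  have hK := NE.isCompact_bdry N
  have hne : (Icc (0 : ℝ) 1 ×ˢ NE.bdry N).Nonempty :=
    ⟨(0, 1), ⟨by norm_num, by norm_num⟩, fun i => by simp, i0, by simp⟩
  have low : ∀ f : (Fin N → ℝ) → (Fin N → ℝ), ContinuousOn f (NE.bdry N) →
      (∀ x ∈ NE.bdry N, ∀ t ∈ Icc (0 : ℝ) 1, (1 - t) • x + t • f x ≠ 0) →
      ∃ m : ℝ, 0 < m ∧ ∀ x ∈ NE.bdry N, ∀ t ∈ Icc (0 : ℝ) 1, m ≤ ‖(1 - t) • x + t • f x‖ := by
    intro f hf hh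
    have hcont : ContinuousOn (fun z : ℝ × (Fin N → ℝ) => ‖(1 - z.1) • z.2 + z.1 • f z.2‖)
        (Icc (0 : ℝ) 1 ×ˢ NE.bdry N) := by
      have h2 : ContinuousOn (fun z : ℝ × (Fin N → ℝ) => f z.2) (Icc (0 : ℝ) 1 ×ˢ NE.bdry N) :=
        hf.comp continuousOn_snd (fun z hz => hz.2)
      exact (((continuousOn_const.sub continuousOn_fst).smul continuousOn_snd).add
        (continuousOn_fst.smul h2)).norm
    obtain ⟨z0, hz0, hmin⟩ := (isCompact_Icc.prod hK).exists_isMinOn hne hcont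
    refine ⟨‖(1 - z0.1) • z0.2 + z0.1 • f z0.2‖, norm_pos_iff.2 (hh z0.2 hz0.2 z0.1 hz0.1), ?_⟩
    intro x hx t ht
    exact hmin (show (t, x) ∈ Icc (0 : ℝ) 1 ×ˢ NE.bdry N from ⟨ht, hx⟩)
  obtain ⟨m1, hm1, hl1⟩ := low f hf hh
  obtain ⟨m2, hm2, hl2⟩ := low (fun x => -f x) hf.neg hh'
  set m := min m1 m2 with hm
  have hmpos : 0 < m := lt_min hm1 hm2
  -- extension and smooth approximation
  obtain ⟨F, hF⟩ := ContinuousMap.exists_restrict_eq (s := NE.bdry N) hK.isClosed
    (⟨(NE.bdry N).domRestrict f, continuousOn_iff_continuous_domRestrict.1 hf⟩ :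
      C(NE.bdry N, Fin N → ℝ))
  have hFf : ∀ x ∈ NE.bdry N, F x = f x := by
    intro x hx
    exact congrArg (fun g : C(NE.bdry N, Fin N → ℝ) => g ⟨x, hx⟩) hF
  obtain ⟨Q, hQd, hQF, -⟩ := F.continuous.exists_contDiff_approx ⊤
    (ε := fun _ => m / 2) continuous_const (fun _ => by positivity)
  have hQf : ∀ x ∈ NE.bdry N, ‖Q x - f x‖ ≤ m / 2 := by
    intro x hx
    have := (hQF x).le
    rwa [dist_eq_norm, hFf x hx] at this
  have main : ∀ (f Q : (Fin N → ℝ) → (Fin N → ℝ)) (x : Fin N → ℝ), ‖Q x - f x‖ ≤ m / 2 →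
      ∀ t ∈ Icc (0 : ℝ) 1, m ≤ ‖(1 - t) • x + t • f x‖ →
        m / 2 ≤ ‖(1 - t) • x + t • Q x‖ := by
    intro f Q x hQ t ht h1
    have e : (1 - t) • x + t • Q x = ((1 - t) • x + t • f x) + t • (Q x - f x) := by
      rw [smul_sub]; abel
    rw [e]
    have h2 : ‖t • (Q x - f x)‖ ≤ m / 2 := by
      rw [norm_smul, Real.norm_eq_abs, abs_of_nonneg ht.1]
      calc t * ‖Q x - f x‖ ≤ 1 * ‖Q x - f x‖ :=
            mul_le_mul_of_nonneg_right ht.2 (norm_nonneg _)
        _ ≤ m / 2 := by rw [one_mul]; exact hQ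
    have h3 := norm_sub_norm_le ((1 - t) • x + t • f x) (-(t • (Q x - f x)))
    rw [norm_neg, sub_neg_eq_add] at h3
    linarith
  refine no_hairy_smooth hN Q hQd (ε := m / 2) (by positivity) ?_ ?_
  · intro x hx1 hx2 t ht
    have hx : x ∈ NE.bdry N := ⟨hx1, hx2⟩
    exact main f Q x (hQf x hx) t ht ((min_le_left _ _).trans (hl1 x hx t ht))
  · intro x hx1 hx2 t ht
    have hx : x ∈ NE.bdry N := ⟨hx1, hx2⟩
    refine main (fun x => -f x) (fun x => -Q x) x ?_ t ht
      ((min_le_right _ _).trans (hl2 x hx t ht))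
    have e : -Q x - -f x = -(Q x - f x) := by abel
    simp only [e, norm_neg]
    exact hQf x hx

/-- Hairy ball theorem: a continuous tangent field on the unit sphere of `ℝᵏ × ℝ`, `k` even, has a
zero. -/
theorem hairy {k : ℕ} (hk : Even k) (T1 : E k × ℝ → E k) (T2 : E k × ℝ → ℝ)
    (h1 : ContinuousOn T1 {z | ‖z.1‖ ^ 2 + z.2 ^ 2 = 1})
    (h2 : ContinuousOn T2 {z | ‖z.1‖ ^ 2 + z.2 ^ 2 = 1})
    (ht : ∀ z : E k × ℝ, ‖z.1‖ ^ 2 + z.2 ^ 2 = 1 → inner ℝ (T1 z) z.1 + T2 z * z.2 = 0) :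
    ∃ z : E k × ℝ, ‖z.1‖ ^ 2 + z.2 ^ 2 = 1 ∧ T1 z = 0 ∧ T2 z = 0 := by
  classical
  by_contra hcon
  push Not at hcon
  -- coordinates
  let a : (Fin (k + 1) → ℝ) → E k := fun x => WithLp.toLp 2 (fun i : Fin k => x i.succ)
  let r : (Fin (k + 1) → ℝ) → ℝ := fun x => Real.sqrt (‖a x‖ ^ 2 + x 0 ^ 2)
  let u : (Fin (k + 1) → ℝ) → E k × ℝ := fun x => ((r x)⁻¹ • a x, (r x)⁻¹ * x 0)
  let f : (Fin (k + 1) → ℝ) → (Fin (k + 1) → ℝ) :=
    fun x => Fin.cons (T2 (u x)) (fun i => T1 (u x) i)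
  have ha : Continuous a := by
    refine (PiLp.continuous_toLp 2 _).comp ?_
    exact continuous_pi fun i => continuous_apply i.succ
  have hr : Continuous r := by
    exact Real.continuous_sqrt.comp ((ha.norm.pow 2).add ((continuous_apply 0).pow 2))
  have hr2 : ∀ x, r x ^ 2 = ‖a x‖ ^ 2 + x 0 ^ 2 := fun x => Real.sq_sqrt (by positivity)
  have hrpos : ∀ x ∈ NE.bdry (k + 1), 0 < r x := by
    rintro x ⟨-, i, hi⟩
    apply Real.sqrt_pos.2
    have hxi : x i ≠ 0 := by
      intro h; rw [h] at hi; simp at hi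
    rcases Fin.eq_zero_or_eq_succ i with h0 | ⟨j, hj⟩
    · subst h0
      have : 0 < x 0 ^ 2 := by positivity
      have := sq_nonneg ‖a x‖
      linarith
    · subst hj
      have hne : a x ≠ 0 := by
        intro h
        apply hxi
        have := congrArg (fun v : E k => v j) h
        simpa [a] using this
      have : 0 < ‖a x‖ ^ 2 := by
        have := norm_pos_iff.2 hne
        positivity
      have := sq_nonneg (x 0)
      linarith
  have hus : ∀ x ∈ NE.bdry (k + 1), ‖(u x).1‖ ^ 2 + (u x).2 ^ 2 = 1 := by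
    intro x hx
    have hp := hrpos x hx
    simp only [u]
    rw [norm_smul, Real.norm_eq_abs, abs_of_pos (inv_pos.2 hp), mul_pow, mul_pow, ← mul_add,
      ← hr2 x, inv_pow, inv_mul_cancel₀ (by positivity)]
  have huc : ContinuousOn u (NE.bdry (k + 1)) := by
    have hinv : ContinuousOn (fun x => (r x)⁻¹) (NE.bdry (k + 1)) :=
      hr.continuousOn.inv₀ (fun x hx => (hrpos x hx).ne')
    exact (hinv.smul ha.continuousOn).prodMk (hinv.mul (continuous_apply 0).continuousOn)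
  have hmaps : MapsTo u (NE.bdry (k + 1)) {z | ‖z.1‖ ^ 2 + z.2 ^ 2 = 1} := fun x hx => hus x hx
  have hfc : ContinuousOn f (NE.bdry (k + 1)) := by
    rw [continuousOn_pi]
    intro i
    refine Fin.cases ?_ (fun j => ?_) i
    · have h : ContinuousOn (fun x => T2 (u x)) (NE.bdry (k + 1)) := h2.comp huc hmaps
      simpa only [f, Fin.cons_zero] using h
    · have h := h1.comp huc hmaps
      have h' : ContinuousOn (fun x => (T1 (u x)) j) (NE.bdry (k + 1)) := by
        have hc : Continuous (fun v : E k => v j) := by fun_prop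
        exact hc.comp_continuousOn h
      simpa only [f, Fin.cons_succ] using h'
  -- no zeros on the homotopies
  have key : ∀ x ∈ NE.bdry (k + 1), ∀ s : ℝ, s ≠ 0 → ∀ t : ℝ,
      (1 - t) • x + (t * s) • f x ≠ 0 := by
    intro x hx s hs t h0
    have hp := hrpos x hx
    have e0 : (1 - t) * x 0 + (t * s) * T2 (u x) = 0 := by
      have := congrFun h0 0
      simpa [f] using this
    have e1 : (1 - t) • a x + (t * s) • T1 (u x) = 0 := by
      ext i
      have := congrFun h0 i.succ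
      simpa [f, a] using this
    have h3 : inner ℝ ((1 - t) • a x + (t * s) • T1 (u x)) (a x) +
        ((1 - t) * x 0 + (t * s) * T2 (u x)) * x 0 = 0 := by
      rw [e0, e1]; simp
    rw [inner_add_left, real_inner_smul_left, real_inner_smul_left,
      real_inner_self_eq_norm_sq] at h3
    have h4 : inner ℝ (T1 (u x)) (a x) + T2 (u x) * x 0 = 0 := by
      have h := ht (u x) (hus x hx)
      have e : inner ℝ (T1 (u x)) (u x).1 = (r x)⁻¹ * inner ℝ (T1 (u x)) (a x) := by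
        simp only [u]
        rw [real_inner_smul_right]
      have e' : T2 (u x) * (u x).2 = (r x)⁻¹ * (T2 (u x) * x 0) := by
        simp only [u]; ring
      rw [e, e', ← mul_add] at h
      rcases mul_eq_zero.1 h with h | h
      · exact absurd h (inv_ne_zero hp.ne')
      · exact h
    have h5 : (1 - t) * r x ^ 2 = 0 := by
      rw [hr2]
      linear_combination h3 - t * s * h4
    have ht1 : t = 1 := by
      rcases mul_eq_zero.1 h5 with h | h
      · linarith
      · exact absurd h (by positivity)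
    subst ht1
    refine hcon (u x) (hus x hx) ?_ ?_
    · simpa [hs] using e1
    · simpa [hs] using e0
  refine no_hairy (N := k + 1) hk.add_one f hfc ?_ ?_
  · intro x hx t _ h
    refine key x hx 1 one_ne_zero t ?_
    rw [mul_one]
    exact h
  · intro x hx t _ h
    refine key x hx (-1) (by norm_num) t ?_
    rw [mul_neg_one, neg_smul, ← smul_neg]
    exact h

end Pool.Agent.SB
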