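import Mathlib
import Pool.Agent.SB.Defs
import Pool.Agent.SB.Hairy

set_option autoImplicit false

open Set Metric

namespace Pool.Agent.SB

/-- The extension of a homotopy to the closed unit ball. -/
noncomputable def ntaW {k : ℕ} (W : ℝ → E k → E k) (w : E k) (y : E k) : E k :=
  if ‖y‖ ≤ 1 / 2 then w else W (2 * ‖y‖ - 1) (‖y‖⁻¹ • y)

theorem ntaW_continuousOn {k : ℕ} (W : ℝ → E k → E k)
    (hW : ContinuousOn (fun z : ℝ × E k => W z.1 z.2) (Icc (0 : ℝ) 1 ×ˢ sphere (0 : E k) 1))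
    (w : E k) (h0 : ∀ u ∈ sphere (0 : E k) 1, W 0 u = w) :
    ContinuousOn (ntaW W w) (closedBall (0 : E k) 1) := by
  have hcov : closedBall (0 : E k) 1 ⊆ {y : E k | ‖y‖ ≤ 1 / 2} ∪ {y : E k | 1 / 2 ≤ ‖y‖ ∧ ‖y‖ ≤ 1} := by
    intro y hy
    rw [mem_closedBall_zero_iff] at hy
    rcases le_total ‖y‖ (1 / 2) with h | h
    · exact Or.inl h
    · exact Or.inr ⟨h, hy⟩
  refine ContinuousOn.mono ?_ hcov
  refine ContinuousOn.union_of_isClosed ?_ ?_ ?_ ?_
  · refine (continuousOn_const (c := w)).congr ?_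
    intro y hy
    have hy' : ‖y‖ ≤ 1 / 2 := hy
    simp only [ntaW]
    rw [if_pos hy']
  · have hc : ContinuousOn (fun y : E k => W (2 * ‖y‖ - 1) (‖y‖⁻¹ • y))
        {y : E k | 1 / 2 ≤ ‖y‖ ∧ ‖y‖ ≤ 1} := by
      have hinv : ContinuousOn (fun y : E k => ‖y‖⁻¹) {y : E k | 1 / 2 ≤ ‖y‖ ∧ ‖y‖ ≤ 1} := by
        refine ContinuousOn.inv₀ (f := fun y : E k => ‖y‖) continuous_norm.continuousOn ?_
        intro y hy
        have h12 : (1 : ℝ) / 2 ≤ ‖y‖ := hy.1
        have hpos : (0 : ℝ) < ‖y‖ := by linarith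
        exact hpos.ne'
      have hg : ContinuousOn (fun y : E k => ((2 * ‖y‖ - 1, ‖y‖⁻¹ • y) : ℝ × E k))
          {y : E k | 1 / 2 ≤ ‖y‖ ∧ ‖y‖ ≤ 1} := by
        refine ContinuousOn.prodMk ?_ ?_
        · exact (continuous_const.mul continuous_norm |>.sub continuous_const).continuousOn
        · exact ContinuousOn.smul hinv continuousOn_id
      refine hW.comp hg ?_
      intro y hy
      have h1 : (1 : ℝ) / 2 ≤ ‖y‖ := hy.1
      have h2 : ‖y‖ ≤ 1 := hy.2
      have hpos : (0 : ℝ) < ‖y‖ := by linarith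
      refine ⟨⟨by simp only; linarith, by simp only; linarith⟩, ?_⟩
      simp only [mem_sphere_iff_norm, sub_zero, norm_smul, norm_inv, norm_norm]
      exact inv_mul_cancel₀ hpos.ne'
    refine hc.congr ?_
    intro y hy
    have h1 : (1 : ℝ) / 2 ≤ ‖y‖ := hy.1
    simp only [ntaW]
    split_ifs with h
    · have he : ‖y‖ = 1 / 2 := le_antisymm h h1
      have hpos : (0 : ℝ) < ‖y‖ := by linarith
      have e0 : 2 * ‖y‖ - 1 = 0 := by rw [he]; norm_num
      rw [e0]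
      refine (h0 _ ?_).symm
      simp only [mem_sphere_iff_norm, sub_zero, norm_smul, norm_inv, norm_norm]
      exact inv_mul_cancel₀ hpos.ne'
    · rfl
  · exact isClosed_le continuous_norm continuous_const
  · exact (isClosed_le continuous_const continuous_norm).inter
      (isClosed_le continuous_norm continuous_const)

/-- `k` even: the map `u ↦ 2 ⟪u, f⟫ u - f` of the sphere is not null-homotopic in `ℝᵏ \ 0`. -/
theorem no_null_even {k : ℕ} (hk : Even k) (hk2 : 2 ≤ k) (W : ℝ → E k → E k)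
    (hW : ContinuousOn (fun z : ℝ × E k => W z.1 z.2) (Icc (0 : ℝ) 1 ×ˢ sphere (0 : E k) 1))
    (w f : E k) (h0 : ∀ u ∈ sphere (0 : E k) 1, W 0 u = w)
    (h1 : ∀ u ∈ sphere (0 : E k) 1, W 1 u = (2 * inner ℝ u f) • u - f)
    (hne : ∀ t ∈ Icc (0 : ℝ) 1, ∀ u ∈ sphere (0 : E k) 1, W t u ≠ 0) : False := by
  classical
  -- a point of the sphere
  obtain ⟨u₀, hu₀⟩ : ∃ u₀ : E k, u₀ ∈ sphere (0 : E k) 1 := by
    refine ⟨EuclideanSpace.single (⟨0, by omega⟩ : Fin k) (1 : ℝ), ?_⟩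
    simp
  have hw : w ≠ 0 := by
    rw [← h0 u₀ hu₀]
    exact hne 0 ⟨le_refl _, zero_le_one⟩ u₀ hu₀
  have hf : f ≠ 0 := by
    intro hf
    have := hne 1 ⟨zero_le_one, le_refl _⟩ u₀ hu₀
    rw [h1 u₀ hu₀, hf] at this
    simp at this
  have hωc := ntaW_continuousOn W hW w h0
  have hωne : ∀ y : E k, ‖y‖ ≤ 1 → ntaW W w y ≠ 0 := by
    intro y hy
    simp only [ntaW]
    split_ifs with h
    · exact hw
    · push Not at h
      have hpos : (0 : ℝ) < ‖y‖ := by linarith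
      refine hne _ ⟨by linarith, by linarith⟩ _ ?_
      simp only [mem_sphere_iff_norm, sub_zero, norm_smul, norm_inv, norm_norm]
      exact inv_mul_cancel₀ hpos.ne'
  have hω1 : ∀ y : E k, ‖y‖ = 1 → ntaW W w y = (2 * inner ℝ y f) • y - f := by
    intro y hy
    have hn : ¬ ‖y‖ ≤ 1 / 2 := by rw [hy]; norm_num
    simp only [ntaW]
    rw [if_neg hn, hy]
    have : (2 : ℝ) * 1 - 1 = 1 := by norm_num
    rw [this]
    simp only [inv_one, one_smul]
    exact h1 y (by simp [hy])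
  -- the field
  let T1 : E k × ℝ → E k := fun z =>
    if 0 ≤ z.2 then ntaW W w z.1 - (inner ℝ z.1 (ntaW W w z.1) / (1 + z.2)) • z.1
    else -f + (inner ℝ z.1 f / (1 - z.2)) • z.1
  let T2 : E k × ℝ → ℝ := fun z =>
    if 0 ≤ z.2 then - inner ℝ z.1 (ntaW W w z.1) else - inner ℝ z.1 f
  have hb : ∀ z : E k × ℝ, ‖z.1‖ ^ 2 + z.2 ^ 2 = 1 → ‖z.1‖ ≤ 1 := by
    intro z hz
    nlinarith [norm_nonneg z.1, sq_nonneg z.2]
  -- the two formulas agree on the equator
  have heq1 : ∀ z : E k × ℝ, ‖z.1‖ ^ 2 + z.2 ^ 2 = 1 → z.2 = 0 →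
      ntaW W w z.1 - (inner ℝ z.1 (ntaW W w z.1) / (1 + z.2)) • z.1
        = -f + (inner ℝ z.1 f / (1 - z.2)) • z.1 ∧
      - inner ℝ z.1 (ntaW W w z.1) = - inner ℝ z.1 f := by
    intro z hz h
    have hn : ‖z.1‖ = 1 := by
      rw [h] at hz
      have : ‖z.1‖ ^ 2 = 1 := by simpa using hz
      nlinarith [norm_nonneg z.1]
    have hin : inner ℝ z.1 (ntaW W w z.1) = inner ℝ z.1 f := by
      rw [hω1 _ hn, inner_sub_right, inner_smul_right, real_inner_self_eq_norm_sq, hn]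
      ring
    refine ⟨?_, by rw [hin]⟩
    rw [hin, hω1 _ hn, h]
    simp only [add_zero, sub_zero, div_one]
    rw [two_mul, add_smul]
    abel
  have hcov : {z : E k × ℝ | ‖z.1‖ ^ 2 + z.2 ^ 2 = 1} ⊆
      {z : E k × ℝ | ‖z.1‖ ^ 2 + z.2 ^ 2 = 1 ∧ 0 ≤ z.2} ∪
        {z : E k × ℝ | ‖z.1‖ ^ 2 + z.2 ^ 2 = 1 ∧ z.2 ≤ 0} := by
    intro z hz
    rcases le_total 0 z.2 with h | h
    · exact Or.inl ⟨hz, h⟩
    · exact Or.inr ⟨hz, h⟩
  have hclS : IsClosed {z : E k × ℝ | ‖z.1‖ ^ 2 + z.2 ^ 2 = 1} :=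
    isClosed_eq (by fun_prop) continuous_const
  have hcl1 : IsClosed {z : E k × ℝ | ‖z.1‖ ^ 2 + z.2 ^ 2 = 1 ∧ 0 ≤ z.2} :=
    hclS.inter (isClosed_le continuous_const continuous_snd)
  have hcl2 : IsClosed {z : E k × ℝ | ‖z.1‖ ^ 2 + z.2 ^ 2 = 1 ∧ z.2 ≤ 0} :=
    hclS.inter (isClosed_le continuous_snd continuous_const)
  have hωz : ContinuousOn (fun z : E k × ℝ => ntaW W w z.1)
      {z : E k × ℝ | ‖z.1‖ ^ 2 + z.2 ^ 2 = 1 ∧ 0 ≤ z.2} := by
    refine hωc.comp continuousOn_fst ?_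
    intro z hz
    rw [mem_closedBall_zero_iff]
    exact hb z hz.1
  have hin1 : ContinuousOn (fun z : E k × ℝ => inner ℝ z.1 (ntaW W w z.1))
      {z : E k × ℝ | ‖z.1‖ ^ 2 + z.2 ^ 2 = 1 ∧ 0 ≤ z.2} :=
    ContinuousOn.inner continuousOn_fst hωz
  have hin2 : ContinuousOn (fun z : E k × ℝ => inner ℝ z.1 f)
      {z : E k × ℝ | ‖z.1‖ ^ 2 + z.2 ^ 2 = 1 ∧ z.2 ≤ 0} :=
    ContinuousOn.inner continuousOn_fst continuousOn_const
  have hT1 : ContinuousOn T1 {z | ‖z.1‖ ^ 2 + z.2 ^ 2 = 1} := by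
    refine ContinuousOn.mono ?_ hcov
    refine ContinuousOn.union_of_isClosed ?_ ?_ hcl1 hcl2
    · have : ContinuousOn (fun z : E k × ℝ =>
          ntaW W w z.1 - (inner ℝ z.1 (ntaW W w z.1) / (1 + z.2)) • z.1)
          {z : E k × ℝ | ‖z.1‖ ^ 2 + z.2 ^ 2 = 1 ∧ 0 ≤ z.2} := by
        refine hωz.sub (ContinuousOn.smul (ContinuousOn.div hin1
          (continuousOn_const.add continuousOn_snd) ?_) continuousOn_fst)
        intro z hz
        have : 0 ≤ z.2 := hz.2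
        show (1 : ℝ) + z.2 ≠ 0
        linarith
      refine this.congr ?_
      intro z hz
      simp only [T1]
      rw [if_pos hz.2]
    · have : ContinuousOn (fun z : E k × ℝ => -f + (inner ℝ z.1 f / (1 - z.2)) • z.1)
          {z : E k × ℝ | ‖z.1‖ ^ 2 + z.2 ^ 2 = 1 ∧ z.2 ≤ 0} := by
        refine continuousOn_const.add (ContinuousOn.smul (ContinuousOn.div
          hin2 (continuousOn_const.sub continuousOn_snd) ?_) continuousOn_fst)
        intro z hz
        have : z.2 ≤ 0 := hz.2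
        show (1 : ℝ) - z.2 ≠ 0
        linarith
      refine this.congr ?_
      intro z hz
      simp only [T1]
      split_ifs with h
      · exact (heq1 z hz.1 (le_antisymm hz.2 h)).1
      · rfl
  have hT2 : ContinuousOn T2 {z | ‖z.1‖ ^ 2 + z.2 ^ 2 = 1} := by
    refine ContinuousOn.mono ?_ hcov
    refine ContinuousOn.union_of_isClosed ?_ ?_ hcl1 hcl2
    · have : ContinuousOn (fun z : E k × ℝ => - inner ℝ z.1 (ntaW W w z.1))
          {z : E k × ℝ | ‖z.1‖ ^ 2 + z.2 ^ 2 = 1 ∧ 0 ≤ z.2} :=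
        hin1.neg
      refine this.congr ?_
      intro z hz
      simp only [T2]
      rw [if_pos hz.2]
    · have : ContinuousOn (fun z : E k × ℝ => - inner ℝ z.1 f)
          {z : E k × ℝ | ‖z.1‖ ^ 2 + z.2 ^ 2 = 1 ∧ z.2 ≤ 0} :=
        hin2.neg
      refine this.congr ?_
      intro z hz
      simp only [T2]
      split_ifs with h
      · exact (heq1 z hz.1 (le_antisymm hz.2 h)).2
      · rfl
  have htan : ∀ z : E k × ℝ, ‖z.1‖ ^ 2 + z.2 ^ 2 = 1 → inner ℝ (T1 z) z.1 + T2 z * z.2 = 0 := by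
    intro z hz
    simp only [T1, T2]
    split_ifs with h
    · have hp : (1 + z.2) ≠ 0 := by linarith
      rw [inner_sub_left, inner_smul_left, real_inner_self_eq_norm_sq,
        real_inner_comm z.1 (ntaW W w z.1)]
      have hn : ‖z.1‖ ^ 2 = 1 - z.2 ^ 2 := by linarith
      rw [hn]
      simp only [conj_trivial]
      field_simp
      ring
    · push Not at h
      have hp : (1 - z.2) ≠ 0 := by linarith
      rw [inner_add_left, inner_smul_left, real_inner_self_eq_norm_sq, inner_neg_left,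
        real_inner_comm z.1 f]
      have hn : ‖z.1‖ ^ 2 = 1 - z.2 ^ 2 := by linarith
      rw [hn]
      simp only [conj_trivial]
      field_simp
      ring
  obtain ⟨z, hz, hz1, hz2⟩ := hairy hk T1 T2 hT1 hT2 htan
  simp only [T1] at hz1
  simp only [T2] at hz2
  by_cases h : 0 ≤ z.2
  · rw [if_pos h] at hz1 hz2
    have e : inner ℝ z.1 (ntaW W w z.1) = 0 := by linarith
    rw [e] at hz1
    simp only [zero_div, zero_smul, sub_zero] at hz1
    exact hωne z.1 (hb z hz) hz1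
  · rw [if_neg h] at hz1 hz2
    have e : inner ℝ z.1 f = 0 := by linarith
    rw [e] at hz1
    simp only [zero_div, zero_smul, add_zero, neg_eq_zero] at hz1
    exact hf hz1

end Pool.Agent.SB
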