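import Mathlib
import Pool.Agent.NE.EvB
import Pool.Agent.SB.Deg2

set_option autoImplicit false

open MeasureTheory Set
open scoped ENNReal ContDiff
open Pool.Agent.NE (bdry isCompact_bdry local_degree)

namespace Pool.Agent.SB

theorem mem_cube_iff {N : ℕ} (x : Fin N → ℝ) : x ∈ Icc (-1 : Fin N → ℝ) 1 ↔ ∀ i, |x i| ≤ 1 := by
  simp only [mem_Icc, Pi.le_def, abs_le]
  constructor
  · rintro ⟨h1, h2⟩ i
    exact ⟨h1 i, h2 i⟩
  · intro h
    exact ⟨fun i => (h i).1, fun i => (h i).2⟩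

theorem bdry_subset_cube {N : ℕ} {x : Fin N → ℝ} (hx : x ∈ bdry N) :
    x ∈ Icc (-1 : Fin N → ℝ) 1 := (mem_cube_iff x).2 hx.1

/-- smooth symmetric approximation on the boundary of the cube -/
theorem sym_approx {N : ℕ} (s : Fin N → ℝ) (hs : ∀ i, s i = 1 ∨ s i = -1)
    (G : (Fin N → ℝ) → (Fin N → ℝ)) (hG : Continuous G)
    (hsym : ∀ x ∈ bdry N, G (fun i => s i * x i) = G x) {η : ℝ} (hη : 0 < η) :
    ∃ Q : (Fin N → ℝ) → (Fin N → ℝ), ContDiff ℝ ∞ Q ∧ (∀ x, Q (fun i => s i * x i) = Q x) ∧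
      ∀ x ∈ bdry N, ‖Q x - G x‖ ≤ η := by
  have habs : ∀ i (a : ℝ), |s i * a| = |a| := by
    intro i a
    rcases hs i with h | h <;> simp [h]
  have hsb : ∀ x ∈ bdry N, (fun i => s i * x i) ∈ bdry N := by
    rintro x ⟨h1, i, hi⟩
    exact ⟨fun j => by rw [habs]; exact h1 j, i, by rw [habs]; exact hi⟩
  have hss : ∀ i, s i * s i = 1 := by
    intro i
    rcases hs i with h | h <;> simp [h]
  obtain ⟨Q0, hQ0, hQF, -⟩ := hG.exists_contDiff_approx ⊤
    (ε := fun _ => η) continuous_const (fun _ => by positivity)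
  set S : (Fin N → ℝ) → (Fin N → ℝ) := fun x i => s i * x i with hS
  have hSd : ContDiff ℝ ∞ S := by
    rw [contDiff_pi]
    intro i
    exact contDiff_const.mul (contDiff_apply ℝ ℝ i)
  have hSS : ∀ x, S (S x) = x := by
    intro x; funext i
    simp only [hS]
    rw [← mul_assoc, hss, one_mul]
  set Q : (Fin N → ℝ) → (Fin N → ℝ) := fun x => (1 / 2 : ℝ) • (Q0 x + Q0 (S x)) with hQ
  have hQd : ContDiff ℝ ∞ Q := by
    have h := hQ0.add (hQ0.comp hSd)
    exact h.const_smul (1 / 2 : ℝ)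
  have hQs : ∀ x, Q (S x) = Q x := by
    intro x
    simp only [hQ, hSS]
    rw [add_comm]
  refine ⟨Q, hQd, hQs, fun x hx => ?_⟩
  have h1 : ‖Q0 x - G x‖ ≤ η := by
    have := (hQF x).le
    rwa [dist_eq_norm] at this
  have h2 : ‖Q0 (S x) - G x‖ ≤ η := by
    have := (hQF (S x)).le
    rw [dist_eq_norm] at this
    rwa [show G (S x) = G x from hsym x hx] at this
  have e : Q x - G x = (1 / 2 : ℝ) • ((Q0 x - G x) + (Q0 (S x) - G x)) := by
    simp only [hQ]
    funext i
    simp only [Pi.smul_apply, Pi.add_apply, Pi.sub_apply, smul_eq_mul]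
    ring
  rw [e, norm_smul]
  have := norm_add_le (Q0 x - G x) (Q0 (S x) - G x)
  rw [Real.norm_eq_abs, abs_of_pos (by norm_num : (0 : ℝ) < 1 / 2)]
  linarith

/-- parity: a smooth symmetric map cannot have degree one -/
theorem sym_parity {N : ℕ} (s : Fin N → ℝ) (hs : ∀ i, s i = 1 ∨ s i = -1)
    (hs' : ∃ i, s i = -1) (Q : (Fin N → ℝ) → (Fin N → ℝ)) (hQ : ContDiff ℝ ∞ Q)
    (hsym : ∀ x : Fin N → ℝ, Q (fun i => s i * x i) = Q x) {ε : ℝ} (hε : 0 < ε)
    (hb : ∀ x : Fin N → ℝ, (∀ i, |x i| ≤ 1) → (∃ i, |x i| = 1) → ε ≤ ‖Q x‖)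
    (hdeg1 : ∀ φ : (Fin N → ℝ) → ℝ, ContDiff ℝ 1 φ → (∀ z, ε ≤ ‖z‖ → φ z = 0) →
      ∫ x in Icc (-1 : Fin N → ℝ) 1, φ (Q x) * (fderiv ℝ Q x).det = ∫ z, φ z) : False := by
  classical
  obtain ⟨i0, hi0⟩ := hs'
  have habs : ∀ i, |s i| = 1 := by
    intro i
    rcases hs i with h | h <;> rw [h] <;> norm_num
  have hss : ∀ i, s i * s i = 1 := by
    intro i
    rcases hs i with h | h <;> rw [h] <;> norm_num
  -- a regular value
  set crit : Set (Fin N → ℝ) := {x | (fderiv ℝ Q x).det = 0} with hcrit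
  have hnull : volume (Q '' crit) = 0 :=
    addHaar_image_eq_zero_of_det_fderivWithin_eq_zero volume
      (fun x _ => ((hQ.differentiable (by simp)) x).hasFDerivAt.hasFDerivWithinAt)
      (fun x hx => hx)
  obtain ⟨y, hyb, hyc⟩ : ∃ y ∈ Metric.ball (0 : Fin N → ℝ) ε, y ∉ Q '' crit := by
    by_contra h
    push Not at h
    have h1 : volume (Metric.ball (0 : Fin N → ℝ) ε) ≤ volume (Q '' crit) := measure_mono h
    rw [hnull] at h1
    exact absurd (Metric.measure_ball_pos volume (0 : Fin N → ℝ) hε) (not_lt.2 h1)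
  have hreg : ∀ x : Fin N → ℝ, (∀ i, |x i| ≤ 1) → Q x = y → (fderiv ℝ Q x).det ≠ 0 :=
    fun x _ hxy h0 => hyc ⟨x, h0, hxy⟩
  obtain ⟨P, φ, hP, hφc, hφ0, hφi, hint⟩ := local_degree Q hQ hε hb y (by simpa using hyb) hreg
  have hdeg := hdeg1 φ (hφc.of_le (by simp)) hφ0
  rw [hint, hφi] at hdeg
  -- the symmetry
  set S : (Fin N → ℝ) →L[ℝ] (Fin N → ℝ) :=
    ContinuousLinearMap.pi fun i => s i • ContinuousLinearMap.proj i with hS
  have hSa : ∀ x : Fin N → ℝ, S x = fun i => s i * x i := by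
    intro x
    ext i
    simp [hS]
  have hQS : ∀ x, fderiv ℝ Q x = (fderiv ℝ Q (S x)).comp S := by
    intro x
    have h1 : HasFDerivAt (fun x => Q (S x)) ((fderiv ℝ Q (S x)).comp S) x :=
      ((hQ.differentiable (by simp)) (S x)).hasFDerivAt.comp x S.hasFDerivAt
    have h2 : (fun x => Q (S x)) = Q := by
      funext x
      rw [hSa x, hsym x]
    rw [h2] at h1
    exact h1.fderiv
  have hfix : ∀ x ∈ P, S x ≠ x := by
    intro x hx h
    have hdet := hreg x ((hP x).1 hx).1 ((hP x).1 hx).2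
    have h1 := hQS x
    rw [h] at h1
    have h2 : fderiv ℝ Q x (Pi.single i0 1) = 0 := by
      have h3 : S (Pi.single i0 1) = -Pi.single i0 1 := by
        rw [hSa]
        ext j
        by_cases hj : j = i0
        · subst hj
          simp [hi0]
        · simp [hj]
      have h4 : fderiv ℝ Q x (Pi.single i0 1) = fderiv ℝ Q x (S (Pi.single i0 1)) := by
        conv_lhs => rw [h1]
        rfl
      rw [h3, map_neg] at h4
      ext j
      have h5 := congrFun h4 j
      simp only [Pi.neg_apply] at h5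
      simp only [Pi.zero_apply]
      linarith
    have h6 : (fderiv ℝ Q x).toContinuousLinearEquivOfDetNeZero hdet (Pi.single i0 1) =
        (fderiv ℝ Q x).toContinuousLinearEquivOfDetNeZero hdet 0 := by
      rw [map_zero, ContinuousLinearMap.toContinuousLinearEquivOfDetNeZero_apply]
      exact h2
    have h7 := ((fderiv ℝ Q x).toContinuousLinearEquivOfDetNeZero hdet).injective h6
    have h8 := congrFun h7 i0
    simp at h8
  have hSP : ∀ x ∈ P, S x ∈ P := by
    intro x hx
    obtain ⟨h1, h2⟩ := (hP x).1 hx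
    refine (hP _).2 ⟨fun i => ?_, ?_⟩
    · rw [hSa]
      simp only
      rw [abs_mul, habs i, one_mul]
      exact h1 i
    · rw [hSa, hsym, h2]
  have hSS : ∀ x, S (S x) = x := by
    intro x
    rw [hSa, hSa]
    ext i
    simp only
    rw [← mul_assoc, hss, one_mul]
  -- parity
  have hZ : ∑ x ∈ P, ((SignType.sign ((fderiv ℝ Q x).det) : SignType) : ℤ) = 1 := by
    exact_mod_cast hdeg
  have hZ2 : ∑ x ∈ P, (1 : ZMod 2) = 1 := by
    have h1 := congrArg (Int.cast : ℤ → ZMod 2) hZ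
    rw [Int.cast_sum, Int.cast_one] at h1
    have h9 : ∀ x ∈ P, (1 : ZMod 2) =
        (((SignType.sign ((fderiv ℝ Q x).det) : SignType) : ℤ) : ZMod 2) := by
      intro x hx
      have hdet := hreg x ((hP x).1 hx).1 ((hP x).1 hx).2
      rcases lt_or_gt_of_ne hdet with h2 | h2
      · rw [sign_neg h2]
        decide
      · rw [sign_pos h2]
        decide
    rw [Finset.sum_congr rfl h9, h1]
  have hZ0 : ∑ x ∈ P, (1 : ZMod 2) = 0 := by
    refine Finset.sum_involution (fun x _ => S x) (fun x _ => by decide) (fun x hx _ => hfix x hx)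
      (fun x hx => hSP x hx) (fun x _ => hSS x)
  rw [hZ0] at hZ2
  exact absurd hZ2 (by decide)

/-- A continuous map of the cube with exactly one zero `p`, in the interior, which is positive near
`p`, cannot be invariant under a nontrivial change of signs of the coordinates on the boundary. -/
theorem no_sym_solid {N : ℕ} (s : Fin N → ℝ) (hs : ∀ i, s i = 1 ∨ s i = -1)
    (hs' : ∃ i, s i = -1) (e : (Fin N → ℝ) → (Fin N → ℝ))
    (he : ContinuousOn e (Icc (-1 : Fin N → ℝ) 1))
    (hsym : ∀ x ∈ bdry N, e (fun i => s i * x i) = e x)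
    (p : Fin N → ℝ) (hp : ∀ i, |p i| < 1) {δ : ℝ} (hδ : 0 < δ)
    (hpos : ∀ x ∈ Icc (-1 : Fin N → ℝ) 1, ‖x - p‖ ≤ δ → x ≠ p → 0 < ∑ i, e x i * (x i - p i))
    (hne : ∀ x ∈ Icc (-1 : Fin N → ℝ) 1, x ≠ p → e x ≠ 0) : False := by
  classical
  have hN : 1 ≤ N := by
    obtain ⟨i0, -⟩ := hs'
    have := i0.pos
    omega
  set K : Set (Fin N → ℝ) := Icc (-1 : Fin N → ℝ) 1 with hK
  have hKc : IsCompact K := isCompact_Icc
  have habs : ∀ i (a : ℝ), |s i * a| = |a| := by
    intro i a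
    rcases hs i with h | h <;> simp [h]
  have hsb : ∀ x ∈ bdry N, (fun i => s i * x i) ∈ bdry N := by
    rintro x ⟨h1, i, hi⟩
    exact ⟨fun j => by rw [habs]; exact h1 j, i, by rw [habs]; exact hi⟩
  -- a small ball in the open cube
  set U0 : Set (Fin N → ℝ) := {x | ∀ i, |x i| < 1} with hU0
  have hU0o : IsOpen U0 := by
    have : U0 = ⋂ i, {x : Fin N → ℝ | |x i| < 1} := by
      ext x
      simp [hU0]
    rw [this]
    exact isOpen_iInter_of_finite fun i =>
      isOpen_lt (continuous_abs.comp (continuous_apply i)) continuous_const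
  obtain ⟨r, hr, hrU⟩ := Metric.isOpen_iff.1 hU0o p hp
  set d : ℝ := min δ (r / 2) with hd
  have hd0 : 0 < d := lt_min hδ (by positivity)
  have hdδ : d ≤ δ := min_le_left _ _
  have hdr : d ≤ r / 2 := min_le_right _ _
  have hballU : ∀ x, ‖x - p‖ ≤ d → x ∈ U0 := by
    intro x hx
    apply hrU
    rw [Metric.mem_ball, dist_eq_norm]
    linarith
  have hU0K : ∀ x ∈ U0, x ∈ K := fun x hx => (mem_cube_iff x).2 fun i => (hx i).le
  have hbU : ∀ x ∈ bdry N, x ∉ U0 := by
    rintro x ⟨-, i, hi⟩ hx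
    have := hx i
    rw [hi] at this
    exact lt_irrefl _ this
  have hbd : ∀ x ∈ bdry N, d < ‖x - p‖ := by
    intro x hx
    by_contra h
    push Not at h
    exact hbU x hx (hballU x h)
  -- the modified map
  set χ : (Fin N → ℝ) → ℝ := fun x => max 0 (min 1 (2 * ‖x - p‖ / d - 1)) with hχ
  have hχc : Continuous χ := by fun_prop
  have hχ0 : ∀ x, 0 ≤ χ x := fun x => le_max_left _ _
  have hχ1 : ∀ x, χ x ≤ 1 := fun x => max_le zero_le_one (min_le_left _ _)
  have hχs : ∀ x, ‖x - p‖ ≤ d / 2 → χ x = 0 := by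
    intro x hx
    simp only [hχ]
    refine max_eq_left ((min_le_right _ _).trans ?_)
    rw [sub_nonpos, div_le_one hd0]
    linarith
  have hχl : ∀ x, d ≤ ‖x - p‖ → χ x = 1 := by
    intro x hx
    simp only [hχ]
    have h1 : (1 : ℝ) ≤ 2 * ‖x - p‖ / d - 1 := by
      rw [le_sub_iff_add_le, le_div_iff₀ hd0]
      linarith
    rw [min_eq_left h1]
    exact max_eq_right zero_le_one
  set e' : (Fin N → ℝ) → (Fin N → ℝ) := fun x => (1 - χ x) • (x - p) + χ x • e x with he'
  have he'c : ContinuousOn e' K := by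
    have h1 : Continuous (fun x : Fin N → ℝ => (1 - χ x) • (x - p)) := by fun_prop
    exact h1.continuousOn.add (hχc.continuousOn.smul he)
  have he's : ∀ x, ‖x - p‖ ≤ d / 2 → e' x = x - p := by
    intro x hx
    simp only [he']
    rw [hχs x hx, sub_zero, one_smul, zero_smul, add_zero]
  have he'l : ∀ x, d ≤ ‖x - p‖ → e' x = e x := by
    intro x hx
    simp only [he']
    rw [hχl x hx, sub_self, zero_smul, one_smul, zero_add]
  have he'ne : ∀ x ∈ K, x ≠ p → e' x ≠ 0 := by
    intro x hx hxp h0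
    rcases le_or_gt ‖x - p‖ d with h | h
    · have h1 := hpos x hx (h.trans hdδ) hxp
      have h2 : 0 < ∑ i, (x i - p i) * (x i - p i) := by
        obtain ⟨i, hi⟩ := Function.ne_iff.1 hxp
        refine Finset.sum_pos' (fun i _ => mul_self_nonneg _) ⟨i, Finset.mem_univ _, ?_⟩
        exact mul_self_pos.2 (sub_ne_zero.2 hi)
      have h3 : ∑ i, e' x i * (x i - p i) =
          (1 - χ x) * ∑ i, (x i - p i) * (x i - p i) + χ x * ∑ i, e x i * (x i - p i) := by
        rw [Finset.mul_sum, Finset.mul_sum, ← Finset.sum_add_distrib]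
        refine Finset.sum_congr rfl fun i _ => ?_
        simp only [he', Pi.add_apply, Pi.smul_apply, Pi.sub_apply, smul_eq_mul]
        ring
      rw [h0] at h3
      simp only [Pi.zero_apply, zero_mul, Finset.sum_const_zero] at h3
      have h4 := hχ0 x
      have h5 := hχ1 x
      rcases h4.eq_or_lt with h6 | h6
      · rw [← h6] at h3
        linarith
      · have h7 : 0 < χ x * ∑ i, e x i * (x i - p i) := mul_pos h6 h1
        have h8 : 0 ≤ (1 - χ x) * ∑ i, (x i - p i) * (x i - p i) :=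
          mul_nonneg (by linarith) h2.le
        linarith
    · rw [he'l x h.le] at h0
      exact hne x hx hxp h0
  -- extension
  obtain ⟨G, hG⟩ := ContinuousMap.exists_restrict_eq (s := K) hKc.isClosed
    (⟨K.domRestrict e', continuousOn_iff_continuous_domRestrict.1 he'c⟩ : C(K, Fin N → ℝ))
  have hGe : ∀ x ∈ K, G x = e' x := by
    intro x hx
    exact congrArg (fun g : C(K, Fin N → ℝ) => g ⟨x, hx⟩) hG
  -- lower bound
  set K' : Set (Fin N → ℝ) := K \ Metric.ball p (d / 4) with hK'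
  have hK'c : IsCompact K' := hKc.diff Metric.isOpen_ball
  have hone : (1 : Fin N → ℝ) ∈ bdry N := ⟨fun i => by simp, ⟨0, hN⟩, by simp⟩
  have hbK' : ∀ x ∈ bdry N, x ∈ K' := by
    intro x hx
    refine ⟨bdry_subset_cube hx, ?_⟩
    rw [Metric.mem_ball, dist_eq_norm, not_lt]
    have := hbd x hx
    linarith
  obtain ⟨x0, hx0, hmin⟩ := hK'c.exists_isMinOn ⟨1, hbK' 1 hone⟩ (G.continuous.norm.continuousOn)
  set m : ℝ := ‖G x0‖ with hm
  have hm0 : 0 < m := by
    rw [hm, norm_pos_iff, hGe x0 hx0.1]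
    refine he'ne x0 hx0.1 ?_
    rintro rfl
    exact hx0.2 (Metric.mem_ball_self (by positivity))
  have hlow : ∀ x ∈ K', m ≤ ‖G x‖ := fun x hx => hmin hx
  -- the two smooth maps
  obtain ⟨Q₁, hQ₁, hQ₁G, hQ₁e, -⟩ := G.continuous.exists_contDiff_approx_and_eqOn ⊤
    (ε := fun _ => m / 2) continuous_const (fun _ => by positivity)
    (S := Metric.closedBall p (d / 4)) (U := Metric.ball p (d / 2)) Metric.isClosed_closedBall
    (Metric.isOpen_ball.mem_nhdsSet.2 (Metric.closedBall_subset_ball (by linarith))) (by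
      have h1 : ContDiffOn ℝ ∞ (fun x : Fin N → ℝ => x - p) (Metric.ball p (d / 2)) :=
        (contDiff_id.sub contDiff_const).contDiffOn
      refine h1.congr fun x hx => ?_
      rw [Metric.mem_ball, dist_eq_norm] at hx
      rw [hGe x (hU0K x (hballU x (by linarith))), he's x hx.le])
  have hQ₁p : ∀ x, ‖x - p‖ ≤ d / 4 → Q₁ x = x - p := by
    intro x hx
    rw [hQ₁e (by rw [Metric.mem_closedBall, dist_eq_norm]; exact hx),
      hGe x (hU0K x (hballU x (by linarith))), he's x (by linarith)]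
  obtain ⟨Q, hQ, hQs, hQG⟩ := sym_approx s hs G G.continuous (by
    intro x hx
    rw [hGe _ (bdry_subset_cube (hsb x hx)), hGe _ (bdry_subset_cube hx),
      he'l _ (hbd _ (hsb x hx)).le, he'l _ (hbd _ hx).le]
    exact hsym x hx) (η := m / 2) (by positivity)
  set ε : ℝ := min (m / 2) (d / 4) with hε
  have hε0 : 0 < ε := lt_min (by positivity) (by positivity)
  have hεm : ε ≤ m / 2 := min_le_left _ _
  have hεd : ε ≤ d / 4 := min_le_right _ _
  have hbQ : ∀ x : Fin N → ℝ, (∀ i, |x i| ≤ 1) → (∃ i, |x i| = 1) → ∀ t ∈ Icc (0 : ℝ) 1,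
      ε ≤ ‖(1 - t) • Q₁ x + t • Q x‖ := by
    intro x h1 h2 t ht
    have hx : x ∈ bdry N := ⟨h1, h2⟩
    have h3 := hlow x (hbK' x hx)
    have h4 : ‖Q₁ x - G x‖ ≤ m / 2 := by
      have := (hQ₁G x).le
      rwa [dist_eq_norm] at this
    have h5 := hQG x hx
    have e1 : (1 - t) • Q₁ x + t • Q x = G x + ((1 - t) • (Q₁ x - G x) + t • (Q x - G x)) := by
      module
    rw [e1]
    have h6 : ‖(1 - t) • (Q₁ x - G x) + t • (Q x - G x)‖ ≤ m / 2 := by
      refine (norm_add_le _ _).trans ?_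
      rw [norm_smul, norm_smul, Real.norm_eq_abs, Real.norm_eq_abs, abs_of_nonneg ht.1,
        abs_of_nonneg (by linarith [ht.2])]
      have h7 : (1 - t) * ‖Q₁ x - G x‖ ≤ (1 - t) * (m / 2) :=
        mul_le_mul_of_nonneg_left h4 (by linarith [ht.2])
      have h8 : t * ‖Q x - G x‖ ≤ t * (m / 2) := mul_le_mul_of_nonneg_left h5 ht.1
      linarith
    have h9 := norm_sub_norm_le (G x) (-((1 - t) • (Q₁ x - G x) + t • (Q x - G x)))
    rw [norm_neg, sub_neg_eq_add] at h9
    linarith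
  refine sym_parity s hs hs' Q hQ hQs hε0 (fun x h1 h2 => ?_) (fun φ hφ hφ0 => ?_)
  · have := hbQ x h1 h2 1 ⟨zero_le_one, le_rfl⟩
    simpa using this
  · rw [deg_integral2 hN Q₁ Q hQ₁ hQ hε0 hbQ φ hφ hφ0]
    have hint : ∀ x ∈ K, φ (Q₁ x) * (fderiv ℝ Q₁ x).det = φ (x - p) := by
      intro x hx
      by_cases hxb : x ∈ Metric.ball p (d / 4)
      · have h1 : Q₁ =ᶠ[nhds x] fun z => z - p := by
          filter_upwards [Metric.isOpen_ball.mem_nhds hxb] with z hz
          rw [Metric.mem_ball, dist_eq_norm] at hz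
          exact hQ₁p z hz.le
        have h2 : fderiv ℝ Q₁ x = ContinuousLinearMap.id ℝ (Fin N → ℝ) := by
          rw [h1.fderiv_eq]
          rw [fderiv_sub_const]
          exact fderiv_fun_id
        rw [h2, h1.eq_of_nhds]
        have h3 : (ContinuousLinearMap.id ℝ (Fin N → ℝ)).det = 1 := by
          rw [ContinuousLinearMap.det]
          exact LinearMap.det_id
        rw [h3, mul_one]
      · have h1 : ε ≤ ‖Q₁ x‖ := by
          have h3 := hlow x ⟨hx, hxb⟩
          have h4 : ‖Q₁ x - G x‖ ≤ m / 2 := by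
            have := (hQ₁G x).le
            rwa [dist_eq_norm] at this
          have h9 := norm_sub_norm_le (G x) (G x - Q₁ x)
          rw [sub_sub_cancel, norm_sub_rev (G x) (Q₁ x)] at h9
          linarith
        have h2 : ε ≤ ‖x - p‖ := by
          rw [Metric.mem_ball, dist_eq_norm, not_lt] at hxb
          linarith
        rw [hφ0 _ h1, hφ0 _ h2, zero_mul]
    rw [setIntegral_congr_fun hKc.measurableSet hint]
    rw [setIntegral_eq_integral_of_forall_compl_eq_zero]
    · exact integral_sub_right_eq_self φ p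
    · intro x hx
      refine hφ0 _ ?_
      by_contra h
      push Not at h
      exact hx (hU0K x (hballU x (by linarith)))

end Pool.Agent.SB
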