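import Mathlib
import Pool.Agent.SB.Defs
import Pool.Agent.SB.Solid

set_option autoImplicit false

open Set Metric

namespace Pool.Agent.SB

section NTb

open Filter Topology

/-- The extension of the homotopy to the ball. -/
theorem ntb_ext_cont {k : ℕ} (W : ℝ → E k → E k)
    (hW : ContinuousOn (fun z : ℝ × E k => W z.1 z.2) (Icc (0 : ℝ) 1 ×ˢ sphere (0 : E k) 1))
    (w : E k) (h0 : ∀ u ∈ sphere (0 : E k) 1, W 0 u = w) :
    ContinuousOn (fun x : E k => if x = 0 then w else W ‖x‖ (‖x‖⁻¹ • x))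
      (closedBall (0 : E k) 1) := by
  classical
  intro x hx
  have hmaps : ∀ y ∈ closedBall (0 : E k) 1, y ≠ 0 →
      (‖y‖, ‖y‖⁻¹ • y) ∈ Icc (0 : ℝ) 1 ×ˢ sphere (0 : E k) 1 := by
    intro y hy hy0
    refine ⟨⟨norm_nonneg _, by simpa using hy⟩, ?_⟩
    rw [mem_sphere_zero_iff_norm, norm_smul, norm_inv, norm_norm]
    exact inv_mul_cancel₀ (norm_ne_zero_iff.2 hy0)
  by_cases hx0 : x = 0
  · subst hx0
    have hK : IsCompact (Icc (0 : ℝ) 1 ×ˢ sphere (0 : E k) 1) :=
      isCompact_Icc.prod (isCompact_sphere 0 1)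
    have hu := hK.uniformContinuousOn_of_continuous hW
    rw [Metric.uniformContinuousOn_iff] at hu
    rw [Metric.continuousWithinAt_iff]
    intro ε hε
    obtain ⟨δ, hδ, hh⟩ := hu ε hε
    refine ⟨δ, hδ, ?_⟩
    intro y hy hyd
    by_cases hy0 : y = 0
    · subst hy0; simpa using hε
    · simp only [hy0, if_false, if_true]
      have h1 := hmaps y hy hy0
      have h2 : ((0 : ℝ), ‖y‖⁻¹ • y) ∈ Icc (0 : ℝ) 1 ×ˢ sphere (0 : E k) 1 :=
        ⟨⟨le_rfl, zero_le_one⟩, h1.2⟩
      have h3 := hh _ h1 _ h2 (by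
        rw [Prod.dist_eq]
        simp only [dist_self, Real.dist_eq, sub_zero, abs_norm]
        rw [max_lt_iff]
        refine ⟨by simpa using hyd, hδ⟩)
      rw [h0 _ h1.2] at h3
      exact h3
  · have c1 : ContinuousOn (fun y : E k => W ‖y‖ (‖y‖⁻¹ • y)) (closedBall (0 : E k) 1 \ {0}) := by
      have c2 : ContinuousOn (fun y : E k => (‖y‖, ‖y‖⁻¹ • y)) (closedBall (0 : E k) 1 \ {0}) := by
        have c0 : ContinuousOn (fun y : E k => ‖y‖⁻¹) (closedBall (0 : E k) 1 \ {0}) := by
          apply ContinuousOn.inv₀ continuous_norm.continuousOn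
          intro y hy
          exact norm_ne_zero_iff.2 hy.2
        exact ContinuousOn.prodMk continuous_norm.continuousOn (c0.smul continuousOn_id)
      exact hW.comp c2 (fun y hy => hmaps y hy.1 hy.2)
    have c3 : ContinuousWithinAt (fun y : E k => W ‖y‖ (‖y‖⁻¹ • y)) (closedBall (0 : E k) 1) x := by
      have := c1 x ⟨hx, hx0⟩
      refine this.mono_of_mem_nhdsWithin ?_
      rw [sdiff_eq]
      exact inter_mem_nhdsWithin _ (isOpen_compl_singleton.mem_nhds hx0)
    refine c3.congr_of_eventuallyEq ?_ (by simp [hx0])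
    have : ({0}ᶜ : Set (E k)) ∈ 𝓝[closedBall (0 : E k) 1] x :=
      mem_nhdsWithin_of_mem_nhds (isOpen_compl_singleton.mem_nhds hx0)
    filter_upwards [this] with y hy
    simp only [mem_compl_iff, mem_singleton_iff] at hy
    simp [hy]

theorem ntb_core {m : ℕ} (hm : 1 ≤ m) (W : ℝ → E (m + 1) → E (m + 1))
    (hW : ContinuousOn (fun z : ℝ × E (m + 1) => W z.1 z.2)
      (Icc (0 : ℝ) 1 ×ˢ sphere (0 : E (m + 1)) 1))
    (w : E (m + 1)) (h0 : ∀ u ∈ sphere (0 : E (m + 1)) 1, W 0 u = w)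
    (h1 : ∀ u ∈ sphere (0 : E (m + 1)) 1, W 1 u = (2 * u 0) • u - EuclideanSpace.single 0 1)
    (hne : ∀ t ∈ Icc (0 : ℝ) 1, ∀ u ∈ sphere (0 : E (m + 1)) 1, W t u ≠ 0)
    (hev : ∀ t ∈ Icc (0 : ℝ) 1, ∀ u ∈ sphere (0 : E (m + 1)) 1, W t (-u) = W t u) : False := by
  classical
  set e0 : E (m + 1) := EuclideanSpace.single 0 1 with he0
  have hn0 : ‖e0‖ = 1 := by simp [he0]
  set wx : E (m + 1) → E (m + 1) := fun x => if x = 0 then w else W ‖x‖ (‖x‖⁻¹ • x) with hwx
  have cwx : ContinuousOn wx (closedBall 0 1) := ntb_ext_cont W hW w h0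
  have hsph : ∀ y : E (m + 1), y ≠ 0 → ‖y‖⁻¹ • y ∈ sphere (0 : E (m + 1)) 1 := by
    intro y hy
    rw [mem_sphere_zero_iff_norm, norm_smul, norm_inv, norm_norm]
    exact inv_mul_cancel₀ (norm_ne_zero_iff.2 hy)
  have hwne : ∀ x ∈ closedBall (0 : E (m + 1)) 1, wx x ≠ 0 := by
    intro x hx
    by_cases hx0 : x = 0
    · simp only [hwx, hx0, if_true]
      rw [← h0 e0 (by simp [hn0])]
      exact hne 0 ⟨le_rfl, zero_le_one⟩ _ (by simp [hn0])
    · simp only [hwx, hx0, if_false]
      exact hne _ ⟨norm_nonneg _, by simpa using hx⟩ _ (hsph x hx0)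
  have hwev : ∀ x ∈ closedBall (0 : E (m + 1)) 1, wx (-x) = wx x := by
    intro x hx
    by_cases hx0 : x = 0
    · simp [hx0]
    · have : -x ≠ 0 := by simpa using hx0
      simp only [hwx, hx0, this, if_false, norm_neg, smul_neg]
      exact hev _ ⟨norm_nonneg _, by simpa using hx⟩ _ (hsph x hx0)
  have hw1 : ∀ x ∈ sphere (0 : E (m + 1)) 1, wx x = (2 * x 0) • x - e0 := by
    intro x hx
    have hx1 : ‖x‖ = 1 := by simpa using hx
    have hx0 : x ≠ 0 := by
      intro h; rw [h, norm_zero] at hx1; exact zero_ne_one hx1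
    simp only [hwx, hx0, if_false, hx1, inv_one, one_smul]
    exact h1 x hx
  -- the pieces
  let Y : (Fin (m + 1) → ℝ) → E (m + 1) := fun x => WithLp.toLp 2 (Function.update x 0 0)
  have hYc : Continuous Y := by
    apply (PiLp.continuous_toLp 2 _).comp
    exact continuous_id.update 0 continuous_const
  let Yb : (Fin (m + 1) → ℝ) → E (m + 1) := fun x => (max 1 ‖Y x‖)⁻¹ • Y x
  have hmax : ∀ x, 0 < max 1 ‖Y x‖ := fun x => lt_max_of_lt_left one_pos
  have hYbc : Continuous Yb := by
    have c0 : Continuous fun x => (max 1 ‖Y x‖)⁻¹ :=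
      Continuous.inv₀ (continuous_const.max hYc.norm) (fun x => (hmax x).ne')
    exact c0.smul hYc
  have hYb1 : ∀ x, ‖Yb x‖ ≤ 1 := by
    intro x
    simp only [Yb, norm_smul, norm_inv, Real.norm_eq_abs, abs_of_pos (hmax x)]
    rw [inv_mul_le_iff₀ (hmax x), mul_one]
    exact le_max_right _ _
  have hY0 : ∀ x, Y x 0 = 0 := by intro x; simp [Y]
  have hYi : ∀ x, ∀ i, i ≠ 0 → Y x i = x i := by intro x i hi; simp [Y, hi]
  have hYb0 : ∀ x, Yb x 0 = 0 := by intro x; simp [Yb, hY0]
  let σ : (Fin (m + 1) → ℝ) → ℝ := fun x => Real.sqrt (1 - ‖Yb x‖ ^ 2)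
  have hσc : Continuous σ := Real.continuous_sqrt.comp (continuous_const.sub (hYbc.norm.pow 2))
  have hσ0 : ∀ x, 0 ≤ σ x := fun x => Real.sqrt_nonneg _
  have hσ2 : ∀ x, σ x ^ 2 = 1 - ‖Yb x‖ ^ 2 := by
    intro x
    apply Real.sq_sqrt
    have := hYb1 x
    have h2 := norm_nonneg (Yb x)
    nlinarith
  have hnorm : ∀ (a : ℝ) (y : E (m + 1)), y 0 = 0 → ‖a • e0 + y‖ ^ 2 = a ^ 2 + ‖y‖ ^ 2 := by
    intro a y hy
    rw [norm_add_sq_real, norm_smul, hn0, inner_smul_left, he0]
    simp [EuclideanSpace.inner_single_left, hy]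
  -- the map
  let e : (Fin (m + 1) → ℝ) → E (m + 1) := fun x =>
    wx (((1 - max (x 0) 0) * σ x) • e0 + Yb x) +
      (2 * σ x * min (x 0) 0) • (σ x • e0 + Yb x)
  have hin : ∀ x ∈ Icc (-1 : Fin (m + 1) → ℝ) 1,
      ((1 - max (x 0) 0) * σ x) • e0 + Yb x ∈ closedBall (0 : E (m + 1)) 1 := by
    intro x hx
    have hx0 := hx.2 0
    simp only [Pi.one_apply] at hx0
    rw [mem_closedBall_zero_iff]
    have h2 := hnorm ((1 - max (x 0) 0) * σ x) (Yb x) (hYb0 x)
    have h3 : ((1 - max (x 0) 0) * σ x) ^ 2 ≤ σ x ^ 2 := by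
      have a1 : 0 ≤ 1 - max (x 0) 0 := by
        rw [sub_nonneg]; exact max_le hx0 zero_le_one
      have a2 : 1 - max (x 0) 0 ≤ 1 := by
        have := le_max_right (x 0) 0; linarith
      apply pow_le_pow_left₀ (mul_nonneg a1 (hσ0 x))
      exact mul_le_of_le_one_left (hσ0 x) a2
    have h4 := hσ2 x
    have h5 : ‖((1 - max (x 0) 0) * σ x) • e0 + Yb x‖ ^ 2 ≤ 1 ^ 2 := by
      rw [h2]; linarith
    exact (pow_le_pow_iff_left₀ (norm_nonneg _) zero_le_one two_ne_zero).1 h5
  have hec : ContinuousOn e (Icc (-1 : Fin (m + 1) → ℝ) 1) := by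
    have cx : Continuous fun x : Fin (m + 1) → ℝ => x 0 := continuous_apply 0
    apply ContinuousOn.add
    · apply cwx.comp _ hin
      apply Continuous.continuousOn
      exact (((continuous_const.sub (cx.max continuous_const)).mul hσc).smul
        continuous_const).add hYbc
    · apply Continuous.continuousOn
      exact ((continuous_const.mul hσc).mul (cx.min continuous_const)).smul
        ((hσc.smul continuous_const).add hYbc)
  have hsph1 : ∀ x, σ x • e0 + Yb x ∈ sphere (0 : E (m + 1)) 1 := by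
    intro x
    rw [mem_sphere_zero_iff_norm]
    have h2 := hnorm (σ x) (Yb x) (hYb0 x)
    rw [hσ2 x] at h2
    have h3 : ‖σ x • e0 + Yb x‖ ^ 2 = 1 := by rw [h2]; ring
    have h4 := norm_nonneg (σ x • e0 + Yb x)
    nlinarith
  have hval0 : ∀ x, (σ x • e0 + Yb x) 0 = σ x := by
    intro x
    simp [he0, hYb0 x]
  have hneg : ∀ x, x 0 ≤ 0 → e x = (2 * (1 + x 0) * σ x) • (σ x • e0 + Yb x) - e0 := by
    intro x hx
    simp only [e, max_eq_right hx, min_eq_left hx, sub_zero, one_mul]
    rw [hw1 _ (hsph1 x), hval0 x]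
    module
  have hpos : ∀ x, 0 ≤ x 0 → e x = wx (((1 - x 0) * σ x) • e0 + Yb x) := by
    intro x hx
    simp only [e, max_eq_left hx, min_eq_right hx, mul_zero, zero_smul, add_zero]
  -- the symmetry
  let s : Fin (m + 1) → ℝ := fun i => if i = 0 then 1 else -1
  have hYs : ∀ x, Y (fun i => s i * x i) = - Y x := by
    intro x
    ext i
    by_cases hi : i = 0
    · subst hi; simp [Y]
    · simp [Y, s, hi]
  have hYbs : ∀ x, Yb (fun i => s i * x i) = - Yb x := by
    intro x
    simp only [Yb, hYs, norm_neg, smul_neg]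
  have hσs : ∀ x, σ (fun i => s i * x i) = σ x := by
    intro x
    simp only [σ, hYbs, norm_neg]
  have hs0 : ∀ x : Fin (m + 1) → ℝ, (fun i => s i * x i) 0 = x 0 := by
    intro x; simp [s]
  have hside : ∀ x ∈ Icc (-1 : Fin (m + 1) → ℝ) 1, 1 ≤ ‖Y x‖ → e x = -e0 := by
    intro x hx hYx
    have hb : ‖Yb x‖ = 1 := by
      simp only [Yb, norm_smul, norm_inv, Real.norm_eq_abs, abs_of_pos (hmax x)]
      rw [max_eq_right hYx]
      exact inv_mul_cancel₀ (by linarith)
    have hs : σ x = 0 := by simp [σ, hb]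
    rcases le_total (x 0) 0 with h | h
    · rw [hneg x h, hs]; simp
    · rw [hpos x h, hs]
      simp only [mul_zero, zero_smul, zero_add]
      rw [hw1 _ (by simp [hb]), hYb0 x]
      simp
  refine no_sym_solid s (fun i => ?_) ⟨⟨1, by omega⟩, ?_⟩ (fun x i => e x i) ?_ ?_
    (Function.update 0 0 (-1 / 2)) ?_ (δ := 1 / (4 * ((m : ℝ) + 1))) (by positivity) ?_ ?_
  · by_cases hi : i = 0
    · left; simp [s, hi]
    · right; simp [s, hi]
  · have : (⟨1, by omega⟩ : Fin (m + 1)) ≠ 0 := by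
      intro h
      have := congrArg Fin.val h
      simp at this
    simp [s, this]
  · exact (PiLp.continuous_ofLp 2 _).comp_continuousOn hec
  · intro x hx
    have hxI : x ∈ Icc (-1 : Fin (m + 1) → ℝ) 1 :=
      ⟨fun i => (abs_le.1 (hx.1 i)).1, fun i => (abs_le.1 (hx.1 i)).2⟩
    have hxI' : (fun i => s i * x i) ∈ Icc (-1 : Fin (m + 1) → ℝ) 1 := by
      have habs : ∀ i, |s i * x i| ≤ 1 := by
        intro i
        by_cases hi : i = 0
        · simpa [s, hi] using hx.1 0
        · simpa [s, hi] using hx.1 i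
      exact ⟨fun i => (abs_le.1 (habs i)).1, fun i => (abs_le.1 (habs i)).2⟩
    suffices h : e (fun i => s i * x i) = e x by
      funext i; exact congrArg (fun v : E (m + 1) => v i) h
    have q1 := hs0 x
    have q2 := hσs x
    have q3 := hYbs x
    have q4 := hYs x
    generalize (fun i => s i * x i) = x' at *
    obtain ⟨i, hi⟩ := hx.2
    by_cases hi0 : i = 0
    · subst hi0
      rcases le_total 0 (x 0) with h | h
      · rw [abs_of_nonneg h] at hi
        rw [hpos x h, hpos x' (by rw [q1]; exact h), q1, q2, q3, hi]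
        simp only [sub_self, zero_mul, zero_smul, zero_add]
        exact hwev _ (by simpa using hYb1 x)
      · rw [abs_of_nonpos h] at hi
        have hi' : x 0 = -1 := by linarith
        rw [hneg x h, hneg x' (by rw [q1]; exact h), q1, hi']
        simp
    · have hY1 : 1 ≤ ‖Y x‖ := by
        have := PiLp.norm_apply_le (Y x) i
        rw [hYi x i hi0, Real.norm_eq_abs, hi] at this
        exact this
      rw [hside x hxI hY1, hside x' hxI' (by rw [q4, norm_neg]; exact hY1)]
  · intro i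
    by_cases hi : i = 0
    · subst hi; simp; norm_num [abs_lt]
    · simp [hi]
  · intro x hx hxd hxp
    -- `h = x - p`
    have hm0 : (0 : ℝ) < (m : ℝ) + 1 := by positivity
    have hcoord : ∀ i, |x i - (Function.update (0 : Fin (m + 1) → ℝ) 0 (-1 / 2)) i| ≤
        1 / (4 * ((m : ℝ) + 1)) := by
      intro i
      have := norm_le_pi_norm (x - Function.update (0 : Fin (m + 1) → ℝ) 0 (-1 / 2)) i
      rw [Real.norm_eq_abs, Pi.sub_apply] at this
      exact this.trans hxd
    have hδ4 : 1 / (4 * ((m : ℝ) + 1)) ≤ 1 / 4 := by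
      apply one_div_le_one_div_of_le (by norm_num)
      linarith
    have hx0 : |x 0 + 1 / 2| ≤ 1 / 4 := by
      have := hcoord 0
      rw [Function.update_self] at this
      have e1 : x 0 - -1 / 2 = x 0 + 1 / 2 := by ring
      rw [e1] at this
      exact this.trans hδ4
    have hxi : ∀ i, i ≠ 0 → |x i| ≤ 1 / (4 * ((m : ℝ) + 1)) := by
      intro i hi
      have := hcoord i
      rwa [Function.update_of_ne hi, Pi.zero_apply, sub_zero] at this
    have hYn : ‖Y x‖ ^ 2 = ∑ i, (Y x i) ^ 2 := EuclideanSpace.real_norm_sq_eq (Y x)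
    have hYsq : ‖Y x‖ ^ 2 ≤ 1 / 4 := by
      rw [hYn]
      calc ∑ i, (Y x i) ^ 2 ≤ ∑ i : Fin (m + 1), (1 / (4 * ((m : ℝ) + 1))) ^ 2 := by
            apply Finset.sum_le_sum
            intro i _
            by_cases hi : i = 0
            · subst hi; rw [hY0, zero_pow two_ne_zero]; positivity
            · rw [hYi x i hi, ← sq_abs]
              exact pow_le_pow_left₀ (abs_nonneg _) (hxi i hi) 2
        _ = ((m : ℝ) + 1) * (1 / (4 * ((m : ℝ) + 1))) ^ 2 := by simp
        _ = 1 / (16 * ((m : ℝ) + 1)) := by field_simp; ring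
        _ ≤ 1 / 4 := by
            apply one_div_le_one_div_of_le (by norm_num)
            linarith
    have hYlt : ‖Y x‖ ≤ 1 := by
      have := norm_nonneg (Y x)
      nlinarith
    have hYbY : Yb x = Y x := by
      simp only [Yb, max_eq_left hYlt, inv_one, one_smul]
    obtain ⟨hb1, hb2⟩ := abs_le.1 hx0
    have hσx := hσ2 x
    rw [hYbY] at hσx
    have hσhalf : 1 / 2 < σ x := by
      have := hσ0 x
      nlinarith
    have hval : ∀ i, e x i = (2 * (1 + x 0) * σ x) * (σ x * e0 i + Y x i) - e0 i := by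
      intro i
      rw [hneg x (by linarith), hYbY]
      simp
      ring
    have hsum : ∑ i, e x i * (x i - (Function.update (0 : Fin (m + 1) → ℝ) 0 (-1 / 2)) i) =
        ((2 * (1 + x 0)) * σ x ^ 2 - 1) * (x 0 + 1 / 2) +
        (2 * (1 + x 0) * σ x) * ‖Y x‖ ^ 2 := by
      rw [hYn, Finset.mul_sum, ← Finset.add_sum_erase _ _ (Finset.mem_univ (0 : Fin (m + 1))),
        ← Finset.add_sum_erase (a := (0 : Fin (m + 1))) _
          (fun i => (2 * (1 + x 0) * σ x) * (Y x i) ^ 2) (Finset.mem_univ (0 : Fin (m + 1)))]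
      have e00 : e0 0 = 1 := by simp [he0]
      rw [hval, hY0, e00, Function.update_self]
      have : ∑ i ∈ Finset.univ.erase (0 : Fin (m + 1)),
          e x i * (x i - (Function.update (0 : Fin (m + 1) → ℝ) 0 (-1 / 2)) i) =
          ∑ i ∈ Finset.univ.erase (0 : Fin (m + 1)), (2 * (1 + x 0) * σ x) * (Y x i) ^ 2 := by
        apply Finset.sum_congr rfl
        intro i hi
        have hi0 : i ≠ 0 := Finset.ne_of_mem_erase hi
        have e0i : e0 i = 0 := by simp [he0, hi0]
        rw [hval, e0i, Function.update_of_ne hi0, Pi.zero_apply, ← hYi x i hi0]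
        ring
      rw [this]
      ring
    show 0 < ∑ i, e x i * (x i - (Function.update (0 : Fin (m + 1) → ℝ) 0 (-1 / 2)) i)
    rw [hsum, hσx]
    -- 2 h₀² + n² (1 + 2 h₀) (σ - h₀)
    have key : (2 * (1 + x 0) * (1 - ‖Y x‖ ^ 2) - 1) * (x 0 + 1 / 2) +
        2 * (1 + x 0) * σ x * ‖Y x‖ ^ 2 =
        2 * (x 0 + 1 / 2) ^ 2 + ‖Y x‖ ^ 2 * ((2 * (1 + x 0)) * (σ x - (x 0 + 1 / 2))) := by
      ring
    rw [key]
    by_cases hYz : ‖Y x‖ = 0
    · have hx0ne : x 0 + 1 / 2 ≠ 0 := by
        intro h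
        apply hxp
        funext i
        by_cases hi : i = 0
        · subst hi
          rw [Function.update_self]; linarith
        · rw [Function.update_of_ne hi, Pi.zero_apply, ← hYi x i hi, norm_eq_zero.1 hYz]
          rfl
      rw [hYz]
      have := sq_pos_of_ne_zero hx0ne
      nlinarith
    · have h3 : 0 < ‖Y x‖ ^ 2 := by positivity
      have h4 : 0 < (2 * (1 + x 0)) * (σ x - (x 0 + 1 / 2)) := by
        apply mul_pos
        · linarith
        · linarith
      have h5 := mul_pos h3 h4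
      have h6 := sq_nonneg (x 0 + 1 / 2)
      linarith
  · intro x hx hxp hzero
    have hz : e x = 0 := by
      ext i; exact congrFun hzero i
    rcases le_total 0 (x 0) with h | h
    · rw [hpos x h] at hz
      have := hin x hx
      rw [max_eq_left h] at this
      exact hwne _ this hz
    · rw [hneg x h] at hz
      have z0 := congrArg (fun v : E (m + 1) => v 0) hz
      simp only [PiLp.sub_apply, PiLp.smul_apply, hval0 x, PiLp.zero_apply, smul_eq_mul] at z0
      have e00 : e0 0 = 1 := by simp [he0]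
      rw [e00] at z0
      have hne' : 2 * (1 + x 0) * σ x ≠ 0 := by
        intro h'; rw [h'] at z0; simp at z0
      have hYz : Yb x = 0 := by
        ext i
        by_cases hi : i = 0
        · subst hi; simp [hYb0]
        · have zi := congrArg (fun v : E (m + 1) => v i) hz
          simp only [PiLp.sub_apply, PiLp.smul_apply, PiLp.add_apply, PiLp.zero_apply,
            smul_eq_mul] at zi
          have : e0 i = 0 := by simp [he0, hi]
          rw [this] at zi
          simp only [mul_zero, zero_add, sub_zero] at zi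
          rcases mul_eq_zero.1 zi with h' | h'
          · exact absurd h' hne'
          · simpa using h'
      have hYz' : Y x = 0 := by
        have : (max 1 ‖Y x‖)⁻¹ • Y x = 0 := hYz
        rcases smul_eq_zero.1 this with h' | h'
        · exact absurd h' (inv_ne_zero (hmax x).ne')
        · exact h'
      have hs1 : σ x = 1 := by simp [σ, hYz]
      rw [hs1] at z0
      apply hxp
      funext i
      by_cases hi : i = 0
      · subst hi
        simp
        linarith
      · have := congrArg (fun v : E (m + 1) => v i) hYz'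
        simp only [hYi x i hi] at this
        simp [hi]
        simpa using this

end NTb

/-- The even map `u ↦ 2 ⟪u, f⟫ u - f` of the sphere is not null-homotopic in `ℝᵏ \ 0` through even
maps. -/
theorem no_null_sym {k : ℕ} (hk2 : 2 ≤ k) (W : ℝ → E k → E k)
    (hW : ContinuousOn (fun z : ℝ × E k => W z.1 z.2) (Icc (0 : ℝ) 1 ×ˢ sphere (0 : E k) 1))
    (w f : E k) (h0 : ∀ u ∈ sphere (0 : E k) 1, W 0 u = w)
    (h1 : ∀ u ∈ sphere (0 : E k) 1, W 1 u = (2 * inner ℝ u f) • u - f)
    (hne : ∀ t ∈ Icc (0 : ℝ) 1, ∀ u ∈ sphere (0 : E k) 1, W t u ≠ 0)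
    (hev : ∀ t ∈ Icc (0 : ℝ) 1, ∀ u ∈ sphere (0 : E k) 1, W t (-u) = W t u) : False := by
  classical
  obtain ⟨m, rfl⟩ : ∃ m, k = m + 1 := ⟨k - 1, by omega⟩
  have hfne : f ≠ 0 := by
    intro hf
    have h2 := hne 1 ⟨zero_le_one, le_rfl⟩ (EuclideanSpace.single 0 1) (by simp)
    rw [h1 _ (by simp)] at h2
    apply h2
    rw [hf]; simp
  have hfn : ‖f‖ ≠ 0 := norm_ne_zero_iff.2 hfne
  have hcard : Module.finrank ℝ (E (m + 1)) = Fintype.card (Fin (m + 1)) := by simp
  have horth : Orthonormal ℝ (({0} : Set (Fin (m + 1))).domRestrict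
      (fun _ : Fin (m + 1) => ‖f‖⁻¹ • f)) := by
    constructor
    · intro i
      show ‖‖f‖⁻¹ • f‖ = 1
      rw [norm_smul, norm_inv, norm_norm, inv_mul_cancel₀ hfn]
    · intro i j hij
      exact absurd (Subsingleton.elim i j) hij
  obtain ⟨b, hb⟩ := horth.exists_orthonormalBasis_extension_of_card_eq hcard
  have hb0 : b 0 = ‖f‖⁻¹ • f := hb 0 (mem_singleton 0)
  set L : E (m + 1) ≃ₗᵢ[ℝ] E (m + 1) := b.repr.symm with hL
  have hL0 : L (EuclideanSpace.single 0 1) = ‖f‖⁻¹ • f := by
    rw [hL, OrthonormalBasis.repr_symm_single, hb0]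
  have hLs : L.symm f = ‖f‖ • EuclideanSpace.single 0 1 := by
    rw [LinearIsometryEquiv.symm_apply_eq, map_smul, hL0, smul_smul, mul_inv_cancel₀ hfn, one_smul]
  have hsphL : ∀ u ∈ sphere (0 : E (m + 1)) 1, L u ∈ sphere (0 : E (m + 1)) 1 := by
    intro u hu
    simpa using hu
  have hcomp : ContinuousOn (fun z : ℝ × E (m + 1) => ‖f‖⁻¹ • L.symm (W z.1 (L z.2)))
      (Icc (0 : ℝ) 1 ×ˢ sphere (0 : E (m + 1)) 1) := by
    have c1 : ContinuousOn (fun z : ℝ × E (m + 1) => W z.1 (L z.2))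
        (Icc (0 : ℝ) 1 ×ˢ sphere (0 : E (m + 1)) 1) := by
      have c2 : Continuous (fun z : ℝ × E (m + 1) => (z.1, L z.2)) :=
        continuous_fst.prodMk (L.continuous.comp continuous_snd)
      exact hW.comp c2.continuousOn (fun z hz => ⟨hz.1, hsphL _ hz.2⟩)
    have c3 : ContinuousOn (fun z : ℝ × E (m + 1) => L.symm (W z.1 (L z.2)))
        (Icc (0 : ℝ) 1 ×ˢ sphere (0 : E (m + 1)) 1) :=
      L.symm.continuous.comp_continuousOn c1
    exact (continuousOn_const (c := ‖f‖⁻¹)).smul c3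
  refine ntb_core (by omega) (fun t u => ‖f‖⁻¹ • L.symm (W t (L u))) hcomp
    (‖f‖⁻¹ • L.symm w) ?_ ?_ ?_ ?_
  · intro u hu
    simp only [h0 _ (hsphL u hu)]
  · intro u hu
    have hin : inner ℝ (L u) f = ‖f‖ * u 0 := by
      have : inner ℝ (L u) f = inner ℝ u (L.symm f) := by
        rw [← L.symm.inner_map_map (L u) f, L.symm_apply_apply]
      rw [this, hLs, inner_smul_right, EuclideanSpace.inner_single_right]
      simp
    simp only [h1 _ (hsphL u hu), map_sub, map_smul, L.symm_apply_apply, hLs, hin]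
    rw [smul_sub, smul_smul, smul_smul, inv_mul_cancel₀ hfn, one_smul]
    congr 2
    field_simp
  · intro t ht u hu hz
    rcases smul_eq_zero.1 hz with h | h
    · exact inv_ne_zero hfn h
    · exact hne t ht _ (hsphL u hu) (by simpa using h)
  · intro t ht u hu
    simp only [map_neg, hev t ht _ (hsphL u hu)]

end Pool.Agent.SB
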