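import Mathlib
import Pool.Agent.SB.Defs
import Pool.Agent.SB.Vol
import Pool.Agent.SB.Mom
import Pool.Agent.SB.Cont
import Pool.Agent.SB.Rep
import Pool.Agent.SB.LocSec
import Pool.Agent.SB.Lift
import Pool.Agent.SB.Homot
import Pool.Agent.SB.NTa
import Pool.Agent.SB.NTb

set_option autoImplicit false

open MeasureTheory Set Metric
open scoped ENNReal
open Pool.Agent.H87Star (IsGauge)

namespace Pool.Agent.SB

theorem refl_sq {k : ℕ} {u : E k} (hu : ‖u‖ = 1) : refl u * refl u = 1 := by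
  ext1 v
  show refl u (refl u v) = v
  rw [refl_apply, refl_apply]
  simp only [inner_sub_right, inner_smul_right, real_inner_self_eq_norm_sq, hu]
  module

theorem refl_adjoint {k : ℕ} (u : E k) : ContinuousLinearMap.adjoint (refl u) = refl u := by
  symm
  rw [ContinuousLinearMap.eq_adjoint_iff]
  intro v w
  rw [refl_apply, refl_apply]
  simp only [inner_sub_right, inner_smul_right, inner_sub_left, inner_smul_left,
    real_inner_comm v u, conj_trivial]
  ring

/-- the reflection as an invertible element -/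
noncomputable def reflU {k : ℕ} (u : E k) (hu : ‖u‖ = 1) : (E k →L[ℝ] E k)ˣ :=
  ⟨refl u, refl u, refl_sq hu, refl_sq hu⟩

section
variable {n k : ℕ} {f : E n → ℝ}

theorem sec_eq_body (F : E k →L[ℝ] E n) : sec f F = body (fun v => f (F v)) := rfl

/-- all frames lie in one orbit -/
theorem exists_act (hf : IsGauge f)
    (hfr : ∀ F F' : E k →L[ℝ] E n, Iso F → Iso F' →
      ∃ (g : E k ≃L[ℝ] E k) (c : E k), ∀ v, f (F' (g v + c)) ≤ 1 ↔ f (F v) ≤ 1)
    (m : ℕ) (F F' : E k →L[ℝ] E n) (hF : Iso F) (hF' : Iso F') :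
    ∃ a : (E k →L[ℝ] E k)ˣ, act m (a : E k →L[ℝ] E k) (QQ m f F) = QQ m f F' := by
  obtain ⟨g, c, hg⟩ := hfr F F' hF hF'
  have h1 := fun m => mom_affine m (gauge_comp hf hF) (gauge_comp hf hF') g c hg
  set G : E k →L[ℝ] E k := (g : E k →L[ℝ] E k) with hG
  set G' : E k →L[ℝ] E k := (g.symm : E k →L[ℝ] E k) with hG'
  have hGG' : G * G' = 1 := by
    ext1 v
    exact g.apply_symm_apply v
  have hG'G : G' * G = 1 := by
    ext1 v
    exact g.symm_apply_apply v
  have h2 : ContinuousLinearMap.adjoint G * ContinuousLinearMap.adjoint G' = 1 := by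
    have := congrArg ContinuousLinearMap.adjoint hG'G
    rw [ContinuousLinearMap.mul_def, ContinuousLinearMap.adjoint_comp] at this
    rw [ContinuousLinearMap.mul_def, this]
    exact ContinuousLinearMap.adjoint_id
  have h3 : ContinuousLinearMap.adjoint G' * ContinuousLinearMap.adjoint G = 1 := by
    have := congrArg ContinuousLinearMap.adjoint hGG'
    rw [ContinuousLinearMap.mul_def, ContinuousLinearMap.adjoint_comp] at this
    rw [ContinuousLinearMap.mul_def, this]
    exact ContinuousLinearMap.adjoint_id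
  refine ⟨⟨ContinuousLinearMap.adjoint G, ContinuousLinearMap.adjoint G', h2, h3⟩, ?_⟩
  rw [act_apply]
  show (_, _) = (_, _)
  rw [Prod.mk.injEq]
  exact ⟨(h1 2).symm, (h1 m).symm⟩

/-- reflecting the frame -/
theorem QQ_refl (hf : IsGauge f) (m : ℕ) (F : E k →L[ℝ] E n) (hF : Iso F) (u : E k)
    (hu : ‖u‖ = 1) (hFu : Iso (F.comp (refl u))) :
    QQ m f (F.comp (refl u)) = act m (refl u) (QQ m f F) := by
  have hrr : ∀ v, refl u (refl u v) = v := fun v => by
    have := refl_sq hu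
    exact DFunLike.congr_fun this v
  let g : E k ≃L[ℝ] E k := ContinuousLinearEquiv.equivOfInverse (refl u) (refl u) hrr hrr
  have h1 := fun m => mom_affine m (gauge_comp hf hF) (gauge_comp hf hFu) g 0 (by
    intro v
    have : (F.comp (refl u)) (g v + 0) = F v := by
      rw [add_zero]
      show F (refl u (refl u v)) = F v
      rw [hrr]
    rw [this])
  have h2 : (g : E k →L[ℝ] E k) = refl u := by
    ext1 v
    rfl
  rw [h2, refl_adjoint] at h1
  rw [act_apply]
  show (_, _) = (_, _)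
  rw [Prod.mk.injEq]
  exact ⟨h1 2, h1 m⟩

theorem core_aux (hk : 2 ≤ k) (hf : IsGauge f)
    (hfr : ∀ F F' : E k →L[ℝ] E n, Iso F → Iso F' →
      ∃ (g : E k ≃L[ℝ] E k) (c : E k), ∀ v, f (F' (g v + c)) ≤ 1 ↔ f (F v) ≤ 1)
    (F₀ : E k →L[ℝ] E n) (hF₀ : Iso F₀) (m : ℕ) (e e' : E k) (he' : e' ≠ 0)
    (h2 : mom 2 (sec f F₀) (fun _ => e) = mom 2 (sec f F₀) (fun _ => e'))
    (hm : mom m (sec f F₀) (fun _ => e) ≠ mom m (sec f F₀) (fun _ => e'))
    (F : ℝ → E k → E k →L[ℝ] E n) (F₁ : E k →L[ℝ] E n) (hF₁ : Iso F₁)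
    (hFc : Continuous (fun z : ℝ × E k => F z.1 z.2))
    (hFi : ∀ t, ∀ u ∈ sphere (0 : E k) 1, Iso (F t u)) (hF0 : ∀ u u', F 0 u = F 0 u')
    (hF1 : ∀ u ∈ sphere (0 : E k) 1, F 1 u = F₁.comp (refl u)) :
    ∃ (W : ℝ → E k → E k) (w f' : E k),
      ContinuousOn (fun z : ℝ × E k => W z.1 z.2) (Icc (0 : ℝ) 1 ×ˢ sphere (0 : E k) 1) ∧
      (∀ u ∈ sphere (0 : E k) 1, W 0 u = w) ∧
      (∀ u ∈ sphere (0 : E k) 1, W 1 u = (2 * inner ℝ u f') • u - f') ∧
      (∀ t ∈ Icc (0 : ℝ) 1, ∀ u ∈ sphere (0 : E k) 1, W t u ≠ 0) ∧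
      ((∀ t u, F t (-u) = F t u) →
        ∀ t ∈ Icc (0 : ℝ) 1, ∀ u ∈ sphere (0 : E k) 1, W t (-u) = W t u) := by
  classical
  set x : TT k m := QQ m f F₀ with hx
  set A := E k →L[ℝ] E k with hA
  have hk1 : 1 ≤ k := by omega
  obtain ⟨c, hc, hlow⟩ := mom_two_lower_unif (k := k) hk1 hf
  obtain ⟨r, hr, M, hprop⟩ := act_proper m hc x (fun v => hlow F₀ hF₀ v)
  obtain ⟨ε, hε, S, hSc, hSx, hSR⟩ := local_section (act (k := k) m) (act_contDiff m) (act_one m)
    (act_mul m) x hr hprop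
  -- the homotopy of tensors
  have hcompact : CompactSpace (sphere (0 : E k) 1) := isCompact_iff_compactSpace.1
    (isCompact_sphere 0 1)
  set q : ℝ → sphere (0 : E k) 1 → TT k m := fun t θ => QQ m f (F t θ) with hq
  have hqc : ContinuousOn (fun z : ℝ × sphere (0 : E k) 1 => q z.1 z.2)
      (Icc (0 : ℝ) 1 ×ˢ univ) := by
    have h1 : Continuous (fun z : ℝ × sphere (0 : E k) 1 => F z.1 (z.2 : E k)) :=
      hFc.comp (continuous_fst.prodMk (continuous_subtype_val.comp continuous_snd))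
    have h2 : ∀ m, ContinuousOn (fun z : ℝ × sphere (0 : E k) 1 => mom m (sec f (F z.1 z.2)))
        (Icc (0 : ℝ) 1 ×ˢ univ) := by
      intro m
      exact (mom_continuousOn hk1 m hf).comp h1.continuousOn (fun z _ => hFi z.1 z.2 z.2.2)
    exact (h2 2).prodMk (h2 m)
  have horb : ∀ t ∈ Icc (0 : ℝ) 1, ∀ θ : sphere (0 : E k) 1, ∃ a : (E k →L[ℝ] E k)ˣ,
      act m (a : E k →L[ℝ] E k) (q t θ) = x := by
    intro t _ θ
    exact exists_act hf hfr m (F t θ) F₀ (hFi t θ θ.2) hF₀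
  have hM : ∀ t ∈ Icc (0 : ℝ) 1, ∀ θ : sphere (0 : E k) 1, ∀ a : (E k →L[ℝ] E k)ˣ,
      act m (a : E k →L[ℝ] E k) (q t θ) = x → ‖(a : E k →L[ℝ] E k)‖ ≤ Real.sqrt (‖x.1‖ / c) := by
    intro t _ θ a ha
    exact act_bound m hc x (q t θ) (fun v => hlow _ (hFi t θ θ.2) v) _ ha
  -- base points
  have hsph : (sphere (0 : E k) 1).Nonempty := by
    have : Nontrivial (E k) := by
      refine Module.nontrivial_of_finrank_pos (R := ℝ) ?_
      rw [finrank_euclideanSpace_fin]; omega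
    exact NormedSpace.sphere_nonempty.2 zero_le_one
  obtain ⟨u₀, hu₀⟩ := hsph
  obtain ⟨P₀, hP₀⟩ := exists_act hf hfr m (F 0 u₀) F₀ (hFi 0 u₀ hu₀) hF₀
  obtain ⟨P₁, hP₁⟩ := exists_act hf hfr m F₁ F₀ hF₁ hF₀
  obtain ⟨P, hPc, hP0, hPq, hPs⟩ := lift (act (k := k) m) (act_contDiff m).continuous (act_one m)
    (act_mul m) x hε S hSc hSx hSR q hqc horb hM P₀ (by
      intro θ
      show act m (P₀ : E k →L[ℝ] E k) (QQ m f (F 0 θ)) = x
      rw [hF0 θ u₀, hP₀])
  -- extension of `P` to all vectors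
  set P' : ℝ → E k → E k →L[ℝ] E k := fun t u =>
    if hu : u ∈ sphere (0 : E k) 1 then P t ⟨u, hu⟩ else 0 with hP'
  have hP'eq : ∀ t u (hu : u ∈ sphere (0 : E k) 1), P' t u = P t ⟨u, hu⟩ := by
    intro t u hu
    simp only [hP', hu, dif_pos]
  have hP'c : ContinuousOn (fun z : ℝ × E k => P' z.1 z.2)
      (Icc (0 : ℝ) 1 ×ˢ sphere (0 : E k) 1) := by
    rw [continuousOn_iff_continuous_domRestrict]
    have h1 : Continuous (fun z : (Icc (0 : ℝ) 1 ×ˢ sphere (0 : E k) 1 : Set (ℝ × E k)) =>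
        ((z.1.1, ⟨z.1.2, z.2.2⟩) : ℝ × sphere (0 : E k) 1)) := by
      refine (continuous_fst.comp continuous_subtype_val).prodMk ?_
      exact (continuous_snd.comp continuous_subtype_val).subtype_mk _
    have h2 : Continuous (fun z : (Icc (0 : ℝ) 1 ×ˢ sphere (0 : E k) 1 : Set (ℝ × E k)) =>
        P z.1.1 ⟨z.1.2, z.2.2⟩) :=
      hPc.comp_continuous h1 (fun z => ⟨z.2.1, mem_univ _⟩)
    refine h2.congr (fun z => ?_)
    simp only [Set.domRestrict_apply]
    rw [hP'eq _ _ z.2.2]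
  -- the stabiliser
  have he : e ≠ 0 := by
    rintro rfl
    have h3 := mom_two_pos (gauge_comp hf hF₀) e' he'
    rw [← sec_eq_body, ← h2] at h3
    have h4 : mom 2 (sec f F₀) (fun _ => (0 : E k)) = 0 :=
      (mom 2 (sec f F₀)).map_coord_zero (0 : Fin 2) rfl
    rw [h4] at h3
    exact lt_irrefl _ h3
  have hstab : ∀ u (hu : u ∈ sphere (0 : E k) 1), ∃ γ : (E k →L[ℝ] E k)ˣ,
      act m (γ : E k →L[ℝ] E k) x = x ∧
        P 1 ⟨u, hu⟩ = refl u * ((P₁ : E k →L[ℝ] E k) * (γ : E k →L[ℝ] E k)) := by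
    intro u hu
    have hu1 : ‖u‖ = 1 := by simpa using hu
    obtain ⟨⟨p, hp⟩, h1⟩ := hPq 1 ⟨zero_le_one, le_rfl⟩ ⟨u, hu⟩
    have h2 : q 1 ⟨u, hu⟩ = act m (refl u) (QQ m f F₁) := by
      show QQ m f (F 1 u) = _
      have hFu : Iso (F₁.comp (refl u)) := by
        rw [← hF1 u hu]
        exact hFi 1 u hu
      rw [hF1 u hu]
      exact QQ_refl hf m F₁ hF₁ u hu1 hFu
    refine ⟨P₁⁻¹ * (reflU u hu1 * p), ?_, ?_⟩
    · have h3 : act m ((P₁⁻¹ : (E k →L[ℝ] E k)ˣ) : E k →L[ℝ] E k) x = QQ m f F₁ := by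
        rw [hx, ← hP₁]
        have h4 := act_mul m (P₁ : E k →L[ℝ] E k) ((P₁⁻¹ : (E k →L[ℝ] E k)ˣ) : E k →L[ℝ] E k)
        rw [Units.mul_inv, act_one] at h4
        exact (DFunLike.congr_fun h4 (QQ m f F₁)).symm
      rw [Units.val_mul, act_mul, Units.val_mul, act_mul]
      show act m (p : E k →L[ℝ] E k) (act m (refl u)
        (act m ((P₁⁻¹ : (E k →L[ℝ] E k)ˣ) : E k →L[ℝ] E k) x)) = x
      rw [h3, ← h2, hp, h1]
    · rw [Units.val_mul, ← mul_assoc (P₁ : E k →L[ℝ] E k), Units.mul_inv, one_mul, Units.val_mul,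
        ← mul_assoc]
      show P 1 ⟨u, hu⟩ = (refl u * refl u) * (p : E k →L[ℝ] E k)
      rw [refl_sq hu1, one_mul, hp]
  -- the homotopy
  set a : ℝ → ℝ := fun t => min (2 * t) 1 with ha
  set b : ℝ → ℝ := fun t => max (2 * t - 1) 0 with hb
  have hac : Continuous a := by fun_prop
  have hbc : Continuous b := by fun_prop
  have ha01 : ∀ t ∈ Icc (0 : ℝ) 1, a t ∈ Icc (0 : ℝ) 1 := by
    intro t ht
    exact ⟨le_min (by linarith [ht.1]) zero_le_one, min_le_right _ _⟩
  have hb01 : ∀ t ∈ Icc (0 : ℝ) 1, b t ∈ Icc (0 : ℝ) 1 := by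
    intro t ht
    exact ⟨le_max_right _ _, max_le (by linarith [ht.2]) zero_le_one⟩
  refine ⟨fun t u => (1 - b t) • P' (a t) u e - b t • refl u ((P₁ : E k →L[ℝ] E k) e'),
    (P₀ : E k →L[ℝ] E k) e, (P₁ : E k →L[ℝ] E k) e', ?_, ?_, ?_, ?_, ?_⟩
  · have h1 : ContinuousOn (fun z : ℝ × E k => P' (a z.1) z.2)
        (Icc (0 : ℝ) 1 ×ˢ sphere (0 : E k) 1) := by
      have h2 : Continuous (fun z : ℝ × E k => ((a z.1, z.2) : ℝ × E k)) := by fun_prop
      exact hP'c.comp h2.continuousOn (fun z hz => ⟨ha01 _ hz.1, hz.2⟩)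
    have h3 : ContinuousOn (fun z : ℝ × E k => P' (a z.1) z.2 e)
        (Icc (0 : ℝ) 1 ×ˢ sphere (0 : E k) 1) := h1.clm_apply continuousOn_const
    have h4 : Continuous (fun z : ℝ × E k => b z.1) := hbc.comp continuous_fst
    have h5 : Continuous (fun z : ℝ × E k => refl z.2 ((P₁ : E k →L[ℝ] E k) e')) := by
      simp only [refl_apply]
      fun_prop
    exact ((continuousOn_const.sub h4.continuousOn).smul h3).sub
      (h4.continuousOn.smul h5.continuousOn)
  · intro u hu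
    have h1 : a 0 = 0 := by simp [ha]
    have h2 : b 0 = 0 := by simp [hb]
    simp only [h1, h2, sub_zero, one_smul, zero_smul]
    rw [hP'eq _ _ hu, hP0]
  · intro u hu
    have h1 : b 1 = 1 := by simp only [hb]; norm_num
    simp only [h1, sub_self, zero_smul, one_smul, zero_sub]
    rw [refl_apply]
    module
  · intro t ht u hu h0
    have hu1 : ‖u‖ = 1 := by simpa using hu
    simp only at h0
    rcases le_or_gt (2 * t) 1 with h | h
    · have h2 : b t = 0 := by
        simp only [hb]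
        exact max_eq_right (by linarith)
      rw [h2, sub_zero, one_smul, zero_smul, sub_zero, hP'eq _ _ hu] at h0
      obtain ⟨⟨p, hp⟩, -⟩ := hPq (a t) (ha01 t ht) ⟨u, hu⟩
      rw [← hp] at h0
      apply he
      have h3 : (((p⁻¹ : (E k →L[ℝ] E k)ˣ) : E k →L[ℝ] E k) * (p : E k →L[ℝ] E k)) e = 0 := by
        show ((p⁻¹ : (E k →L[ℝ] E k)ˣ) : E k →L[ℝ] E k) ((p : E k →L[ℝ] E k) e) = 0
        rw [h0, map_zero]
      rw [Units.inv_mul] at h3
      exact h3
    · have h1 : a t = 1 := by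
        simp only [ha]
        exact min_eq_right h.le
      rw [h1, hP'eq _ _ hu] at h0
      obtain ⟨γ, hγ, hPγ⟩ := hstab u hu
      rw [hPγ] at h0
      obtain ⟨hb0, hb1⟩ := hb01 t ht
      have h3 : refl u ((P₁ : E k →L[ℝ] E k)
          ((1 - b t) • (γ : E k →L[ℝ] E k) e - b t • e')) = 0 := by
        rw [map_sub, map_smul, map_smul, map_sub, map_smul, map_smul]
        exact h0
      have h4 : (1 - b t) • (γ : E k →L[ℝ] E k) e - b t • e' = 0 := by
        have h5 := congrArg (fun v => ((P₁⁻¹ : (E k →L[ℝ] E k)ˣ) : E k →L[ℝ] E k) (refl u v)) h3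
        simp only [map_zero] at h5
        have h6 : ∀ v, refl u (refl u v) = v := fun v => DFunLike.congr_fun (refl_sq hu1) v
        rw [h6] at h5
        have h7 : ∀ v, ((P₁⁻¹ : (E k →L[ℝ] E k)ˣ) : E k →L[ℝ] E k)
            ((P₁ : E k →L[ℝ] E k) v) = v := fun v => by
          have := Units.inv_mul P₁
          exact DFunLike.congr_fun this v
        rwa [h7] at h5
      have hγe : (γ : E k →L[ℝ] E k) e ≠ 0 := by
        intro h5
        apply he
        have h6 : (((γ⁻¹ : (E k →L[ℝ] E k)ˣ) : E k →L[ℝ] E k) * (γ : E k →L[ℝ] E k)) e = 0 := by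
          show ((γ⁻¹ : (E k →L[ℝ] E k)ˣ) : E k →L[ℝ] E k) ((γ : E k →L[ℝ] E k) e) = 0
          rw [h5, map_zero]
        rw [Units.inv_mul] at h6
        exact h6
      have hb1' : b t ≠ 1 := by
        intro h5
        rw [h5, sub_self, zero_smul, one_smul, zero_sub, neg_eq_zero] at h4
        exact he' h4
      have hb1'' : 0 < 1 - b t := by
        rcases hb1.lt_or_eq with h5 | h5
        · linarith
        · exact absurd h5 hb1'
      set l : ℝ := b t / (1 - b t) with hl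
      have hl0 : 0 ≤ l := div_nonneg hb0 hb1''.le
      have hγl : (γ : E k →L[ℝ] E k) e = l • e' := by
        have h5 : (1 - b t) • (γ : E k →L[ℝ] E k) e = b t • e' := sub_eq_zero.1 h4
        have h6 := congrArg (fun v => (1 - b t)⁻¹ • v) h5
        simp only [smul_smul, inv_mul_cancel₀ hb1''.ne', one_smul] at h6
        rw [h6, hl, div_eq_inv_mul]
      have hγ1 : ∀ v, x.1 (fun _ => (γ : E k →L[ℝ] E k) v) = x.1 (fun _ => v) := by
        intro v
        have h5 := congrArg Prod.fst hγ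
        rw [act_apply] at h5
        have h6 := DFunLike.congr_fun h5 (fun _ => v)
        exact h6
      have hγ2 : ∀ v, x.2 (fun _ => (γ : E k →L[ℝ] E k) v) = x.2 (fun _ => v) := by
        intro v
        have h5 := congrArg Prod.snd hγ
        rw [act_apply] at h5
        have h6 := DFunLike.congr_fun h5 (fun _ => v)
        exact h6
      have h7 : l ^ 2 * x.1 (fun _ => e') = x.1 (fun _ => e') := by
        have h8 := hγ1 e
        rw [hγl, show (fun _ : Fin 2 => l • e') = fun i => (fun _ : Fin 2 => l) i •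
          (fun _ : Fin 2 => e') i from rfl, ContinuousMultilinearMap.map_smul_univ] at h8
        simp only [Finset.prod_const, Finset.card_univ, Fintype.card_fin, smul_eq_mul] at h8
        rw [h8]
        exact h2
      have h8 : 0 < x.1 (fun _ => e') := mom_two_pos (gauge_comp hf hF₀) e' he'
      have h9 : l = 1 := by
        have h10 : (l ^ 2 - 1) * x.1 (fun _ => e') = 0 := by linarith
        rcases mul_eq_zero.1 h10 with h11 | h11
        · nlinarith
        · exact absurd h11 h8.ne'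
      rw [h9, one_smul] at hγl
      have h10 := hγ2 e
      rw [hγl] at h10
      exact hm h10.symm
  · intro hev t ht u hu
    have hu' : -u ∈ sphere (0 : E k) 1 := by simpa using hu
    have h1 : P' (a t) (-u) = P' (a t) u := by
      rw [hP'eq _ _ hu, hP'eq _ _ hu']
      refine hPs _ _ (fun s _ => ?_) _ (ha01 t ht)
      show QQ m f (F s (-u)) = QQ m f (F s u)
      rw [hev]
    have h2 : refl (-u) = refl u := by
      ext1 v
      rw [refl_apply, refl_apply, inner_neg_left]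
      module
    simp only [h1, h2]


end

end Pool.Agent.SB
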