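import Mathlib
import Pool.Agent.SB.Defs

set_option autoImplicit false

open Set Metric
open Pool.Agent.H87Star (IsGauge)

namespace Pool.Agent.SB

theorem Quad_norm_lt {k : ℕ} {h : E k → ℝ} (hh : IsGauge h) (g : E k ≃ₗ[ℝ] E k) (z : E k)
    (hg : ∀ x, h x ≤ 1 ↔ ‖g x - z‖ ≤ 1) : ‖z‖ < 1 := by
  by_contra hcon
  push Not at hcon
  have hx := hh.nonneg (g.symm (-z))
  have hpos : 0 < (1 + h (g.symm (-z)))⁻¹ := by positivity
  set ε := (1 + h (g.symm (-z)))⁻¹ with hε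
  have h1 : h (ε • g.symm (-z)) ≤ 1 := by
    rw [hh.hom ε hpos.le, hε, inv_mul_le_iff₀ (by linarith)]
    linarith
  have h2 := (hg _).1 h1
  have h3 : g (ε • g.symm (-z)) - z = (-(ε + 1)) • z := by
    rw [map_smul, LinearEquiv.apply_symm_apply]
    module
  rw [h3, norm_smul, Real.norm_eq_abs, abs_neg, abs_of_pos (by linarith)] at h2
  nlinarith

theorem Quad_key {k : ℕ} {h : E k → ℝ} (hh : IsGauge h) (g : E k ≃ₗ[ℝ] E k) (z : E k)
    (hg : ∀ x, h x ≤ 1 ↔ ‖g x - z‖ ≤ 1) (v : E k) :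
    ‖g v‖ ^ 2 - 2 * h v * inner ℝ (g v) z - (1 - ‖z‖ ^ 2) * h v ^ 2 = 0 := by
  by_cases hv : v = 0
  · subst hv
    simp [hh.zero]
  have hpos := hh.pos v hv
  have hle : ‖(h v)⁻¹ • g v - z‖ ≤ 1 := by
    have := (hg ((h v)⁻¹ • v)).1 (by
      rw [hh.hom _ (inv_nonneg.2 hpos.le), inv_mul_cancel₀ hpos.ne'])
    rwa [map_smul] at this
  have hge : 1 ≤ ‖(h v)⁻¹ • g v - z‖ := by
    by_contra hcon
    push Not at hcon
    have hc : ContinuousAt (fun t : ℝ => ‖t • g v - z‖) (h v)⁻¹ := by fun_prop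
    have h1 : ∀ᶠ t in nhds (h v)⁻¹, ‖t • g v - z‖ < 1 := hc.eventually_lt_const hcon
    have h2 : ∀ᶠ t in nhdsWithin (h v)⁻¹ (Set.Ioi (h v)⁻¹), ‖t • g v - z‖ < 1 :=
      h1.filter_mono nhdsWithin_le_nhds
    obtain ⟨t, ht1, ht2⟩ := (h2.and self_mem_nhdsWithin).exists
    have ht2' : (h v)⁻¹ < t := ht2
    have ht0 : 0 < t := (inv_pos.2 hpos).trans ht2'
    have h3 := (hg (t • v)).2 (by rw [map_smul]; exact ht1.le)
    rw [hh.hom t ht0.le] at h3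
    have h4 : 1 < t * h v := by
      rw [inv_lt_iff_one_lt_mul₀ hpos] at ht2'
      linarith
    linarith
  have heq : ‖(h v)⁻¹ • g v - z‖ = 1 := le_antisymm hle hge
  have h5 := norm_sub_sq_real ((h v)⁻¹ • g v) z
  rw [heq, norm_smul, Real.norm_eq_abs, abs_of_pos (inv_pos.2 hpos), real_inner_smul_left,
    mul_pow] at h5
  have hne := hpos.ne'
  have h6 : (h v) ^ 2 * ((h v)⁻¹ ^ 2 * ‖g v‖ ^ 2) = ‖g v‖ ^ 2 := by field_simp
  have h7 : (h v) ^ 2 * (2 * ((h v)⁻¹ * inner ℝ (g v) z)) = 2 * h v * inner ℝ (g v) z := by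
    field_simp
  have h8 : (h v) ^ 2 * 1 ^ 2 = (h v) ^ 2 * ((h v)⁻¹ ^ 2 * ‖g v‖ ^ 2 -
      2 * ((h v)⁻¹ * inner ℝ (g v) z) + ‖z‖ ^ 2) := by rw [← h5]
  rw [mul_add, mul_sub, h6, h7] at h8
  linarith

/-- The gauge of an affine ball. -/
theorem quad_of_affine_ball {k : ℕ} {h : E k → ℝ} (hh : IsGauge h) (g : E k ≃ₗ[ℝ] E k) (z : E k)
    (hg : ∀ x, h x ≤ 1 ↔ ‖g x - z‖ ≤ 1) :
    ∃ (b : E k →ₗ[ℝ] E k →ₗ[ℝ] ℝ) (l : E k →ₗ[ℝ] ℝ), (∀ v w, b v w = b w v) ∧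
      (∀ v, h v * h (-v) = b v v) ∧ ∀ v, h v - h (-v) = l v := by
  have hz := Quad_norm_lt hh g z hg
  have hc : 0 < 1 - ‖z‖ ^ 2 := by
    have := norm_nonneg z
    nlinarith
  have key := Quad_key hh g z hg
  have hdiff : ∀ v, h v - h (-v) = -2 * (1 - ‖z‖ ^ 2)⁻¹ * inner ℝ (g v) z := by
    intro v
    by_cases hv : v = 0
    · subst hv
      simp
    have h1 := key v
    have h2 := key (-v)
    rw [map_neg, norm_neg, inner_neg_left] at h2
    have hp := hh.pos v hv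
    have hp' := hh.pos (-v) (neg_ne_zero.2 hv)
    have h3 : (h v + h (-v)) * (2 * inner ℝ (g v) z + (1 - ‖z‖ ^ 2) * (h v - h (-v))) = 0 := by
      linear_combination h2 - h1
    have h4 : 2 * inner ℝ (g v) z + (1 - ‖z‖ ^ 2) * (h v - h (-v)) = 0 := by
      rcases mul_eq_zero.1 h3 with h | h
      · linarith
      · exact h
    field_simp
    linarith
  refine ⟨(1 - ‖z‖ ^ 2)⁻¹ • ((innerₗ (E k)).compl₁₂ g.toLinearMap g.toLinearMap),
    (-2 * (1 - ‖z‖ ^ 2)⁻¹) • ((innerₗ (E k)).flip z ∘ₗ g.toLinearMap), ?_, ?_, ?_⟩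
  · intro v w
    simp [real_inner_comm]
  · intro v
    by_cases hv : v = 0
    · subst hv
      simp [hh.zero]
    have h1 := key v
    have h2 := hdiff v
    simp only [LinearMap.smul_apply, LinearMap.compl₁₂_apply, LinearEquiv.coe_coe, innerₗ_apply_apply,
      smul_eq_mul, real_inner_self_eq_norm_sq]
    have h3 : h (-v) = h v + 2 * (1 - ‖z‖ ^ 2)⁻¹ * inner ℝ (g v) z := by linarith
    rw [h3]
    field_simp
    linarith
  · intro v
    rw [hdiff v]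
    simp only [LinearMap.smul_apply, LinearMap.comp_apply, LinearMap.flip_apply,
      LinearEquiv.coe_coe, innerₗ_apply_apply, smul_eq_mul]

end Pool.Agent.SB
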