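import Mathlib
import Pool.Agent.SB.Core
import Pool.Agent.SB.AffBall
import Pool.Agent.SB.Quad
import Pool.Agent.SB.Glob
import Pool.Agent.SB.Frames

set_option autoImplicit false

open MeasureTheory Set Metric
open scoped ENNReal
open Pool.Agent.H87Star (IsGauge gaugeOf isGauge_gaugeOf gaugeOf_le_one)

namespace Pool.Agent.SB

/-- all moments of all sections are functions of the second moment -/
theorem moments_radial {n k : ℕ} (hk : 2 ≤ k) (hn : k + 1 ≤ n) (hkn : Even k ∨ 2 * k ≤ n)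
    {f : E n → ℝ} (hf : IsGauge f)
    (hfr : ∀ F F' : E k →L[ℝ] E n, Iso F → Iso F' →
      ∃ (g : E k ≃L[ℝ] E k) (c : E k), ∀ v, f (F' (g v + c)) ≤ 1 ↔ f (F v) ≤ 1)
    (F₀ : E k →L[ℝ] E n) (hF₀ : Iso F₀) (m : ℕ) (e e' : E k)
    (h2 : mom 2 (sec f F₀) (fun _ => e) = mom 2 (sec f F₀) (fun _ => e')) :
    mom m (sec f F₀) (fun _ => e) = mom m (sec f F₀) (fun _ => e') := by
  by_contra hm
  have h0 : ∀ v, mom 2 (sec f F₀) (fun _ => v) = 0 → v = 0 := by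
    intro v hv
    by_contra hv0
    exact absurd hv (mom_two_pos (gauge_comp hf hF₀) v hv0).ne'
  have he' : e' ≠ 0 := by
    rintro rfl
    have h4 : mom 2 (sec f F₀) (fun _ => (0 : E k)) = 0 :=
      (mom 2 (sec f F₀)).map_coord_zero (0 : Fin 2) rfl
    rw [h4] at h2
    rw [h0 e h2] at hm
    exact hm rfl
  rcases hkn with hev | h2k
  · obtain ⟨F, F₁, hF₁, hFc, hFi, hF0, hF1⟩ := homot_hyper (k := k) hn
    obtain ⟨W, w, f', hW, hW0, hW1, hWne, -⟩ := core_aux hk hf hfr F₀ hF₀ m e e' he' h2 hm F F₁ hF₁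
      hFc hFi hF0 hF1
    exact no_null_even hev hk W hW w f' hW0 hW1 hWne
  · obtain ⟨F, F₁, hF₁, hFc, hFi, hF0, hF1, hFev⟩ := homot_double (k := k) h2k
    obtain ⟨W, w, f', hW, hW0, hW1, hWne, hWev⟩ := core_aux hk hf hfr F₀ hF₀ m e e' he' h2 hm F F₁
      hF₁ hFc hFi hF0 hF1
    exact no_null_sym hk W hW w f' hW0 hW1 hWne (hWev hFev)

theorem ellipsoid {n k : ℕ} (hk : 2 ≤ k) (hn : k + 1 ≤ n) (hkn : Even k ∨ 2 * k ≤ n)
    (K : Set (E n))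
    (hK : ∃ ρ : E n → ℝ, Continuous ρ ∧ (∀ x, 0 < ρ x) ∧ K = {x | ‖x‖ ≤ ρ (‖x‖⁻¹ • x)})
    (hsec : ∀ S T : Submodule ℝ (E n), Module.finrank ℝ S = k → Module.finrank ℝ T = k →
      ∃ φ : S ≃ᵃ[ℝ] T, φ '' {x : S | (x : E n) ∈ K} = {y : T | (y : E n) ∈ K}) :
    ∃ A : E n ≃ᵃ[ℝ] E n, K = A '' Metric.closedBall 0 1 := by
  obtain ⟨ρ, hρ, hpos, hKρ⟩ := hK
  have hf : IsGauge (gaugeOf ρ) := isGauge_gaugeOf hρ hpos
  have hmemK : ∀ x, x ∈ K ↔ gaugeOf ρ x ≤ 1 := by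
    intro x; rw [gaugeOf_le_one hpos, hKρ]; rfl
  have hKe : K = {x | gaugeOf ρ x ≤ 1} := by
    ext x; rw [hmemK]; rfl
  have hfr : ∀ F F' : E k →L[ℝ] E n, Iso F → Iso F' →
      ∃ (g : E k ≃L[ℝ] E k) (c : E k), ∀ v, gaugeOf ρ (F' (g v + c)) ≤ 1 ↔ gaugeOf ρ (F v) ≤ 1 := by
    intro F F' hF hF'
    refine frames_of_sections (fun S T hS hT => ?_) F F' hF hF'
    obtain ⟨φ, hφ⟩ := hsec S T hS hT
    refine ⟨φ, ?_⟩
    simp only [hmemK] at hφ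
    exact hφ
  rw [hKe]
  refine ellipsoid_of_sections hk (by omega) hf (fun F hF => ?_)
  have hh := gauge_comp hf hF
  obtain ⟨g, z, hgz⟩ := affine_ball (by omega) hh (fun m v w h2 =>
    moments_radial hk hn hkn hf hfr F hF m v w h2)
  exact quad_of_affine_ball hh g z hgz

end Pool.Agent.SB
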