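import Mathlib
import Pool.Agent.SB.Final

set_option autoImplicit false

namespace Pool.Agent.SB.EvenOrDoubleOld

section
variable {V : Type*} [NormedAddCommGroup V] [InnerProductSpace ℝ V]

/-- Star bodies with continuous positive radial function (as in the frozen statement). -/
def IsStarBody (K : Set V) : Prop :=
  ∃ ρ : V → ℝ, Continuous ρ ∧ (∀ x, 0 < ρ x) ∧ K = {x | ‖x‖ ≤ ρ (‖x‖⁻¹ • x)}

/-- `K` is the image of the closed unit ball under an invertible affine map. -/
def IsEllipsoid (K : Set V) : Prop := ∃ A : V ≃ᵃ[ℝ] V, K = A '' Metric.closedBall 0 1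

end

section
variable {X Y : Type*} [AddCommGroup X] [Module ℝ X] [AddCommGroup Y] [Module ℝ Y]

/-- An affine bijection maps `A` onto `B`. -/
def AffEquiv (A : Set X) (B : Set Y) : Prop := ∃ f : X ≃ᵃ[ℝ] Y, f '' A = B

variable {V : Type*} [AddCommGroup V] [Module ℝ V]

/-- The section of `K` by the subspace `S`, as a subset of `S`. -/
def sect (K : Set V) (S : Submodule ℝ V) : Set S := {x : S | (x : V) ∈ K}

/-- Any two `k`-dimensional central sections of `K` are affinely equivalent. -/
def SectionsEquivalent (k : ℕ) (K : Set V) : Prop :=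
  ∀ S T : Submodule ℝ V, Module.finrank ℝ S = k → Module.finrank ℝ T = k →
    AffEquiv (sect K S) (sect K T)

end

/-- Let `2 ≤ k ≤ n - 1`, where `k` is even or `n ≥ 2 k`. Let `K` be a star body in `ℝⁿ` with
continuous positive radial function (as in the frozen statement; no convexity or symmetry is
assumed). If any two sections of `K` by `k`-dimensional linear subspaces are affinely equivalent,
then `K` is an ellipsoid: an affine image of the closed unit ball. -/
theorem result (n k : ℕ) (hk : 2 ≤ k) (hn : k + 1 ≤ n) (hkn : Even k ∨ 2 * k ≤ n)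
    (K : Set (EuclideanSpace ℝ (Fin n))) (hK : IsStarBody K) (hsec : SectionsEquivalent k K) :
    IsEllipsoid K :=
  Pool.Agent.SB.ellipsoid hk hn hkn K hK hsec

end Pool.Agent.SB.EvenOrDoubleOld
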